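import Pool.Agent.N163.KN.Stm

/-!
# Project KN, leaf CAR: the equation of Cartier in characteristic seven
-/

set_option autoImplicit false

namespace Pool.Agent.N163.KN.CAR

variable {K : Type} [Field K]

/-- the derivation given by `δ` -/
def der (δ : K → K) (h : IsDn δ) : Derivation ℤ K K :=
  Derivation.mk' (AddMonoidHom.mk' δ h.add).toIntLinearMap (fun a b => by
    change δ (a * b) = a • δ b + b • δ a
    rw [h.mul, smul_eq_mul, smul_eq_mul])

theorem der_apply (δ : K → K) (h : IsDn δ) (f : K) : der δ h f = δ f := rfl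

theorem bell (D : Derivation ℤ K K) (h7K : (7 : K) = 0) (z L L1 L2 L3 L4 L5 L6 : K) (hz : z ≠ 0)
    (hL : D z = L * z) (e1 : D L = L1) (e2 : D L1 = L2) (e3 : D L2 = L3) (e4 : D L3 = L4)
    (e5 : D L4 = L5) (e6 : D L5 = L6) (h7 : D (D (D (D (D (D (D z)))))) = 0) :
    L6 = -L ^ 7 := by
  have num : ∀ (n : ℕ) [n.AtLeastTwo], D (OfNat.ofNat n : K) = 0 := fun n _ => by
    rw [← Nat.cast_ofNat]
    exact D.map_natCast _
  have h2 : D (D z) = (L1 + L ^ 2) * z := by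
    rw [hL, D.leibniz, hL, e1]
    simp only [smul_eq_mul]
    ring
  have h3 : D (D (D z)) = (L2 + 3 * L * L1 + L ^ 3) * z := by
    rw [h2]
    simp only [map_add, D.leibniz, D.leibniz_pow, hL, e1, e2, smul_eq_mul, nsmul_eq_mul]
    push_cast
    ring
  have h4 : D (D (D (D z))) = (L3 + 4 * L * L2 + 3 * L1 ^ 2 + 6 * L ^ 2 * L1 + L ^ 4) * z := by
    rw [h3]
    simp only [map_add, D.leibniz, D.leibniz_pow, num, hL, e1, e2, e3, smul_eq_mul, nsmul_eq_mul]
    push_cast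
    ring
  have h5 : D (D (D (D (D z)))) = (L4 + 5 * L * L3 + 10 * L1 * L2 + 10 * L ^ 2 * L2 +
      15 * L * L1 ^ 2 + 10 * L ^ 3 * L1 + L ^ 5) * z := by
    rw [h4]
    simp only [map_add, D.leibniz, D.leibniz_pow, num, hL, e1, e2, e3, e4, smul_eq_mul,
      nsmul_eq_mul]
    push_cast
    ring
  have h6 : D (D (D (D (D (D z))))) = (L5 + 6 * L * L4 + 15 * L1 * L3 + 10 * L2 ^ 2 +
      15 * L ^ 2 * L3 + 60 * L * L1 * L2 + 15 * L1 ^ 3 + 20 * L ^ 3 * L2 + 45 * L ^ 2 * L1 ^ 2 +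
      15 * L ^ 4 * L1 + L ^ 6) * z := by
    rw [h5]
    simp only [map_add, D.leibniz, D.leibniz_pow, num, hL, e1, e2, e3, e4, e5, smul_eq_mul,
      nsmul_eq_mul]
    push_cast
    ring
  have h8 : D (D (D (D (D (D (D z)))))) = (L6 + L ^ 7 + 7 * (3 * L ^ 5 * L1 + 5 * L ^ 4 * L2 +
      15 * L ^ 3 * L1 ^ 2 + 5 * L ^ 3 * L3 + 30 * L ^ 2 * L1 * L2 + 15 * L * L1 ^ 3 +
      3 * L ^ 2 * L4 + 15 * L * L1 * L3 + 10 * L * L2 ^ 2 + 15 * L1 ^ 2 * L2 + L * L5 +
      5 * L2 * L3 + 3 * L1 * L4)) * z := by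
    rw [h6]
    simp only [map_add, D.leibniz, D.leibniz_pow, num, hL, e1, e2, e3, e4, e5, e6, smul_eq_mul,
      nsmul_eq_mul]
    push_cast
    ring
  rw [h7, h7K, zero_mul, add_zero] at h8
  have h9 : L6 + L ^ 7 = 0 := by
    rcases mul_eq_zero.1 h8.symm with h | h
    · exact h
    · exact absurd h hz
  linear_combination h9

theorem iter_const (D : Derivation ℤ K K) (c : K) (hc : D c = 0) (m : ℕ) (f : K) :
    (⇑D)^[m] (c * f) = c * (⇑D)^[m] f := by
  induction m with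
  | zero => rfl
  | succ m ih =>
    rw [Function.iterate_succ_apply', Function.iterate_succ_apply', ih, D.leibniz, hc,
      smul_eq_mul, smul_eq_mul, mul_zero, add_zero]

theorem iter_add (D : Derivation ℤ K K) (m : ℕ) (f g : K) :
    (⇑D)^[m] (f + g) = (⇑D)^[m] f + (⇑D)^[m] g := by
  induction m with
  | zero => rfl
  | succ m ih =>
    rw [Function.iterate_succ_apply', Function.iterate_succ_apply', Function.iterate_succ_apply',
      ih, map_add]

theorem d_seven (D : Derivation ℤ K K) (h7K : (7 : K) = 0) (c : K) : D (3 * c ^ 7) = 0 := by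
  have num : D (3 : K) = 0 := by
    have h := D.map_natCast 3
    push_cast at h
    exact h
  rw [D.leibniz, D.leibniz_pow, num, smul_zero, add_zero, nsmul_eq_mul]
  push_cast
  rw [h7K, zero_mul, smul_zero]

theorem t_CAR : S_CAR := by
  intro K _ _ δ a x y hδ h7 ha hy hxy
  have h7K : (7 : K) = 0 := by exact_mod_cast CharP.cast_eq_zero K 7
  obtain ⟨D, hD⟩ : ∃ D : Derivation ℤ K K, ⇑D = δ := ⟨der δ hδ, funext (der_apply δ hδ)⟩
  subst hD
  by_cases hx : x = 0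
  · subst hx
    have h0 : D 0 = 0 := D.map_zero
    have h1 : dd (⇑D) a 0 y = 0 := by
      unfold dd
      rw [h0]
      simp
    rw [h1, mul_zero, Function.iterate_fixed h0]
    ring
  · have num : ∀ (n : ℕ) [n.AtLeastTwo], D (OfNat.ofNat n : K) = 0 := fun n _ => by
      rw [← Nat.cast_ofNat]
      exact D.map_natCast _
    obtain ⟨p, hp⟩ : ∃ p, p = D x := ⟨_, rfl⟩
    obtain ⟨q, hq⟩ : ∃ q, q = D a := ⟨_, rfl⟩
    obtain ⟨L, hL⟩ : ∃ L, L = 3 * p / x - 2 * q / a := ⟨_, rfl⟩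
    have hg : dd (⇑D) a x y = a * x * L / y := by
      unfold dd
      rw [← hp, ← hq, hL]
      field_simp
    have hz0 : x ^ 3 / a ^ 2 ≠ 0 := div_ne_zero (pow_ne_zero _ hx) (pow_ne_zero _ ha)
    have hz : D (x ^ 3 / a ^ 2) = L * (x ^ 3 / a ^ 2) := by
      rw [D.leibniz_div, D.leibniz_pow, D.leibniz_pow, ← hp, ← hq, hL]
      simp only [smul_eq_mul, nsmul_eq_mul]
      push_cast
      field_simp
    have hbell := bell D h7K (x ^ 3 / a ^ 2) L _ _ _ _ _ _ hz0 hz rfl rfl rfl rfl rfl rfl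
      (h7 (x ^ 3 / a ^ 2))
    have hu : D (a ^ 4 * x - a ^ 2 * x ^ 4 + 5 * (x ^ 10 / a ^ 2)) =
        4 * a ^ 3 * x * q + a ^ 4 * p - 2 * a * x ^ 4 * q - 4 * a ^ 2 * x ^ 3 * p +
          5 * (10 * x ^ 9 * p / a ^ 2 - 2 * x ^ 10 * q / a ^ 3) := by
      simp only [map_add, map_sub, D.leibniz, D.leibniz_div, D.leibniz_pow, num, ← hp, ← hq,
        smul_eq_mul, nsmul_eq_mul]
      push_cast
      field_simp
      ring
    have hy6 : y ^ 6 = (x ^ 3 + a ^ 2) ^ 3 := by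
      rw [← hxy]
      ring
    have key1 : D (a ^ 4 * x - a ^ 2 * x ^ 4 + 5 * (x ^ 10 / a ^ 2)) + x ^ 7 * L =
        y ^ 6 / a ^ 3 * (a * p + 4 * x * q) := by
      rw [hu, hy6, hL]
      field_simp
      linear_combination (p * (-a ^ 5 * x ^ 3 + 7 * a * x ^ 9) +
        q * (-2 * a ^ 4 * x ^ 4 - 2 * x ^ 10 - 2 * a ^ 2 * x ^ 7)) * h7K
    have key2 : a ^ 4 * dd (⇑D) a x y =
        3 * (a / y) ^ 7 * D (a ^ 4 * x - a ^ 2 * x ^ 4 + 5 * (x ^ 10 / a ^ 2)) +
          3 * (a * x / y) ^ 7 * L := by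
      have h1 : 3 * (a / y) ^ 7 * D (a ^ 4 * x - a ^ 2 * x ^ 4 + 5 * (x ^ 10 / a ^ 2)) +
          3 * (a * x / y) ^ 7 * L = 3 * (a / y) ^ 7 *
            (D (a ^ 4 * x - a ^ 2 * x ^ 4 + 5 * (x ^ 10 / a ^ 2)) + x ^ 7 * L) := by
        rw [div_pow, div_pow, mul_pow]
        ring
      rw [h1, key1]
      unfold dd
      rw [← hp, ← hq]
      field_simp
      linear_combination (-2 * x * q) * h7K
    rw [key2, iter_add, iter_const D _ (d_seven D h7K _), iter_const D _ (d_seven D h7K _),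
      ← Function.iterate_succ_apply, h7, mul_zero, zero_add]
    have h6 : (⇑D)^[6] L = -L ^ 7 := hbell
    rw [h6, hg]
    rw [div_pow, div_pow, mul_pow, mul_pow]
    ring

end Pool.Agent.N163.KN.CAR
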