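import Pool.Agent.N163.KN.Stm

/-!
# Project KN (helper163): task DER, the derivation of `k(t)` (by helper663)
-/

set_option autoImplicit false

namespace Pool.Agent.N163.KN.DER

open Polynomial Pool.Agent.N163.KN

section

variable {k : Type} [Field k]

/-- the embedding of the polynomials -/
noncomputable abbrev ro (p : k[X]) : RatFunc k := algebraMap k[X] (RatFunc k) p

theorem ro_inj {p q : k[X]} (h : ro p = ro q) : p = q :=
  IsFractionRing.injective k[X] (RatFunc k) h

theorem ro_ne {p : k[X]} (h : p ≠ 0) : ro p ≠ 0 := fun h1 =>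
  h (ro_inj (h1.trans (map_zero (algebraMap k[X] (RatFunc k))).symm))

/-- the derivation `d / dt` -/
noncomputable def der (f : RatFunc k) : RatFunc k :=
  (ro (derivative f.num) * ro f.denom - ro f.num * ro (derivative f.denom)) / ro f.denom ^ 2

theorem der_div {A B : k[X]} (hB : B ≠ 0) (f : RatFunc k) (hf : f = ro A / ro B) :
    der f = (ro (derivative A) * ro B - ro A * ro (derivative B)) / ro B ^ 2 := by
  have hM : f.denom ≠ 0 := RatFunc.denom_ne_zero f
  have hB' := ro_ne hB
  have hM' := ro_ne hM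
  have h0 : ro f.num / ro f.denom = ro A / ro B := (RatFunc.num_div_denom f).trans hf
  rw [div_eq_div_iff hM' hB'] at h0
  have h : f.num * B = A * f.denom := by
    apply ro_inj
    unfold ro
    rw [map_mul, map_mul]
    exact h0
  have h1 : derivative f.num * B + f.num * derivative B =
      derivative A * f.denom + A * derivative f.denom := by
    rw [← derivative_mul, h, derivative_mul]
  have h2 : ro (derivative f.num) * ro B + ro f.num * ro (derivative B) =
      ro (derivative A) * ro f.denom + ro A * ro (derivative f.denom) := by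
    unfold ro
    rw [← map_mul, ← map_mul, ← map_add, h1, map_add, map_mul, map_mul]
  unfold der
  rw [div_eq_div_iff (pow_ne_zero 2 hM') (pow_ne_zero 2 hB')]
  linear_combination (ro f.denom * ro B) * h2 -
    (ro (derivative f.denom) * ro B + ro f.denom * ro (derivative B)) * h0

theorem exists_div (f : RatFunc k) : ∃ A B : k[X], B ≠ 0 ∧ f = ro A / ro B :=
  ⟨f.num, f.denom, RatFunc.denom_ne_zero f, (RatFunc.num_div_denom f).symm⟩

theorem der_add (x y : RatFunc k) : der (x + y) = der x + der y := by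
  obtain ⟨A, B, hB, hx⟩ := exists_div x
  obtain ⟨C, D, hD, hy⟩ := exists_div y
  have hB' := ro_ne hB
  have hD' := ro_ne hD
  have hxy : x + y = ro (A * D + C * B) / ro (B * D) := by
    unfold ro
    rw [hx, hy, div_add_div _ _ hB' hD', map_add, map_mul, map_mul, map_mul]
    unfold ro
    ring
  rw [der_div (mul_ne_zero hB hD) _ hxy, der_div hB _ hx, der_div hD _ hy]
  rw [div_add_div _ _ (pow_ne_zero 2 hB') (pow_ne_zero 2 hD'), div_eq_div_iff
    (pow_ne_zero 2 (ro_ne (mul_ne_zero hB hD)))
    (mul_ne_zero (pow_ne_zero 2 hB') (pow_ne_zero 2 hD'))]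
  unfold ro
  simp only [map_mul, map_add, derivative_mul]
  ring

theorem der_mul (x y : RatFunc k) : der (x * y) = x * der y + y * der x := by
  obtain ⟨A, B, hB, hx⟩ := exists_div x
  obtain ⟨C, D, hD, hy⟩ := exists_div y
  have hB' := ro_ne hB
  have hD' := ro_ne hD
  have hxy : x * y = ro (A * C) / ro (B * D) := by
    unfold ro
    rw [hx, hy, div_mul_div_comm, map_mul, map_mul]
  rw [der_div (mul_ne_zero hB hD) _ hxy, der_div hB _ hx, der_div hD _ hy, hx, hy]
  rw [div_mul_div_comm, div_mul_div_comm, div_add_div _ _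
    (mul_ne_zero hB' (pow_ne_zero 2 hD')) (mul_ne_zero hD' (pow_ne_zero 2 hB')), div_eq_div_iff
    (pow_ne_zero 2 (ro_ne (mul_ne_zero hB hD)))
    (mul_ne_zero (mul_ne_zero hB' (pow_ne_zero 2 hD')) (mul_ne_zero hD' (pow_ne_zero 2 hB')))]
  unfold ro
  simp only [map_mul, map_add, derivative_mul]
  ring

theorem der_poly (p : k[X]) : der (ro p) = ro (derivative p) := by
  have h : ro p = ro p / ro 1 := by
    unfold ro
    rw [map_one, div_one]
  rw [der_div one_ne_zero _ h]
  unfold ro
  rw [derivative_one, map_zero, map_one, mul_zero, sub_zero, mul_one, one_pow, div_one]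

theorem isDer_der : IsDer (der (k := k)) where
  dn := ⟨der_add, der_mul⟩
  poly := der_poly

theorem iter_poly {δ : RatFunc k → RatFunc k} (h : IsDer δ) (m : ℕ) (p : k[X]) :
    δ^[m] (ro p) = ro (derivative^[m] p) := by
  induction m generalizing p with
  | zero => rfl
  | succ m ih =>
    rw [Function.iterate_succ_apply, Function.iterate_succ_apply]
    rw [show δ (ro p) = ro (derivative p) from h.poly p]
    exact ih _

theorem iter_const {δ : RatFunc k → RatFunc k} (h : IsDer δ) {c : RatFunc k} (hc : c ≠ 0)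
    (hδ : δ c = 0) (m : ℕ) (g : RatFunc k) : δ^[m] (c⁻¹ * g) = c⁻¹ * δ^[m] g := by
  induction m generalizing g with
  | zero => rfl
  | succ m ih =>
    rw [Function.iterate_succ_apply, Function.iterate_succ_apply, ← ih]
    congr 1
    have h1 := h.dn.mul c (c⁻¹ * g)
    rw [hδ, mul_zero, add_zero, mul_inv_cancel_left₀ hc] at h1
    rw [h1, inv_mul_cancel_left₀ hc]

theorem der7 [CharP k 7] (p : k[X]) : derivative^[7] p = 0 := by
  ext n
  rw [coeff_iterate_derivative, coeff_zero, nsmul_eq_mul]
  have h1 : (7 : ℕ) ∣ (n + 7).descFactorial 7 :=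
    (by decide : (7 : ℕ) ∣ Nat.factorial 7).trans (Nat.factorial_dvd_descFactorial _ _)
  rw [(CharP.cast_eq_zero_iff k 7 _).2 h1, zero_mul]

theorem iter_seven [CharP k 7] {δ : RatFunc k → RatFunc k} (h : IsDer δ) (f : RatFunc k) :
    δ^[7] f = 0 := by
  obtain ⟨A, B, hB, hf⟩ := exists_div f
  have hB' := ro_ne hB
  have hc : ro (B ^ 7) ≠ 0 := ro_ne (pow_ne_zero 7 hB)
  have hδ : δ (ro (B ^ 7)) = 0 := by
    rw [show δ (ro (B ^ 7)) = ro (derivative (B ^ 7)) from h.poly _, derivative_pow]
    have h7 : (C ((7 : ℕ) : k)) = 0 := by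
      rw [(CharP.cast_eq_zero_iff k 7 7).2 dvd_rfl, C_0]
    rw [h7, zero_mul, zero_mul]
    exact map_zero (algebraMap k[X] (RatFunc k))
  have hf' : f = (ro (B ^ 7))⁻¹ * ro (A * B ^ 6) := by
    rw [hf, eq_inv_mul_iff_mul_eq₀ hc]
    unfold ro
    rw [map_mul, map_pow, map_pow, ← mul_div_assoc, div_eq_iff hB']
    unfold ro
    ring
  rw [hf', iter_const h hc hδ, iter_poly h, der7]
  unfold ro
  rw [map_zero, mul_zero]

end

theorem t_DER : S_DER := by
  intro k _
  refine ⟨⟨der, isDer_der⟩, ?_⟩
  intro _ δ hδ f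
  exact iter_seven hδ f

end Pool.Agent.N163.KN.DER
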