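import Pool.Agent.N163.KN.Stm

/-!
# HOM: twisted functoriality of the curves `y² = x³ + e`

Statement: helper163, Lean proof: helper681.
-/

set_option autoImplicit false

namespace Pool.Agent.N163.KN.HOM

open WeierstrassCurve.Affine

variable {K : Type} [Field K] {e e' u : K} {τ : K →+* K}

lemma negY_W (e x y : K) : (W e).negY x y = -y := by simp [negY, W]

lemma ns_map (h2 : (2 : K) ≠ 0) (h3 : (3 : K) ≠ 0) (hu : u ≠ 0) (he : u ^ 6 * τ e = e') {x y : K}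
    (h : (W e).Nonsingular x y) : (W e').Nonsingular (u ^ 2 * τ x) (u ^ 3 * τ y) := by
  rw [nonsingular_iff', equation_iff] at h ⊢
  simp only [W, zero_mul, add_zero, mul_zero, zero_sub, ne_eq, neg_eq_zero, mul_eq_zero,
    pow_eq_zero_iff (two_ne_zero), h2, h3, false_or] at h ⊢
  obtain ⟨hE, hN⟩ := h
  refine ⟨?_, ?_⟩
  · have := congrArg τ hE
    simp only [map_pow, map_add] at this
    rw [← he, mul_pow, this]
    ring
  · rcases hN with hx | hy
    · left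
      rw [not_or]
      exact ⟨hu, fun h => hx (by simpa using h)⟩
    · right
      rw [not_or]
      exact ⟨pow_ne_zero 3 hu, fun h => hy (by simpa using h)⟩

lemma slope_map [DecidableEq K] (hu : u ≠ 0) (x₁ x₂ y₁ y₂ : K) :
    (W e').slope (u ^ 2 * τ x₁) (u ^ 2 * τ x₂) (u ^ 3 * τ y₁) (u ^ 3 * τ y₂) =
      u * τ ((W e).slope x₁ x₂ y₁ y₂) := by
  have hx' : u ^ 2 * τ x₁ = u ^ 2 * τ x₂ ↔ x₁ = x₂ := by
    rw [mul_right_inj' (pow_ne_zero 2 hu), τ.injective.eq_iff]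
  by_cases hx : x₁ = x₂
  · have hy' : u ^ 3 * τ y₁ = (W e').negY (u ^ 2 * τ x₂) (u ^ 3 * τ y₂) ↔
        y₁ = (W e).negY x₂ y₂ := by
      rw [negY_W, negY_W, ← mul_neg, mul_right_inj' (pow_ne_zero 3 hu), ← map_neg,
        τ.injective.eq_iff]
    by_cases hy : y₁ = (W e).negY x₂ y₂
    · rw [slope_of_Y_eq (hx'.2 hx) (hy'.2 hy), slope_of_Y_eq hx hy, map_zero, mul_zero]
    · rw [slope_of_Y_ne (hx'.2 hx) (fun h => hy (hy'.1 h)), slope_of_Y_ne hx hy]
      rw [negY_W, negY_W]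
      simp only [W, zero_mul, add_zero, mul_zero, sub_zero, map_div₀, map_sub, map_mul, map_pow,
        map_neg, map_ofNat]
      have h1 : 3 * (u ^ 2 * τ x₁) ^ 2 = u ^ 3 * (u * (3 * τ x₁ ^ 2)) := by ring
      have h2 : u ^ 3 * τ y₁ - -(u ^ 3 * τ y₁) = u ^ 3 * (τ y₁ - -τ y₁) := by ring
      rw [h1, h2, mul_div_mul_left _ _ (pow_ne_zero 3 hu), mul_div_assoc]
  · rw [slope_of_X_ne (fun h => hx (hx'.1 h)), slope_of_X_ne hx, map_div₀, map_sub, map_sub]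
    have h1 : u ^ 3 * τ y₁ - u ^ 3 * τ y₂ = u ^ 2 * (u * (τ y₁ - τ y₂)) := by ring
    rw [h1, ← mul_sub, mul_div_mul_left _ _ (pow_ne_zero 2 hu), mul_div_assoc]

/-- The map of the points. -/
def phi (h2 : (2 : K) ≠ 0) (h3 : (3 : K) ≠ 0) (hu : u ≠ 0) (he : u ^ 6 * τ e = e') :
    (W e).Point → (W e').Point
  | .zero => .zero
  | .some _ _ h => .some _ _ (ns_map h2 h3 hu he h)

theorem t_HOM : S_HOM := by
  intro K _ _ e e' u τ h2 h3 hu he
  refine ⟨⟨⟨phi h2 h3 hu he, rfl⟩, ?_⟩, ?_⟩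
  · intro P Q
    rcases P with _ | ⟨x₁, y₁, h₁⟩
    · show phi h2 h3 hu he (0 + Q) = 0 + phi h2 h3 hu he Q
      rw [zero_add, zero_add]
    rcases Q with _ | ⟨x₂, y₂, h₂⟩
    · show phi h2 h3 hu he (Point.some x₁ y₁ h₁ + 0) = phi h2 h3 hu he (Point.some x₁ y₁ h₁) + 0
      rw [add_zero, add_zero]
    show phi h2 h3 hu he (Point.some x₁ y₁ h₁ + Point.some x₂ y₂ h₂) =
      Point.some (u ^ 2 * τ x₁) (u ^ 3 * τ y₁) (ns_map h2 h3 hu he h₁) +
        Point.some (u ^ 2 * τ x₂) (u ^ 3 * τ y₂) (ns_map h2 h3 hu he h₂)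
    have hxy' : (u ^ 2 * τ x₁ = u ^ 2 * τ x₂ ∧
        u ^ 3 * τ y₁ = (W e').negY (u ^ 2 * τ x₂) (u ^ 3 * τ y₂)) ↔
        (x₁ = x₂ ∧ y₁ = (W e).negY x₂ y₂) := by
      rw [negY_W, negY_W, ← mul_neg, mul_right_inj' (pow_ne_zero 3 hu), ← map_neg,
        τ.injective.eq_iff, mul_right_inj' (pow_ne_zero 2 hu), τ.injective.eq_iff]
    by_cases hxy : x₁ = x₂ ∧ y₁ = (W e).negY x₂ y₂
    · rw [Point.add_of_Y_eq hxy.1 hxy.2, Point.add_of_Y_eq (hxy'.2 hxy).1 (hxy'.2 hxy).2]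
      rfl
    · rw [Point.add_some hxy, Point.add_some (fun h => hxy (hxy'.1 h))]
      show Point.some _ _ _ = Point.some _ _ _
      rw [Point.some.injEq, slope_map (e := e) hu]
      constructor
      · simp only [addX, W, zero_mul, add_zero, sub_zero, map_sub, map_pow]
        ring
      · simp only [addY, negY, negAddY, addX, W, zero_mul, add_zero, sub_zero, map_sub,
          map_pow, map_neg, map_mul, map_add]
        ring
  · rintro P x y ⟨h, rfl⟩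
    exact ⟨ns_map h2 h3 hu he h, rfl⟩

end Pool.Agent.N163.KN.HOM
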