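import Pool.Agent.N163.KN.Stm

/-!
# Project KN (helper163), part TAU (helper451): the automorphism `t ↦ ζ t` and the extension of the
constants
-/

set_option autoImplicit false

namespace Pool.Agent.N163.KN.TAU

open Polynomial Pool.Agent.N163.KN

/-- extension of an injective homomorphism of polynomial rings -/
theorem ext_hom {k l : Type} [Field k] [Field l] (ρ : k[X] →+* l[X]) (hρ : Function.Injective ρ) :
    ∃ τ : RatFunc k →+* RatFunc l, ∀ p : k[X], τ (algebraMap k[X] (RatFunc k) p) =
      algebraMap l[X] (RatFunc l) (ρ p) := by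
  have hinj : Function.Injective ((algebraMap l[X] (RatFunc l)).comp ρ) := by
    intro p q hpq
    exact hρ (RatFunc.algebraMap_injective l hpq)
  exact ⟨IsFractionRing.lift hinj, fun p => IsFractionRing.lift_algebraMap hinj p⟩

/-- compatibility with derivations -/
theorem comp_der {k l : Type} [Field k] [Field l] (τ : RatFunc k →+* RatFunc l)
    (δ : RatFunc k → RatFunc k) (δ' : RatFunc l → RatFunc l) (hδ : IsDn δ) (hδ' : IsDn δ')
    (c : RatFunc l) (h : ∀ p : k[X], δ' (τ (algebraMap k[X] (RatFunc k) p)) =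
      c * τ (δ (algebraMap k[X] (RatFunc k) p))) (f : RatFunc k) : δ' (τ f) = c * τ (δ f) := by
  obtain ⟨p, q, hq, hf⟩ := IsFractionRing.div_surjective (A := k[X]) f
  have hq0 : algebraMap k[X] (RatFunc k) q ≠ 0 := by
    have := nonZeroDivisors.ne_zero hq
    exact (RatFunc.algebraMap_ne_zero this)
  have h1 : f * algebraMap k[X] (RatFunc k) q = algebraMap k[X] (RatFunc k) p := by
    rw [← hf, div_mul_cancel₀ _ hq0]
  have hp := h p
  have hq1 := h q
  rw [← h1, map_mul, hδ'.mul, hδ.mul, map_add, map_mul, map_mul, hq1] at hp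
  have hτ : τ (algebraMap k[X] (RatFunc k) q) ≠ 0 := (map_ne_zero τ).mpr hq0
  apply mul_left_cancel₀ hτ
  linear_combination hp

theorem t_TAU : S_TAU := by
  refine ⟨?_, ?_⟩
  · intro k _ δ hδ ζ hζ
    have hinj : Function.Injective (Polynomial.compRingHom (C ζ * X : k[X])) := by
      apply Function.LeftInverse.injective (g := fun p : k[X] => p.comp (C ζ⁻¹ * X))
      intro p
      rw [Polynomial.coe_compRingHom_apply]
      beta_reduce
      rw [Polynomial.comp_assoc]
      have h1 : (C ζ * X : k[X]).comp (C ζ⁻¹ * X) = X := by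
        rw [Polynomial.mul_comp, Polynomial.C_comp, Polynomial.X_comp, ← mul_assoc,
          ← Polynomial.C_mul, mul_inv_cancel₀ hζ, Polynomial.C_1, one_mul]
      rw [h1, Polynomial.comp_X]
    obtain ⟨τ, hτ⟩ := ext_hom _ hinj
    refine ⟨τ, fun p => hτ p, fun f => ?_⟩
    apply comp_der τ δ δ hδ.dn hδ.dn (RatFunc.C ζ)
    intro p
    rw [hτ p, hδ.poly, hδ.poly, hτ, Polynomial.coe_compRingHom_apply,
      Polynomial.coe_compRingHom_apply, Polynomial.derivative_comp, map_mul]
    congr 1
    rw [Polynomial.derivative_C_mul, Polynomial.derivative_X, mul_one, RatFunc.algebraMap_C]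
  · intro k l _ _ σ δ δ' hδ hδ'
    have hinj : Function.Injective (Polynomial.mapRingHom σ) := Polynomial.map_injective σ σ.injective
    obtain ⟨τ, hτ⟩ := ext_hom _ hinj
    refine ⟨τ, fun p => hτ p, fun f => ?_⟩
    have h2 := comp_der τ δ δ' hδ.dn hδ'.dn 1 (fun p => by
      rw [hτ p, hδ'.poly, hδ.poly, hτ, one_mul, Polynomial.coe_mapRingHom,
        Polynomial.derivative_map]) f
    rwa [one_mul] at h2

end Pool.Agent.N163.KN.TAU
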