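import Pool.Agent.N163.KN.Stm

/-!
# `MP_3da457_ag`: a height function (helper134)
-/

set_option autoImplicit false

namespace Pool.Agent.N163.KN.HT

open Polynomial Pool.Agent.N163.KN

variable {k : Type} [Field k]

/-- the height of a rational function -/
noncomputable def ht (f : RatFunc k) : ℕ := max f.num.natDegree f.denom.natDegree

theorem ht_div_le (A B : k[X]) (hB : B ≠ 0) :
    ht (algebraMap k[X] (RatFunc k) A / algebraMap k[X] (RatFunc k) B) ≤
      max A.natDegree B.natDegree := by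
  unfold ht
  rcases eq_or_ne A 0 with rfl | hA
  · simp
  · exact max_le_max (natDegree_le_of_dvd (RatFunc.num_div_dvd A hB) hA)
      (natDegree_le_of_dvd (RatFunc.denom_div_dvd A B) hB)

theorem ht_mul_le (f g : RatFunc k) : ht (f * g) ≤ ht f + ht g := by
  have h : f * g = algebraMap k[X] (RatFunc k) (f.num * g.num) /
      algebraMap k[X] (RatFunc k) (f.denom * g.denom) := by
    rw [map_mul, map_mul, mul_div_mul_comm, RatFunc.num_div_denom, RatFunc.num_div_denom]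
  rw [h]
  refine (ht_div_le _ _ (mul_ne_zero f.denom_ne_zero g.denom_ne_zero)).trans ?_
  exact max_le (natDegree_mul_le.trans (add_le_add (le_max_left _ _) (le_max_left _ _)))
    (natDegree_mul_le.trans (add_le_add (le_max_right _ _) (le_max_right _ _)))

theorem le_ht (A B : k[X]) (hB : B ≠ 0) (h : IsCoprime A B) (f : RatFunc k)
    (hf : f = algebraMap k[X] (RatFunc k) A / algebraMap k[X] (RatFunc k) B) :
    max A.natDegree B.natDegree ≤ ht f := by
  have hB' : algebraMap k[X] (RatFunc k) B ≠ 0 := RatFunc.algebraMap_ne_zero hB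
  have hD' : algebraMap k[X] (RatFunc k) f.denom ≠ 0 := RatFunc.algebraMap_ne_zero f.denom_ne_zero
  have h1 : A * f.denom = f.num * B := by
    apply RatFunc.algebraMap_injective k
    rw [map_mul, map_mul]
    have h2 := f.num_div_denom
    rw [div_eq_iff hD'] at h2
    rw [h2]
    have h3 : f * algebraMap k[X] (RatFunc k) B = algebraMap k[X] (RatFunc k) A := by
      rw [hf, div_mul_cancel₀ _ hB']
    rw [← h3]
    ring
  have hA : A ∣ f.num := h.dvd_of_dvd_mul_right (Dvd.intro _ h1)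
  have hBd : B ∣ f.denom := h.symm.dvd_of_dvd_mul_left (by
    rw [h1]; exact Dvd.intro_left _ rfl)
  unfold ht
  refine max_le_max ?_ (natDegree_le_of_dvd hBd f.denom_ne_zero)
  rcases eq_or_ne A 0 with rfl | hA0
  · simp
  · refine natDegree_le_of_dvd hA ?_
    intro h0
    rw [h0, zero_mul] at h1
    exact (mul_ne_zero hA0 f.denom_ne_zero) h1

theorem ht_pow (f : RatFunc k) (n : ℕ) : n * ht f ≤ ht (f ^ n) := by
  have h1 := le_ht (f.num ^ n) (f.denom ^ n) (pow_ne_zero _ f.denom_ne_zero)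
    (f.isCoprime_num_denom.pow) (f ^ n) (by
      rw [map_pow, map_pow, ← div_pow, RatFunc.num_div_denom])
  refine le_trans ?_ h1
  rw [natDegree_pow, natDegree_pow]
  unfold ht
  rcases le_total f.num.natDegree f.denom.natDegree with h | h
  · rw [max_eq_right h]; exact le_max_right _ _
  · rw [max_eq_left h]; exact le_max_left _ _

theorem poly_of_sq (y : RatFunc k) (p : k[X]) (h : y ^ 2 = algebraMap k[X] (RatFunc k) p) :
    ∃ c : k[X], algebraMap k[X] (RatFunc k) c = y ∧ c ^ 2 = p := by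
  have h1 : IsIntegral k[X] y := IsIntegral.of_pow two_pos (by rw [h]; exact isIntegral_algebraMap)
  obtain ⟨c, hc⟩ := (IsIntegrallyClosed.isIntegral_iff (K := RatFunc k)).1 h1
  refine ⟨c, hc, ?_⟩
  apply RatFunc.algebraMap_injective k
  rw [map_pow, hc, h]

/-- a representation of a point -/
theorem rep (α : k[X]) (x y : RatFunc k)
    (h : y ^ 2 = x ^ 3 + algebraMap k[X] (RatFunc k) α ^ 2) :
    ∃ c : k[X], algebraMap k[X] (RatFunc k) c = y * algebraMap k[X] (RatFunc k) x.denom ^ 2 ∧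
      c.natDegree ≤ 2 * ht x + α.natDegree := by
  set b := algebraMap k[X] (RatFunc k) x.denom with hb
  have hD' : b ≠ 0 := RatFunc.algebraMap_ne_zero x.denom_ne_zero
  have hx : algebraMap k[X] (RatFunc k) x.num = x * b := by
    have h2 := x.num_div_denom
    rwa [div_eq_iff hD'] at h2
  obtain ⟨c, hc, hc2⟩ := poly_of_sq (y * b ^ 2) (x.denom * x.num ^ 3 + α ^ 2 * x.denom ^ 4) (by
    rw [map_add, map_mul, map_mul, map_pow, map_pow, map_pow, ← hb, hx, mul_pow, h]
    ring)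
  refine ⟨c, hc, ?_⟩
  have h1 : x.num.natDegree ≤ ht x := le_max_left _ _
  have h2 : x.denom.natDegree ≤ ht x := le_max_right _ _
  have h3 : (c ^ 2).natDegree ≤ 4 * ht x + 2 * α.natDegree := by
    rw [hc2]
    refine natDegree_add_le_of_degree_le ?_ ?_
    · refine (natDegree_mul_le_of_le h2 (natDegree_pow_le_of_le 3 h1)).trans ?_
      omega
    · refine (natDegree_mul_le_of_le (natDegree_pow_le_of_le 2 le_rfl)
        (natDegree_pow_le_of_le 4 h2)).trans ?_
      omega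
  rw [natDegree_pow] at h3
  omega

theorem add_bd (α : k[X]) (x₁ y₁ x₂ y₂ : RatFunc k) (hx : x₁ ≠ x₂)
    (h₁ : y₁ ^ 2 = x₁ ^ 3 + algebraMap k[X] (RatFunc k) α ^ 2)
    (h₂ : y₂ ^ 2 = x₂ ^ 3 + algebraMap k[X] (RatFunc k) α ^ 2) :
    ht (((y₁ - y₂) / (x₁ - x₂)) ^ 2 - x₁ - x₂) ≤ 2 * ht x₁ + 2 * ht x₂ + 2 * α.natDegree := by
  set a := algebraMap k[X] (RatFunc k) α with ha
  obtain ⟨c₁, hc₁, hd₁⟩ := rep α x₁ y₁ h₁
  obtain ⟨c₂, hc₂, hd₂⟩ := rep α x₂ y₂ h₂
  set b₁ := algebraMap k[X] (RatFunc k) x₁.denom with hb₁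
  set b₂ := algebraMap k[X] (RatFunc k) x₂.denom with hb₂
  have hb₁0 : b₁ ≠ 0 := RatFunc.algebraMap_ne_zero x₁.denom_ne_zero
  have hb₂0 : b₂ ≠ 0 := RatFunc.algebraMap_ne_zero x₂.denom_ne_zero
  have hx₁ : algebraMap k[X] (RatFunc k) x₁.num = x₁ * b₁ := by
    have h2 := x₁.num_div_denom
    rwa [div_eq_iff hb₁0] at h2
  have hx₂ : algebraMap k[X] (RatFunc k) x₂.num = x₂ * b₂ := by
    have h2 := x₂.num_div_denom
    rwa [div_eq_iff hb₂0] at h2
  have hx0 : x₁ - x₂ ≠ 0 := sub_ne_zero.2 hx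
  set N : k[X] := x₁.num ^ 2 * (x₂.num * x₂.denom) + x₁.num * (x₁.denom * x₂.num ^ 2) +
    2 * (α ^ 2 * (x₁.denom ^ 2 * x₂.denom ^ 2)) - 2 * (c₁ * c₂) with hN
  set D : k[X] := (x₁.num * x₂.denom - x₂.num * x₁.denom) ^ 2 with hD
  have hDm : algebraMap k[X] (RatFunc k) D = (x₁ - x₂) ^ 2 * (b₁ * b₂) ^ 2 := by
    rw [hD, map_pow, map_sub, map_mul, map_mul, hx₁, hx₂, ← hb₁, ← hb₂]
    ring
  have hNm : algebraMap k[X] (RatFunc k) N =
      (2 * a ^ 2 - 2 * (y₁ * y₂) + x₁ ^ 2 * x₂ + x₁ * x₂ ^ 2) * (b₁ * b₂) ^ 2 := by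
    rw [hN]
    simp only [map_add, map_sub, map_mul, map_pow, map_ofNat, hx₁, hx₂, hc₁, hc₂, ← hb₁, ← hb₂,
      ← ha]
    ring
  have hD0 : D ≠ 0 := by
    intro h0
    rw [h0, map_zero] at hDm
    exact (mul_ne_zero (pow_ne_zero 2 hx0) (pow_ne_zero 2 (mul_ne_zero hb₁0 hb₂0))) hDm.symm
  have key : ((y₁ - y₂) / (x₁ - x₂)) ^ 2 - x₁ - x₂ =
      algebraMap k[X] (RatFunc k) N / algebraMap k[X] (RatFunc k) D := by
    rw [hDm, hNm, mul_div_mul_right _ _ (pow_ne_zero 2 (mul_ne_zero hb₁0 hb₂0)), div_pow,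
      eq_div_iff (pow_ne_zero 2 hx0), sub_mul, sub_mul, div_mul_cancel₀ _ (pow_ne_zero 2 hx0)]
    linear_combination h₁ + h₂
  rw [key]
  refine (ht_div_le N D hD0).trans ?_
  have n₁ : x₁.num.natDegree ≤ ht x₁ := le_max_left _ _
  have e₁ : x₁.denom.natDegree ≤ ht x₁ := le_max_right _ _
  have n₂ : x₂.num.natDegree ≤ ht x₂ := le_max_left _ _
  have e₂ : x₂.denom.natDegree ≤ ht x₂ := le_max_right _ _
  have t2 : (2 : k[X]).natDegree ≤ 0 := by
    rw [show (2 : k[X]) = C 2 from (map_ofNat C 2).symm]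
    exact (natDegree_C _).le
  refine max_le ?_ ?_
  · rw [hN]
    refine (natDegree_sub_le_of_le (m := 2 * ht x₁ + 2 * ht x₂ + 2 * α.natDegree)
      (n := 2 * ht x₁ + 2 * ht x₂ + 2 * α.natDegree)
      (natDegree_add_le_of_degree_le (natDegree_add_le_of_degree_le ?_ ?_) ?_) ?_).trans
      (max_self _).le
    · refine (natDegree_mul_le_of_le (natDegree_pow_le_of_le 2 n₁) (natDegree_mul_le_of_le n₂ e₂)).trans ?_
      omega
    · refine (natDegree_mul_le_of_le n₁ (natDegree_mul_le_of_le e₁ (natDegree_pow_le_of_le 2 n₂))).trans ?_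
      omega
    · refine (natDegree_mul_le_of_le t2 (natDegree_mul_le_of_le (natDegree_pow_le_of_le 2 le_rfl)
        (natDegree_mul_le_of_le (natDegree_pow_le_of_le 2 e₁) (natDegree_pow_le_of_le 2 e₂)))).trans ?_
      omega
    · refine (natDegree_mul_le_of_le t2 (natDegree_mul_le_of_le hd₁ hd₂)).trans ?_
      omega
  · rw [hD]
    refine (natDegree_pow_le_of_le 2 (natDegree_sub_le_of_le (n := ht x₁ + ht x₂)
      (natDegree_mul_le_of_le n₁ e₂) ((natDegree_mul_le_of_le n₂ e₁).trans (by omega)))).trans ?_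
    omega

/-! ### finiteness -/

theorem poly_fin [Finite k] (B : ℕ) : {p : k[X] | p.natDegree ≤ B}.Finite := by
  have h1 : Finite (degreeLT k (B + 1)) := Finite.of_equiv _ (degreeLTEquiv k (B + 1)).toEquiv.symm
  refine (Set.toFinite (degreeLT k (B + 1) : Set k[X])).subset fun p hp => ?_
  show p ∈ degreeLT k (B + 1)
  rw [mem_degreeLT]
  exact lt_of_le_of_lt degree_le_natDegree (by exact_mod_cast Nat.lt_succ_of_le hp)

theorem rat_fin [Finite k] (B : ℕ) : {x : RatFunc k | ht x ≤ B}.Finite := by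
  refine (Set.Finite.image2 (fun p q : k[X] => algebraMap k[X] (RatFunc k) p /
    algebraMap k[X] (RatFunc k) q) (poly_fin (k := k) B) (poly_fin (k := k) B)).subset fun x hx => ?_
  have h1 : x.num.natDegree ≤ B := le_trans (le_max_left _ _) hx
  have h2 : x.denom.natDegree ≤ B := le_trans (le_max_right _ _) hx
  exact ⟨x.num, h1, x.denom, h2, x.num_div_denom⟩

theorem sq_fin {K : Type} [Field K] (c : K) : {y : K | y ^ 2 = c}.Finite := by
  by_cases h : ∃ y₀ : K, y₀ ^ 2 = c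
  · obtain ⟨y₀, h0⟩ := h
    refine (Set.toFinite ({y₀, -y₀} : Set K)).subset fun y hy => ?_
    have h1 : y ^ 2 = y₀ ^ 2 := by rw [h0]; exact hy
    rcases sq_eq_sq_iff_eq_or_eq_neg.1 h1 with h | h
    · exact Or.inl h
    · exact Or.inr h
  · refine Set.finite_empty.subset fun y hy => h ⟨y, hy⟩

/-- the height of a point -/
noncomputable def hh {e : RatFunc k} : (W e).Point → ℕ
  | .zero => 0
  | .some x _ _ => ht x

/-- the coordinates -/
noncomputable def co {e : RatFunc k} : (W e).Point → Option (RatFunc k × RatFunc k)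
  | .zero => none
  | .some x y _ => some (x, y)

theorem co_inj {e : RatFunc k} : Function.Injective (co (e := e)) := by
  intro P Q h
  rcases P with _ | ⟨x, y, hP⟩ <;> rcases Q with _ | ⟨x', y', hQ⟩
  · rfl
  · simp [co] at h
  · simp [co] at h
  · simp only [co, Option.some.injEq, Prod.mk.injEq] at h
    obtain ⟨rfl, rfl⟩ := h
    rfl

theorem eqn {K : Type} [Field K] {e x y : K} (h : (W e).Nonsingular x y) : y ^ 2 = x ^ 3 + e := by
  have h1 := h.1
  rw [WeierstrassCurve.Affine.equation_iff] at h1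
  simp only [W] at h1
  linear_combination h1

theorem fin_pt [Finite k] (e : RatFunc k) (B : ℕ) : {P : (W e).Point | hh P ≤ B}.Finite := by
  have h1 : {q : RatFunc k × RatFunc k | ht q.1 ≤ B ∧ q.2 ^ 2 = q.1 ^ 3 + e}.Finite := by
    refine (Set.Finite.biUnion (rat_fin (k := k) B) (t := fun x =>
      (fun y => (x, y)) '' {y | y ^ 2 = x ^ 3 + e}) fun x _ => (sq_fin _).image _).subset ?_
    rintro ⟨x, y⟩ ⟨h1, h2⟩
    simp only [Set.mem_iUnion]
    exact ⟨x, h1, y, h2, rfl⟩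
  have h2 : (insert none (some '' {q : RatFunc k × RatFunc k | ht q.1 ≤ B ∧
      q.2 ^ 2 = q.1 ^ 3 + e})).Finite := (h1.image _).insert _
  refine Set.Finite.of_finite_image (f := co) (h2.subset ?_) co_inj.injOn
  rintro _ ⟨P, hP, rfl⟩
  rcases P with _ | ⟨x, y, hn⟩
  · exact Or.inl rfl
  · exact Or.inr ⟨(x, y), ⟨hP, eqn hn⟩, rfl⟩

theorem add_le [DecidableEq (RatFunc k)] (α : k[X])
    (P Q : (W (algebraMap k[X] (RatFunc k) α ^ 2)).Point) :
    hh (P + Q) ≤ 2 * hh P + (2 * hh Q + 2 * α.natDegree + hh (Q + Q)) := by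
  rcases P with _ | ⟨x₁, y₁, h₁⟩
  · rw [← WeierstrassCurve.Affine.Point.zero_def, zero_add]
    omega
  rcases Q with _ | ⟨x₂, y₂, h₂⟩
  · rw [← WeierstrassCurve.Affine.Point.zero_def, add_zero]
    omega
  by_cases hx : x₁ = x₂
  · rcases WeierstrassCurve.Affine.Y_eq_of_X_eq h₁.1 h₂.1 hx with hy | hy
    · subst hx; subst hy
      omega
    · rw [WeierstrassCurve.Affine.Point.add_of_Y_eq hx hy]
      exact Nat.zero_le _
  · rw [WeierstrassCurve.Affine.Point.add_of_X_ne hx]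
    have h3 := add_bd α x₁ y₁ x₂ y₂ hx (eqn h₁) (eqn h₂)
    simp only [hh, WeierstrassCurve.Affine.addX, WeierstrassCurve.Affine.slope_of_X_ne hx]
    simp only [W, zero_mul, add_zero, sub_zero]
    omega

theorem t_HT : S_HT := by
  intro k _ _ _ _ n hn h7
  have ha : aa k n = algebraMap k[X] (RatFunc k) (X ^ (6 * n) + 1) := by
    unfold aa
    rw [map_add, map_pow, map_one, RatFunc.algebraMap_X]
  have ha0 : aa k n ≠ 0 := by
    rw [ha]
    refine RatFunc.algebraMap_ne_zero ?_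
    exact (monic_X_pow_add_C (1 : k) (by omega : 6 * n ≠ 0)).ne_zero
  refine ⟨hh, fin_pt _, ?_, ?_⟩
  · rw [ha]
    intro Q
    exact ⟨_, fun P => add_le _ P Q⟩
  · refine ⟨ht (aa k n ^ 4), ?_⟩
    rintro P P' x y ⟨h1, rfl⟩ ⟨h2, rfl⟩
    simp only [hh]
    have h3 : x ^ 7 = (x ^ 7 / aa k n ^ 4) * aa k n ^ 4 := by
      rw [div_mul_cancel₀ _ (pow_ne_zero 4 ha0)]
    calc 7 * ht x ≤ ht (x ^ 7) := ht_pow x 7
      _ = ht ((x ^ 7 / aa k n ^ 4) * aa k n ^ 4) := by rw [← h3]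
      _ ≤ _ := ht_mul_le _ _

end Pool.Agent.N163.KN.HT
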