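import Pool.Agent.N163.KN.Stm

/-!
Project KN, leaf INT (helper221): the logarithmic derivative of a point is a polynomial of degree at
most `4 n - 2`.
-/

set_option autoImplicit false

namespace Pool.Agent.N163.KN.INT

open Polynomial

section

variable {k : Type} [Field k]

/-! ### The operator `X d/dX` -/

noncomputable def D (p : k[X]) : k[X] := X * derivative p

theorem D_coeff (p : k[X]) (m : ℕ) : (D p).coeff m = m * p.coeff m := by
  unfold D
  cases m with
  | zero => rw [coeff_X_mul_zero]; simp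
  | succ m =>
    rw [coeff_X_mul, coeff_derivative]
    push_cast
    ring

theorem D_deg (p : k[X]) : (D p).natDegree ≤ p.natDegree := by
  rw [natDegree_le_iff_coeff_eq_zero]
  intro m hm
  rw [D_coeff, coeff_eq_zero_of_natDegree_lt hm, mul_zero]

theorem deg3 (c : k) (p q r : k[X]) {T : ℕ} (h : p.natDegree + q.natDegree + r.natDegree ≤ T) :
    (C c * (p * (q * r))).natDegree ≤ T := by
  have h1 := natDegree_C_mul_le c (p * (q * r))
  have h2 := natDegree_mul_le (p := p) (q := q * r)
  have h3 := natDegree_mul_le (p := q) (q := r)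
  omega

theorem deg_sub3 {p q r : k[X]} {T : ℕ} (hp : p.natDegree ≤ T) (hq : q.natDegree ≤ T)
    (hr : r.natDegree ≤ T) : (p - q - r).natDegree ≤ T := by
  have h1 := natDegree_sub_le p q
  have h2 := natDegree_sub_le (p - q) r
  omega

theorem coeff3 (c : k) {p q r : k[X]} {P Q R : ℕ} (hp : p.natDegree ≤ P) (hq : q.natDegree ≤ Q)
    (hr : r.natDegree ≤ R) :
    (C c * (p * (q * r))).coeff (P + (Q + R)) = c * (p.coeff P * (q.coeff Q * r.coeff R)) := by
  have h1 := natDegree_mul_le (p := q) (q := r)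
  rw [coeff_C_mul, coeff_mul_add_eq_of_natDegree_le hp (by omega),
    coeff_mul_add_eq_of_natDegree_le hq hr]

/-! ### The degree -/

theorem deg_part {n : ℕ} (hn : 1 ≤ n) {a A B c g : k[X]} (ha : a.natDegree = 6 * n) (hB : B ≠ 0)
    (hc : c ≠ 0) (h : c ^ 2 = A ^ 3 + a ^ 2 * B ^ 6)
    (hg : 3 * a * (derivative A * B - 2 * A * derivative B) - 2 * derivative a * A * B = g * c)
    (hH : A ^ 2 * g = 2 * (B * (a * derivative c - derivative a * c) -
      3 * a * derivative B * c)) : g.natDegree + 2 ≤ 4 * n := by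
  by_cases hg0 : g = 0
  · rw [hg0, natDegree_zero]
    omega
  have ha0 : a ≠ 0 := by
    intro h0
    rw [h0, natDegree_zero] at ha
    omega
  -- first bound
  have i1 : X * (g * c) = C 3 * (a * (D A * B)) - C 6 * (a * (A * D B)) -
      C 2 * (D a * (A * B)) := by
    rw [← hg]
    simp only [map_ofNat, D]
    ring
  have i2 : (X * (g * c)).natDegree = g.natDegree + c.natDegree + 1 := by
    rw [natDegree_X_mul (mul_ne_zero hg0 hc), natDegree_mul hg0 hc]
  have i3 : (X * (g * c)).natDegree ≤ 6 * n + A.natDegree + B.natDegree := by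
    have d1 := D_deg A
    have d2 := D_deg B
    have d3 := D_deg a
    rw [i1]
    exact deg_sub3 (deg3 _ _ _ _ (by omega)) (deg3 _ _ _ _ (by omega)) (deg3 _ _ _ _ (by omega))
  -- the degree of `c`
  have hc2 : (c ^ 2).natDegree = 2 * c.natDegree := natDegree_pow c 2
  have hA3 : (A ^ 3).natDegree = 3 * A.natDegree := natDegree_pow A 3
  have hab : (a ^ 2 * B ^ 6).natDegree = 12 * n + 6 * B.natDegree := by
    rw [natDegree_mul (pow_ne_zero _ ha0) (pow_ne_zero _ hB), natDegree_pow, natDegree_pow, ha]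
    ring
  rcases lt_trichotomy A.natDegree (4 * n + 2 * B.natDegree) with hlt | heq | hgt
  · have := natDegree_add_eq_right_of_natDegree_lt (p := A ^ 3) (q := a ^ 2 * B ^ 6) (by omega)
    rw [← h] at this
    omega
  · -- second bound
    have hA0 : A ≠ 0 := by
      intro h0
      rw [h0, natDegree_zero] at heq
      omega
    have hle : 2 * c.natDegree ≤ 12 * n + 6 * B.natDegree := by
      rw [← hc2, h]
      refine (natDegree_add_le _ _).trans ?_
      rw [hA3, hab]
      exact max_le (by omega) le_rfl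
    have j1 : X * (A ^ 2 * g) = C 2 * (B * (a * D c)) - C 2 * (B * (D a * c)) -
        C 6 * (D B * (a * c)) := by
      rw [hH]
      simp only [map_ofNat, D]
      ring
    have j2 : (X * (A ^ 2 * g)).natDegree = 2 * A.natDegree + g.natDegree + 1 := by
      rw [natDegree_X_mul (mul_ne_zero (pow_ne_zero _ hA0) hg0),
        natDegree_mul (pow_ne_zero _ hA0) hg0, natDegree_pow]
    have d1 := D_deg c
    have d2 := D_deg B
    have d3 := D_deg a
    have j3 : (X * (A ^ 2 * g)).natDegree ≤ B.natDegree + (6 * n + c.natDegree) := by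
      rw [j1]
      exact deg_sub3 (deg3 _ _ _ _ (by omega)) (deg3 _ _ _ _ (by omega))
        (deg3 _ _ _ _ (by omega))
    by_cases hcl : 2 * c.natDegree = 12 * n + 6 * B.natDegree
    · have hcd : c.natDegree = 6 * n + 3 * B.natDegree := by omega
      have j4 : (X * (A ^ 2 * g)).coeff (B.natDegree + (6 * n + c.natDegree)) = 0 := by
        rw [j1, coeff_sub, coeff_sub, coeff3 _ le_rfl ha.le d1,
          coeff3 _ le_rfl (d3.trans ha.le) le_rfl, coeff3 _ d2 ha.le le_rfl, D_coeff, D_coeff,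
          D_coeff]
        rw [hcd]
        push_cast
        ring
      have j5 : (X * (A ^ 2 * g)).natDegree ≠ B.natDegree + (6 * n + c.natDegree) := by
        intro h0
        rw [← h0, coeff_natDegree, leadingCoeff_eq_zero] at j4
        exact mul_ne_zero X_ne_zero (mul_ne_zero (pow_ne_zero _ hA0) hg0) j4
      omega
    · omega
  · have := natDegree_add_eq_left_of_natDegree_lt (p := A ^ 3) (q := a ^ 2 * B ^ 6) (by omega)
    rw [← h] at this
    omega

/-! ### The identity and integrality -/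

theorem ident {a A B c : k[X]} (h : c ^ 2 = A ^ 3 + a ^ 2 * B ^ 6) :
    A ^ 2 * (3 * a * (derivative A * B - 2 * A * derivative B) - 2 * derivative a * A * B) =
      2 * c * (B * (a * derivative c - derivative a * c) - 3 * a * derivative B * c) := by
  have h' : c * c = A * A * A + a * a * (B * B * B * (B * B * B)) := by
    linear_combination h
  have hd := congrArg derivative h'
  simp only [derivative_mul, derivative_add] at hd
  linear_combination (-a * B) * hd + (6 * a * derivative B + 2 * derivative a * B) * h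

theorem dvd_part {a A B c : k[X]} (hs : a.Separable) (hAB : IsCoprime A B) (hc : c ≠ 0)
    (h : c ^ 2 = A ^ 3 + a ^ 2 * B ^ 6) :
    c ∣ 3 * a * (derivative A * B - 2 * A * derivative B) - 2 * derivative a * A * B := by
  obtain ⟨d, u, v, hd, hdA, hdc⟩ : ∃ d u v : k[X], d = u * A + v * c ∧ d ∣ A ∧ d ∣ c := by
    classical
    exact ⟨EuclideanDomain.gcd A c, EuclideanDomain.gcdA A c, EuclideanDomain.gcdB A c, by
      rw [EuclideanDomain.gcd_eq_gcd_ab]; ring, EuclideanDomain.gcd_dvd_left _ _,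
      EuclideanDomain.gcd_dvd_right _ _⟩
  have hid := ident h
  obtain ⟨A₁, hA₁⟩ := hdA
  obtain ⟨c₁, hc₁⟩ := hdc
  have hd0 : d ≠ 0 := by
    intro h0
    rw [h0, zero_mul] at hc₁
    exact hc hc₁
  have h1 : IsCoprime A₁ c₁ := by
    refine ⟨u, v, ?_⟩
    apply mul_left_cancel₀ hd0
    have : d * (u * A₁ + v * c₁) = u * (d * A₁) + v * (d * c₁) := by ring
    rw [this, ← hA₁, ← hc₁, ← hd, mul_one]
  have hdB : IsCoprime d B := by
    rw [hA₁] at hAB
    exact hAB.of_mul_left_left
  have h2 : d ^ 2 ∣ a ^ 2 := by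
    have h3 : d ^ 2 ∣ a ^ 2 * B ^ 6 := by
      refine ⟨c₁ ^ 2 - d * A₁ ^ 3, ?_⟩
      rw [hA₁, hc₁] at h
      linear_combination -h
    exact (hdB.pow).dvd_of_dvd_mul_right h3
  have h3 : d ∣ a := (IsIntegrallyClosed.pow_dvd_pow_iff two_ne_zero).1 h2
  obtain ⟨a₁, ha₁⟩ := h3
  have hda : IsCoprime d a₁ := by
    rw [ha₁] at hs
    exact hs.isCoprime
  have h4 : c₁ ^ 2 = a₁ ^ 2 * B ^ 6 + d * A₁ ^ 3 := by
    apply mul_left_cancel₀ (pow_ne_zero 2 hd0)
    rw [hA₁, hc₁, ha₁] at h
    linear_combination h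
  have h5 : IsCoprime d c₁ := by
    have h6 : IsCoprime d (c₁ ^ 2) := by
      rw [h4]
      exact ((hda.pow_right).mul_right (hdB.pow_right)).add_mul_left_right _
    exact (IsCoprime.pow_right_iff (by norm_num)).1 h6
  have h6 : IsCoprime c₁ (A ^ 2) := by
    rw [hA₁]
    exact (h5.symm.mul_right h1.symm).pow_right
  have h7 : c₁ ∣ 3 * a * (derivative A * B - 2 * A * derivative B) -
      2 * derivative a * A * B := by
    apply h6.dvd_of_dvd_mul_left
    rw [hid, hc₁]
    exact ⟨2 * d * (B * (a * derivative (d * c₁) - derivative a * (d * c₁)) -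
      3 * a * derivative B * (d * c₁)), by ring⟩
  have h8 : d ∣ 3 * a * (derivative A * B - 2 * A * derivative B) -
      2 * derivative a * A * B := by
    apply dvd_sub
    · exact Dvd.dvd.mul_right (Dvd.dvd.mul_left ⟨a₁, ha₁⟩ _) _
    · exact Dvd.dvd.mul_right (Dvd.dvd.mul_left ⟨A₁, hA₁⟩ _) _
  rw [hc₁]
  exact h5.mul_dvd h8 h7

/-! ### Representation of the points -/

theorem repr {a : k[X]} {x y : RatFunc k}
    (h : y ^ 2 = x ^ 3 + (algebraMap k[X] (RatFunc k) a) ^ 2) :
    ∃ A B c : k[X], B ≠ 0 ∧ IsCoprime A B ∧ c ^ 2 = A ^ 3 + a ^ 2 * B ^ 6 ∧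
      x * algebraMap k[X] (RatFunc k) B ^ 2 = algebraMap k[X] (RatFunc k) A ∧
      y * algebraMap k[X] (RatFunc k) B ^ 3 = algebraMap k[X] (RatFunc k) c := by
  have hE0 := RatFunc.denom_ne_zero x
  have hF0 := RatFunc.denom_ne_zero y
  have hE1 := RatFunc.algebraMap_ne_zero hE0
  have hF1 := RatFunc.algebraMap_ne_zero hF0
  have hx := RatFunc.num_div_denom x
  have hy := RatFunc.num_div_denom y
  have hcx := RatFunc.isCoprime_num_denom x
  have hcy := RatFunc.isCoprime_num_denom y
  have hmx := RatFunc.monic_denom x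
  have hmy := RatFunc.monic_denom y
  rw [div_eq_iff hE1] at hx
  rw [div_eq_iff hF1] at hy
  set E := x.denom
  set F := y.denom
  set A := x.num
  set c := y.num
  have h1 : c ^ 2 * E ^ 3 = F ^ 2 * (A ^ 3 + a ^ 2 * E ^ 3) := by
    apply RatFunc.algebraMap_injective k
    simp only [map_mul, map_add, map_pow]
    rw [hx, hy, mul_pow, h]
    ring
  have h2 : F ^ 2 ∣ E ^ 3 := by
    have : IsCoprime (F ^ 2) (c ^ 2) := hcy.symm.pow
    exact this.dvd_of_dvd_mul_left ⟨_, h1⟩
  have h3 : E ^ 3 ∣ F ^ 2 := by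
    have : IsCoprime (E ^ 3) (A ^ 3 + a ^ 2 * E ^ 3) :=
      (IsCoprime.pow hcx.symm).add_mul_right_right _
    exact this.dvd_of_dvd_mul_right ⟨c ^ 2, by rw [← h1]; ring⟩
  have h4 : E ^ 3 = F ^ 2 := eq_of_monic_of_associated (hmx.pow 3) (hmy.pow 2)
    (associated_of_dvd_dvd h3 h2)
  have h5 : E ∣ F := by
    apply (IsIntegrallyClosed.pow_dvd_pow_iff two_ne_zero).1
    exact ⟨E, by rw [← h4]; ring⟩
  obtain ⟨B, hB⟩ := h5
  have h6 : E = B ^ 2 := by
    apply mul_left_cancel₀ (pow_ne_zero 2 hE0)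
    rw [hB] at h4
    linear_combination h4
  have hB0 : B ≠ 0 := by
    intro h0
    rw [h0] at h6
    exact hE0 (by rw [h6]; ring)
  have h7 : F = B ^ 3 := by
    rw [hB, h6]
    ring
  refine ⟨A, B, c, hB0, ?_, ?_, ?_, ?_⟩
  · rw [h6] at hcx
    exact (IsCoprime.pow_right_iff (by norm_num)).1 hcx
  · apply mul_left_cancel₀ (pow_ne_zero 6 hB0)
    rw [h6, h7] at h1
    linear_combination h1
  · rw [← map_pow, ← h6, hx]
  · rw [← map_pow, ← h7, hy]

end

theorem t_INT : S_INT := by
  intro k _ _ δ hδ n hn h7 x y hy h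
  have haa : aa k n = algebraMap k[X] (RatFunc k) (X ^ (6 * n) + 1) := by
    unfold aa
    rw [map_add, map_pow, RatFunc.algebraMap_X, map_one]
  have hsep : (X ^ (6 * n) + 1 : k[X]).Separable := by
    have h1 : (X ^ (6 * n) + 1 : k[X]) = X ^ (6 * n) - C (-1) := by
      rw [map_neg, map_one, sub_neg_eq_add]
    rw [h1]
    apply separable_X_pow_sub_C
    · intro h0
      have := (CharP.cast_eq_zero_iff k 7 (6 * n)).1 h0
      omega
    · exact neg_ne_zero.2 one_ne_zero
  have hdeg : (X ^ (6 * n) + 1 : k[X]).natDegree = 6 * n := by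
    have h1 : (X ^ (6 * n) + 1 : k[X]) = X ^ (6 * n) + C 1 := by rw [map_one]
    rw [h1, natDegree_X_pow_add_C]
  rw [haa] at h ⊢
  set a : k[X] := X ^ (6 * n) + 1
  obtain ⟨A, B, c, hB, hAB, hc, hx1, hy1⟩ := repr h
  have hB1 := RatFunc.algebraMap_ne_zero hB
  have hc0 : c ≠ 0 := by
    intro h0
    rw [h0, map_zero] at hy1
    exact mul_ne_zero hy (pow_ne_zero 3 hB1) hy1
  obtain ⟨g, hg⟩ := dvd_part hsep hAB hc0 hc
  refine ⟨g, ?_, ?_⟩
  · refine deg_part hn hdeg hB hc0 hc (by rw [hg]; ring) ?_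
    have h1 := ident hc
    rw [hg] at h1
    apply mul_left_cancel₀ hc0
    linear_combination h1
  · have hd1 : x * algebraMap k[X] (RatFunc k) (derivative (B * B)) +
        algebraMap k[X] (RatFunc k) (B * B) * δ x = algebraMap k[X] (RatFunc k) (derivative A) := by
      rw [← hδ.poly, ← hδ.poly, ← hx1, ← map_pow, sq, hδ.dn.mul]
    rw [derivative_mul] at hd1
    simp only [map_add, map_mul] at hd1
    have hg' := congrArg (algebraMap k[X] (RatFunc k)) hg
    simp only [map_sub, map_mul, map_ofNat] at hg'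
    unfold dd
    rw [hδ.poly, div_eq_iff hy]
    apply mul_right_cancel₀ (pow_ne_zero 3 hB1)
    rw [mul_assoc _ y, hy1, mul_comm _ (algebraMap k[X] (RatFunc k) c), ← hg', ← hx1]
    rw [← hd1]
    ring

end Pool.Agent.N163.KN.INT
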