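import Mathlib

/-!
# `MP_3da457_ag`: finiteness of the Mordell-Weil groups over fields of characteristic seven, statements

`y² = x³ + (t ^ (6 n) + 1)²` over `k(t)`, `k` a finite field with `7 ^ f` elements, `f` prime to `6`.
-/

set_option autoImplicit false

namespace Pool.Agent.N163.KN

open Polynomial

/-- The curve `y² = x³ + e`. -/
def W {K : Type} [Field K] (e : K) : WeierstrassCurve.Affine K :=
  { a₁ := 0, a₂ := 0, a₃ := 0, a₄ := 0, a₆ := e }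

/-- `P` is the affine point with the coordinates `x`, `y`. -/
def IsPt {K : Type} [Field K] {e : K} (P : (W e).Point) (x y : K) : Prop :=
  ∃ h, P = .some x y h

/-- `t ^ (6 n) + 1` -/
noncomputable def aa (k : Type) [Field k] (n : ℕ) : RatFunc k := RatFunc.X ^ (6 * n) + 1

/-- `δ` is a derivation. -/
structure IsDn {K : Type} [Field K] (δ : K → K) : Prop where
  add : ∀ x y, δ (x + y) = δ x + δ y
  mul : ∀ x y, δ (x * y) = x * δ y + y * δ x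

/-- `δ` is the derivation `d / dt` of `k(t)`. -/
structure IsDer {k : Type} [Field k] (δ : RatFunc k → RatFunc k) : Prop where
  dn : IsDn δ
  poly : ∀ p : k[X],
    δ (algebraMap k[X] (RatFunc k) p) = algebraMap k[X] (RatFunc k) (derivative p)

/-- The logarithmic derivative of the point `(x, y)` of `y² = x³ + a²`. -/
noncomputable def dd {K : Type} [Field K] (δ : K → K) (a x y : K) : K :=
  (3 * a * δ x - 2 * δ a * x) / y

/-- **HOM**: twisted functoriality. -/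
def S_HOM : Prop := ∀ (K : Type) [Field K] [DecidableEq K] (e e' u : K) (τ : K →+* K),
  (2 : K) ≠ 0 → (3 : K) ≠ 0 → u ≠ 0 → u ^ 6 * τ e = e' →
  ∃ φ : (W e).Point →+ (W e').Point, ∀ P x y, IsPt P x y → IsPt (φ P) (u ^ 2 * τ x) (u ^ 3 * τ y)

/-- **OM**: `1 + ω + ω² = 0`. -/
def S_OM : Prop := ∀ (K : Type) [Field K] [DecidableEq K] [CharP K 7] (e : K)
  (φ : (W e).Point →+ (W e).Point), e ≠ 0 → (∀ P x y, IsPt P x y → IsPt (φ P) (4 * x) y) →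
  ∀ P, P + φ P + φ (φ P) = 0

/-- **FR**: the Frobenius endomorphism is `2 ω - 1`. -/
def S_FR : Prop := ∀ (K : Type) [Field K] [DecidableEq K] [CharP K 7] (a : K)
  (φ F : (W (a ^ 2)).Point →+ (W (a ^ 2)).Point), a ≠ 0 →
  (∀ P x y, IsPt P x y → IsPt (φ P) (4 * x) y) →
  (∀ P x y, IsPt P x y → IsPt (F P) (x ^ 7 / a ^ 4) (y ^ 7 / a ^ 6)) →
  ∀ P, F P = φ P + φ P - P

/-- **ADD**: the logarithmic derivative is additive. -/
def S_ADD : Prop := ∀ (K : Type) [Field K] [DecidableEq K] (δ : K → K) (a : K), IsDn δ →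
  (2 : K) ≠ 0 → (3 : K) ≠ 0 → a ≠ 0 → (∀ x : K, x ^ 3 ≠ -a ^ 2) →
  ∃ D : (W (a ^ 2)).Point →+ K, ∀ P x y, IsPt P x y → D P = dd δ a x y

/-- **CAR**: the equation of Cartier. -/
def S_CAR : Prop := ∀ (K : Type) [Field K] [CharP K 7] (δ : K → K) (a x y : K),
  IsDn δ → (∀ f, δ^[7] f = 0) → a ≠ 0 → y ≠ 0 → y ^ 2 = x ^ 3 + a ^ 2 →
  δ^[6] (a ^ 4 * dd δ a x y) = -3 * dd δ a x y ^ 7

/-- **DER**: existence of the derivation; in characteristic seven its seventh power is zero. -/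
def S_DER : Prop := ∀ (k : Type) [Field k],
  (∃ δ : RatFunc k → RatFunc k, IsDer δ) ∧
  (CharP k 7 → ∀ δ : RatFunc k → RatFunc k, IsDer δ → ∀ f, δ^[7] f = 0)

/-- **KER**: the points with logarithmic derivative zero are Frobenius images. -/
def S_KER : Prop := ∀ (k : Type) [Field k] [Finite k] [CharP k 7]
  (δ : RatFunc k → RatFunc k), IsDer δ → ∀ a x y : RatFunc k, a ≠ 0 → y ≠ 0 →
  y ^ 2 = x ^ 3 + a ^ 2 → dd δ a x y = 0 →
  ∃ x₁ y₁ : RatFunc k, y₁ ^ 2 = x₁ ^ 3 + a ^ 2 ∧ x = x₁ ^ 7 / a ^ 4 ∧ y = y₁ ^ 7 / a ^ 6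

/-- **INT**: the logarithmic derivative is a polynomial of degree at most `4 n - 2`. -/
def S_INT : Prop := ∀ (k : Type) [Field k] [CharP k 7]
  (δ : RatFunc k → RatFunc k), IsDer δ → ∀ n : ℕ, 1 ≤ n → ¬ 7 ∣ n →
  ∀ x y : RatFunc k, y ≠ 0 → y ^ 2 = x ^ 3 + aa k n ^ 2 →
  ∃ g : k[X], g.natDegree + 2 ≤ 4 * n ∧ dd δ (aa k n) x y = algebraMap k[X] (RatFunc k) g

/-- **CUBE**: constant multiples of `a²` are not cubes. -/
def S_CUBE : Prop := ∀ (k : Type) [Field k] [CharP k 7] (n : ℕ), 1 ≤ n → ¬ 7 ∣ n →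
  ∀ (c : k) (x : RatFunc k), c ≠ 0 → x ^ 3 ≠ RatFunc.C c * aa k n ^ 2

/-- The relations between the coefficients of a logarithmic derivative. -/
def Rel {k : Type} [Field k] (n : ℕ) (g : k[X]) : Prop :=
  ∀ u v j : ℕ, 1 ≤ u → u < 4 * n → v < 6 * n → 7 * u = v + 6 * n * j →
    3 * g.coeff (u - 1) ^ 7 = (Nat.choose 4 j : k) * g.coeff (v - 1)

/-- **COEF**: the equation of Cartier in coefficients. -/
def S_COEF : Prop := ∀ (k : Type) [Field k] [CharP k 7] (n : ℕ) (g : k[X]), 1 ≤ n → ¬ 7 ∣ n →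
  g.natDegree + 2 ≤ 4 * n → derivative^[6] ((X ^ (6 * n) + 1) ^ 4 * g) = -3 * g ^ 7 → Rel n g

/-- **SEMI**: relations between solutions of a semilinear equation are generated by integral ones. -/
def S_SEMI : Prop := ∀ (k : Type) [Field k] [Finite k] [CharP k 7] (V : Type) [Fintype V]
  (T : (V → k) →ₗ[k] (V → k)) (A : k), A ≠ 0 → ∀ (r : ℕ) (g : Fin r → V → k),
  (∀ i, T (g i) = fun s => A * g i s ^ 7) → ∀ v : Fin r → k, ∑ i, v i • g i = 0 →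
  v ∈ Submodule.span k {w : Fin r → k | ∃ c : Fin r → ℤ, (∀ s, ∑ i, (c i : k) * g i s = 0) ∧
    w = fun i => (c i : k)}

/-- **ALG**: conjugate eigenvalues modulo seven. -/
def S_ALG : Prop := ∀ (N M : ℕ) (G Ω : Matrix (Fin N) (Fin N) ℤ), 0 < M → 3 ∣ M → ¬ 7 ∣ M →
  G * Ω = Ω * G → G ^ M = 1 → Ω ^ 2 + Ω + 1 = 0 →
  ∀ (k : Type) [Field k] [CharP k 7] (ζ : k), IsPrimitiveRoot ζ M → ∀ (u ε : ℕ) (v : Fin N → k),
  v ≠ 0 → (G.map (Int.castRingHom k)).mulVec v = ζ ^ u • v →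
  (Ω.map (Int.castRingHom k)).mulVec v = ζ ^ (M / 3 * ε) • v →
  ∀ t : ℕ, t.Coprime M → t % 3 = 1 → ∃ v' : Fin N → k, v' ≠ 0 ∧
    (G.map (Int.castRingHom k)).mulVec v' = ζ ^ (t * u) • v' ∧
    (Ω.map (Int.castRingHom k)).mulVec v' = ζ ^ (M / 3 * ε) • v'

/-- The exceptional fractions `u / (6 n)`. -/
def Exc (n u : ℕ) : Prop :=
  2 * u = 6 * n ∨ 3 * u = 6 * n ∨ 6 * u = 6 * n ∨ 12 * u = 6 * n ∨ 12 * u = 7 * (6 * n) ∨
    30 * u = 6 * n ∨ 30 * u = 7 * (6 * n) ∨ 30 * u = 13 * (6 * n) ∨ 30 * u = 19 * (6 * n)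

/-- **COMB**: the fractions all of whose conjugates are smaller than `2 / 3`. -/
def S_COMB : Prop := ∀ n u : ℕ, 1 ≤ n → 1 ≤ u → u < 4 * n →
  (∀ t : ℕ, t.Coprime (6 * n) → t % 3 = 1 → (t * u) % (6 * n) < 4 * n) → Exc n u

/-- **LAST**: the coefficients at the exceptional fractions are zero. -/
def S_LAST : Prop := ∀ (k : Type) [Field k] [Finite k] [CharP k 7] (f : ℕ), Nat.card k = 7 ^ f →
  f.Coprime 6 → ∀ (n : ℕ) (g : k[X]), 1 ≤ n → ¬ 7 ∣ n → Rel n g →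
  ∀ u, 1 ≤ u → u < 4 * n → Exc n u → g.coeff (u - 1) = 0

/-- **HT**: a height function. -/
def S_HT : Prop := ∀ (k : Type) [Field k] [Finite k] [CharP k 7] [DecidableEq (RatFunc k)] (n : ℕ),
  1 ≤ n → ¬ 7 ∣ n → ∃ h : (W (aa k n ^ 2)).Point → ℕ,
    (∀ B : ℕ, {P | h P ≤ B}.Finite) ∧ (∀ Q, ∃ C : ℕ, ∀ P, h (P + Q) ≤ 2 * h P + C) ∧
    ∃ C : ℕ, ∀ P P' x y, IsPt P x y → IsPt P' (x ^ 7 / aa k n ^ 4) (y ^ 7 / aa k n ^ 6) →
      7 * h P ≤ h P' + C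

/-- **DESC**: descent. -/
def S_DESC : Prop := ∀ (M : Type) [AddCommGroup M] (F Ω : M →+ M) (h : M → ℕ) (C₀ : ℕ),
  (∀ P, P + Ω P + Ω (Ω P) = 0) → (∀ P, F P = Ω P + Ω P - P) →
  (∀ B : ℕ, {P | h P ≤ B}.Finite) → (∀ Q, ∃ C : ℕ, ∀ P, h (P + Q) ≤ 2 * h P + C) →
  (∀ P, 7 * h P ≤ h (F P) + C₀) → (∃ S : Finset M, ∀ P, ∃ s ∈ S, ∃ Q, P = s + F Q) →
  AddGroup.FG M

/-- **NZ**: a point with nonzero logarithmic derivative. -/
def S_NZ : Prop := ∀ (k : Type) [Field k] [Finite k] [CharP k 7]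
  (δ : RatFunc k → RatFunc k), IsDer δ → ∀ n : ℕ, 1 ≤ n → ¬ 7 ∣ n →
  ∀ x y : RatFunc k, x ≠ 0 → y ^ 2 = x ^ 3 + aa k n ^ 2 →
  ∃ x₁ y₁ : RatFunc k, y₁ ^ 2 = x₁ ^ 3 + aa k n ^ 2 ∧ dd δ (aa k n) x₁ y₁ ≠ 0

/-- **TAU**: the automorphism `t ↦ ζ t` and the extension of the constants. -/
def S_TAU : Prop :=
  (∀ (k : Type) [Field k] (δ : RatFunc k → RatFunc k), IsDer δ → ∀ ζ : k, ζ ≠ 0 →
    ∃ τ : RatFunc k →+* RatFunc k,
      (∀ p : k[X], τ (algebraMap k[X] (RatFunc k) p) =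
        algebraMap k[X] (RatFunc k) (p.comp (C ζ * X))) ∧
      ∀ f, δ (τ f) = RatFunc.C ζ * τ (δ f)) ∧
  ∀ (k l : Type) [Field k] [Field l] (σ : k →+* l) (δ : RatFunc k → RatFunc k)
    (δ' : RatFunc l → RatFunc l), IsDer δ → IsDer δ' →
    ∃ τ : RatFunc k →+* RatFunc l,
      (∀ p : k[X], τ (algebraMap k[X] (RatFunc k) p) = algebraMap l[X] (RatFunc l) (p.map σ)) ∧
      ∀ f, δ' (τ f) = τ (δ f)

/-- **FG**: finite generation of the group of points. -/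
def S_FG : Prop := ∀ (k : Type) [Field k] [Finite k] [CharP k 7] [DecidableEq (RatFunc k)] (n : ℕ),
  1 ≤ n → ¬ 7 ∣ n → AddGroup.FG (W (aa k n ^ 2)).Point

/-- **MAIN**: the conjugates of the exponents of logarithmic derivatives. -/
def S_MAIN : Prop := ∀ (k : Type) [Field k] [Finite k] [CharP k 7] (n : ℕ) (ζ : k),
  1 ≤ n → ¬ 7 ∣ n → IsPrimitiveRoot ζ (6 * n) →
  ∀ (M : Type) [AddCommGroup M], AddGroup.FG M → ∀ (G Ω : M →+ M) (D : M →+ k[X]),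
  (∀ P, G^[6 * n] P = P) → (∀ P, G (Ω P) = Ω (G P)) → (∀ P, P + Ω P + Ω (Ω P) = 0) →
  (∀ Q, Ω Q + Ω Q - Q = 0 → Q = 0) →
  (∀ P i, (D (G P)).coeff i = ζ ^ (i + 1) * (D P).coeff i) → (∀ P, D (Ω P) = 4 * D P) →
  (∀ P, (D P).natDegree + 2 ≤ 4 * n) → (∀ P, D P = 0 → ∃ Q, P = Ω Q + Ω Q - Q) →
  (∀ P, Rel n (D P)) →
  ∀ P u, 1 ≤ u → (D P).coeff (u - 1) ≠ 0 →
  ∀ t : ℕ, t.Coprime (6 * n) → t % 3 = 1 → (t * u) % (6 * n) < 4 * n

/-- **TOP**: all points have `x = 0`. -/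
def S_TOP : Prop := ∀ (k : Type) [Field k] [Finite k] [CharP k 7] (f : ℕ), Nat.card k = 7 ^ f →
  f.Coprime 6 → ∀ n : ℕ, 1 ≤ n → ∀ x y : RatFunc k, y ^ 2 = x ^ 3 + aa k n ^ 2 → x = 0

end Pool.Agent.N163.KN
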