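import Mathlib
import Pool.Agent.N163.KN.Stm

/-!
# Conjugates of the exponents of logarithmic derivatives
-/

set_option autoImplicit false

namespace Pool.Agent.N163.KN.MAIN

open Polynomial Module
open Pool.Agent.N163.KN

section

variable {k : Type} [Field k] {M : Type} [AddCommGroup M] {r : ℕ}

/-- coordinates in `k` -/
noncomputable def rho (k : Type) [Field k] (b : Basis (Fin r) ℤ M) : M →+ (Fin r → k) where
  toFun x := fun i => ((b.repr x i : ℤ) : k)
  map_zero' := by funext i; simp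
  map_add' x y := by funext i; simp

theorem rho_apply (b : Basis (Fin r) ℤ M) (x : M) (i : Fin r) :
    rho k b x i = ((b.repr x i : ℤ) : k) := rfl

/-- the integral matrix -/
noncomputable def mz (b : Basis (Fin r) ℤ M) (f : M →+ M) : Matrix (Fin r) (Fin r) ℤ :=
  LinearMap.toMatrixAlgEquiv b (f.toIntLinearMap : Module.End ℤ M)

theorem mz_apply (b : Basis (Fin r) ℤ M) (f : M →+ M) (i j : Fin r) :
    mz b f i j = b.repr (f (b j)) i := by
  rw [mz, LinearMap.toMatrixAlgEquiv_apply]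
  rfl

/-- the linear extension of the logarithmic derivative -/
noncomputable def Dk (D : M →+ k[X]) (b : Basis (Fin r) ℤ M) : (Fin r → k) →ₗ[k] k[X] where
  toFun v := ∑ i, v i • D (b i)
  map_add' v w := by simp only [Pi.add_apply, add_smul, Finset.sum_add_distrib]
  map_smul' a v := by
    simp only [Pi.smul_apply, smul_eq_mul, mul_smul, Finset.smul_sum, RingHom.id_apply]

theorem Dk_apply (D : M →+ k[X]) (b : Basis (Fin r) ℤ M) (v : Fin r → k) :
    Dk D b v = ∑ i, v i • D (b i) := rfl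

theorem Dk_rho (D : M →+ k[X]) (b : Basis (Fin r) ℤ M) (x : M) : Dk D b (rho k b x) = D x := by
  conv_rhs => rw [← b.sum_repr x]
  rw [map_sum, Dk_apply]
  refine Finset.sum_congr rfl fun i _ => ?_
  rw [rho_apply, map_zsmul, Int.cast_smul_eq_zsmul]

theorem mulVec_rho (b : Basis (Fin r) ℤ M) (f : M →+ M) (x : M) :
    ((mz b f).map (Int.castRingHom k)).mulVec (rho k b x) = rho k b (f x) := by
  funext i
  have h1 : f x = ∑ j, (b.repr x j) • f (b j) := by
    conv_lhs => rw [← b.sum_repr x]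
    rw [map_sum]
    exact Finset.sum_congr rfl fun j _ => map_zsmul f _ _
  rw [h1, map_sum, Finset.sum_apply]
  change ∑ j, ((mz b f).map (Int.castRingHom k)) i j * rho k b x j = _
  refine Finset.sum_congr rfl fun j _ => ?_
  rw [map_zsmul, Pi.smul_apply, zsmul_eq_mul, Matrix.map_apply, mz_apply, rho_apply, rho_apply,
    Int.coe_castRingHom, mul_comm]

theorem Dk_mulVec (D : M →+ k[X]) (b : Basis (Fin r) ℤ M) (f : M →+ M) (v : Fin r → k) :
    Dk D b (((mz b f).map (Int.castRingHom k)).mulVec v) = ∑ j, v j • D (f (b j)) := by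
  have h1 : ∀ j, D (f (b j)) =
      ∑ i, ((mz b f).map (Int.castRingHom k)) i j • D (b i) := by
    intro j
    rw [← Dk_rho D b (f (b j)), Dk_apply]
    refine Finset.sum_congr rfl fun i _ => ?_
    rw [rho_apply, Matrix.map_apply, mz_apply, Int.coe_castRingHom]
  rw [Dk_apply]
  simp only [h1, Finset.smul_sum, Matrix.mulVec, dotProduct, Finset.sum_smul]
  rw [Finset.sum_comm]
  refine Finset.sum_congr rfl fun j _ => Finset.sum_congr rfl fun i _ => ?_
  rw [smul_smul, mul_comm]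

/-- the linear operator for SEMI -/
noncomputable def Top (k : Type) [Field k] (n : ℕ) : (Fin (4 * n) → k) →ₗ[k] (Fin (4 * n) → k) where
  toFun x := fun s => if (s : ℕ) + 1 < 4 * n then
      ((Nat.choose 4 (7 * ((s : ℕ) + 1) / (6 * n)) : ℕ) : k) *
        (if h : 7 * ((s : ℕ) + 1) % (6 * n) - 1 < 4 * n then x ⟨_, h⟩ else 0) else 0
  map_add' x y := by
    funext s
    simp only [Pi.add_apply]
    split_ifs <;> ring
  map_smul' a x := by
    funext s
    simp only [Pi.smul_apply, smul_eq_mul, RingHom.id_apply]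
    split_ifs <;> ring

theorem Top_eq {n : ℕ} (hn : 1 ≤ n) {g : k[X]} (hg : g.natDegree + 2 ≤ 4 * n) (hR : Rel n g) :
    Top k n (fun s => g.coeff s) = fun s : Fin (4 * n) => 3 * g.coeff s ^ 7 := by
  funext s
  change (if (s : ℕ) + 1 < 4 * n then
      ((Nat.choose 4 (7 * ((s : ℕ) + 1) / (6 * n)) : ℕ) : k) *
        (if h : 7 * ((s : ℕ) + 1) % (6 * n) - 1 < 4 * n then
          g.coeff ((⟨7 * ((s : ℕ) + 1) % (6 * n) - 1, h⟩ : Fin (4 * n)) : ℕ) else 0) else 0) = _
  by_cases h1 : (s : ℕ) + 1 < 4 * n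
  · rw [if_pos h1]
    have h2 := hR ((s : ℕ) + 1) (7 * ((s : ℕ) + 1) % (6 * n)) (7 * ((s : ℕ) + 1) / (6 * n))
      (by omega) h1 (Nat.mod_lt _ (by omega)) (Nat.mod_add_div _ _).symm
    rw [Nat.add_sub_cancel] at h2
    rw [h2]
    congr 1
    split_ifs with h3
    · rfl
    · symm
      exact coeff_eq_zero_of_natDegree_lt (by omega)
  · rw [if_neg h1, coeff_eq_zero_of_natDegree_lt (by omega)]
    ring

end

section

variable {k : Type} [Field k] [CharP k 7]

theorem seven_zero : (7 : k) = 0 := by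
  have := CharP.cast_eq_zero k 7
  exact_mod_cast this

theorem nat_ne {m : ℕ} (h : ¬ 7 ∣ m) : (m : k) ≠ 0 := fun h0 => h ((CharP.cast_eq_zero_iff k 7 m).1 h0)

theorem two_ne' : (2 : k) ≠ 0 := by
  have := nat_ne (k := k) (m := 2) (by norm_num)
  exact_mod_cast this

theorem three_ne' : (3 : k) ≠ 0 := by
  have := nat_ne (k := k) (m := 3) (by norm_num)
  exact_mod_cast this

end

theorem claim (hS : S_SEMI) {k : Type} [Field k] [Finite k] [CharP k 7] {n : ℕ} (hn : 1 ≤ n)
    {M : Type} [AddCommGroup M] {r : ℕ} (b : Basis (Fin r) ℤ M) (Ω : M →+ M) (D : M →+ k[X])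
    (hΩ : ∀ P, P + Ω P + Ω (Ω P) = 0)
    (hdeg : ∀ P, (D P).natDegree + 2 ≤ 4 * n) (hker : ∀ P, D P = 0 → ∃ Q, P = Ω Q + Ω Q - Q)
    (hRel : ∀ P, Rel n (D P)) (v : Fin r → k) (h1 : Dk D b v = 0)
    (h2 : ((mz b Ω).map (Int.castRingHom k)).mulVec v = (4 : k) • v) : v = 0 := by
  have h3 := hS k (Fin (4 * n)) (Top k n) 3 three_ne' r (fun i s => (D (b i)).coeff s)
    (fun i => Top_eq hn (hdeg _) (hRel _)) v (by
      funext s
      have h4 := congrArg (fun p : k[X] => p.coeff s) h1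
      simp only [Dk_apply, finsetSum_coeff, coeff_smul, coeff_zero] at h4
      rw [Finset.sum_apply]
      exact h4)
  have key : ∀ w ∈ Submodule.span k {w : Fin r → k | ∃ c : Fin r → ℤ,
      (∀ s : Fin (4 * n), ∑ i, (c i : k) * (D (b i)).coeff s = 0) ∧ w = fun i => (c i : k)},
      ((mz b Ω).map (Int.castRingHom k)).mulVec w = (2 : k) • w := by
    intro w hw
    induction hw using Submodule.span_induction with
    | mem w hw =>
      obtain ⟨c, hc, rfl⟩ := hw
      let z : M := ∑ i, c i • b i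
      have hz : rho k b z = fun i => (c i : k) := by
        funext i
        rw [rho_apply, b.repr_sum_self]
      have hDz : D z = 0 := by
        ext s
        rw [← Dk_rho D b z, hz, Dk_apply]
        simp only [finsetSum_coeff, coeff_smul, coeff_zero, smul_eq_mul]
        by_cases hs : s < 4 * n
        · exact hc ⟨s, hs⟩
        · refine Finset.sum_eq_zero fun i _ => ?_
          rw [coeff_eq_zero_of_natDegree_lt (by have := hdeg (b i); omega), mul_zero]
      obtain ⟨Q, hQ⟩ := hker z hDz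
      rw [← hz, mulVec_rho]
      have h5 : Ω z = z + z - (7 : ℤ) • Ω Q := by
        have h6 := hΩ Q
        have h7 : Ω (Ω Q) = -(Q + Ω Q) := by
          rw [eq_neg_iff_add_eq_zero, add_comm]; exact h6
        rw [hQ, map_sub, map_add, h7]
        module
      have h8 : rho k b ((7 : ℤ) • Ω Q) = 0 := by
        funext i
        rw [map_zsmul, Pi.smul_apply, zsmul_eq_mul]
        push_cast
        rw [seven_zero, zero_mul]
        rfl
      rw [h5, map_sub, map_add, h8, sub_zero, two_smul]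
    | zero => rw [Matrix.mulVec_zero, smul_zero]
    | add x y _ _ hx hy => rw [Matrix.mulVec_add, hx, hy, smul_add]
    | smul a x _ hx => rw [Matrix.mulVec_smul, hx, smul_comm]
  have h4 := key v h3
  rw [h2] at h4
  have h5 : (2 : k) • v = 0 := by
    have h6 : (4 : k) • v - (2 : k) • v = (2 : k) • v := by module
    rw [← h6, h4, sub_self]
  exact (smul_eq_zero.1 h5).resolve_left two_ne'


theorem free_case (hS : S_SEMI) (hA : S_ALG) {k : Type} [Field k] [Finite k] [CharP k 7] {n : ℕ}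
    {ζ : k} (hn : 1 ≤ n) (h7 : ¬ 7 ∣ n) (hζ : IsPrimitiveRoot ζ (6 * n))
    {M : Type} [AddCommGroup M] {r : ℕ} (b : Basis (Fin r) ℤ M) (G Ω : M →+ M) (D : M →+ k[X])
    (hG : ∀ P, G^[6 * n] P = P) (hc : ∀ P, G (Ω P) = Ω (G P))
    (hΩ : ∀ P, P + Ω P + Ω (Ω P) = 0)
    (hDG : ∀ P i, (D (G P)).coeff i = ζ ^ (i + 1) * (D P).coeff i) (hDΩ : ∀ P, D (Ω P) = 4 * D P)
    (hdeg : ∀ P, (D P).natDegree + 2 ≤ 4 * n) (hker : ∀ P, D P = 0 → ∃ Q, P = Ω Q + Ω Q - Q)
    (hRel : ∀ P, Rel n (D P)) (P : M) (u : ℕ) (hu : 1 ≤ u) (hP : (D P).coeff (u - 1) ≠ 0)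
    (t : ℕ) (ht : t.Coprime (6 * n)) (ht3 : t % 3 = 1) : (t * u) % (6 * n) < 4 * n := by
  classical
  -- the integral matrices
  have hcz : mz b G * mz b Ω = mz b Ω * mz b G := by
    rw [mz, mz, ← map_mul, ← map_mul]
    congr 1
    ext x
    exact hc x
  have hGz : mz b G ^ (6 * n) = 1 := by
    rw [mz, ← map_pow, ← map_one (LinearMap.toMatrixAlgEquiv b)]
    congr 1
    ext x
    rw [Module.End.pow_apply]
    exact hG x
  have hΩz : mz b Ω ^ 2 + mz b Ω + 1 = 0 := by
    rw [mz, ← map_pow, ← map_one (LinearMap.toMatrixAlgEquiv b), ← map_add, ← map_add,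
      ← map_zero (LinearMap.toMatrixAlgEquiv b)]
    congr 1
    ext x
    have h1 := hΩ x
    rw [add_comm, ← add_assoc] at h1
    rw [LinearMap.add_apply, LinearMap.add_apply, sq]
    change Ω (Ω x) + Ω x + x = 0
    rw [← hΩ x]
    abel
  set A : Matrix (Fin r) (Fin r) k := (mz b G).map (Int.castRingHom k) with hAdef
  set O : Matrix (Fin r) (Fin r) k := (mz b Ω).map (Int.castRingHom k) with hOdef
  have hck : A * O = O * A := by
    have h1 := congrArg (Int.castRingHom k).mapMatrix hcz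
    rw [map_mul, map_mul] at h1
    exact h1
  have hGk : A ^ (6 * n) = 1 := by
    have h1 := congrArg (Int.castRingHom k).mapMatrix hGz
    rw [map_pow, map_one] at h1
    exact h1
  have hΩk : O ^ 2 + O + 1 = 0 := by
    have h1 := congrArg (Int.castRingHom k).mapMatrix hΩz
    rw [map_add, map_add, map_pow, map_one, map_zero] at h1
    exact h1
  have hDA : ∀ (v : Fin r → k) (s : ℕ), (Dk D b (A.mulVec v)).coeff s =
      ζ ^ (s + 1) * (Dk D b v).coeff s := by
    intro v s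
    rw [hAdef, Dk_mulVec, Dk_apply]
    simp only [finsetSum_coeff, coeff_smul, smul_eq_mul, hDG, Finset.mul_sum]
    exact Finset.sum_congr rfl fun j _ => by ring
  have hDO : ∀ (v : Fin r → k), Dk D b (O.mulVec v) = (4 : k) • Dk D b v := by
    intro v
    rw [hOdef, Dk_mulVec, Dk_apply, Finset.smul_sum]
    refine Finset.sum_congr rfl fun j _ => ?_
    rw [hDΩ, smul_comm]
    congr 1
    rw [smul_eq_C_mul]
    congr 1
  have hDAi : ∀ (v : Fin r → k) (s i : ℕ), (Dk D b ((A ^ i).mulVec v)).coeff s =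
      ζ ^ ((s + 1) * i) * (Dk D b v).coeff s := by
    intro v s i
    induction i with
    | zero => simp
    | succ i ih =>
      rw [pow_succ', ← Matrix.mulVec_mulVec, hDA, ih]
      ring
  have h6n : 0 < 6 * n := by omega
  have hζ0 : ζ ≠ 0 := hζ.ne_zero h6n.ne'
  -- the eigenvector
  set v : Fin r → k := rho k b P with hv
  have hDv : Dk D b v = D P := Dk_rho D b P
  set y : Fin r → k := O.mulVec v - (2 : k) • v with hy
  have hOO : O.mulVec (O.mulVec v) = -O.mulVec v - v := by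
    have h1 : (O ^ 2 + O + 1).mulVec v = 0 := by rw [hΩk, Matrix.zero_mulVec]
    rw [Matrix.add_mulVec, Matrix.add_mulVec, Matrix.one_mulVec, sq, ← Matrix.mulVec_mulVec] at h1
    have h2 : O.mulVec (O.mulVec v) + (O.mulVec v + v) = 0 := by rw [← add_assoc]; exact h1
    rw [eq_neg_of_add_eq_zero_left h2]
    abel
  have hOy : O.mulVec y = (4 : k) • y := by
    have h7v : ∀ w : Fin r → k, (7 : k) • w = 0 := fun w => by rw [seven_zero, zero_smul]
    rw [hy, Matrix.mulVec_sub, hOO, Matrix.mulVec_smul]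
    have e1 : -O.mulVec v - v - (2 : k) • O.mulVec v - (4 : k) • (O.mulVec v - (2 : k) • v) =
        (7 : k) • v - (7 : k) • O.mulVec v := by module
    have e2 : -O.mulVec v - v - (2 : k) • O.mulVec v - (4 : k) • (O.mulVec v - (2 : k) • v) = 0 := by
      rw [e1, h7v, h7v, sub_zero]
    exact sub_eq_zero.1 e2
  have hDy : Dk D b y = (2 : k) • D P := by
    rw [hy, map_sub, map_smul, hDO, hDv]
    module
  let f : ℕ → Fin r → k := fun i => (ζ⁻¹) ^ (u * i) • (A ^ i).mulVec y
  set v0 : Fin r → k := ∑ i ∈ Finset.range (6 * n), f i with hv0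
  have hAv0 : A.mulVec v0 = ζ ^ u • v0 := by
    have h1 : ∀ i, A.mulVec (f i) = ζ ^ u • f (i + 1) := by
      intro i
      simp only [f]
      rw [Matrix.mulVec_smul, Matrix.mulVec_mulVec, ← pow_succ', smul_smul]
      congr 1
      rw [mul_add, mul_one, pow_add, mul_comm (ζ⁻¹ ^ (u * i)), ← mul_assoc, ← mul_pow,
        mul_inv_cancel₀ hζ0, one_pow, one_mul]
    have h2 : f (6 * n) = f 0 := by
      simp only [f]
      rw [hGk, mul_zero, pow_zero, pow_zero, mul_comm, pow_mul, inv_pow, hζ.pow_eq_one, inv_one,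
        one_pow]
    have h3 : ∑ i ∈ Finset.range (6 * n), f (i + 1) = v0 := by
      have h4 := Finset.sum_range_succ f (6 * n)
      have h5 := Finset.sum_range_succ' f (6 * n)
      rw [h4, h2] at h5
      exact (add_right_cancel h5).symm
    rw [hv0, Matrix.mulVec_sum, Finset.sum_congr rfl fun i _ => h1 i, ← Finset.smul_sum, h3]
  have hOv0 : O.mulVec v0 = (4 : k) • v0 := by
    rw [hv0, Matrix.mulVec_sum, Finset.smul_sum]
    refine Finset.sum_congr rfl fun i _ => ?_
    have h1 : O * A ^ i = A ^ i * O := (Commute.pow_right (show Commute O A from hck.symm) i)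
    simp only [f]
    rw [Matrix.mulVec_smul, Matrix.mulVec_mulVec, h1, ← Matrix.mulVec_mulVec, hOy,
      Matrix.mulVec_smul, smul_comm]
  have hv0ne : v0 ≠ 0 := by
    intro h0
    have h1 : (Dk D b v0).coeff (u - 1) = ((6 * n : ℕ) : k) * (2 * (D P).coeff (u - 1)) := by
      rw [hv0, map_sum, finsetSum_coeff]
      have h2 : ∀ i ∈ Finset.range (6 * n), (Dk D b (f i)).coeff (u - 1) =
          2 * (D P).coeff (u - 1) := by
        intro i _
        simp only [f]
        rw [map_smul, coeff_smul, smul_eq_mul, hDAi, hDy, coeff_smul, smul_eq_mul,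
          Nat.sub_add_cancel hu, ← mul_assoc, ← mul_pow, inv_mul_cancel₀ hζ0, one_pow, one_mul]
      rw [Finset.sum_congr rfl h2, Finset.sum_const, Finset.card_range, nsmul_eq_mul]
    rw [h0, map_zero, coeff_zero] at h1
    have h2 : ((6 * n : ℕ) : k) ≠ 0 := nat_ne (by omega)
    exact (mul_ne_zero h2 (mul_ne_zero two_ne' hP)) h1.symm
  -- four is a power of the root of unity
  obtain ⟨ε, -, hε⟩ : ∃ ε < 3, (ζ ^ (2 * n)) ^ ε = (4 : k) := by
    have h1 : IsPrimitiveRoot (ζ ^ (2 * n)) 3 := hζ.pow h6n (by ring)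
    refine h1.eq_pow_of_pow_eq_one ?_
    have h2 : (4 : k) ^ 3 = 1 + 9 * 7 := by norm_num
    rw [h2, seven_zero, mul_zero, add_zero]
  have hε' : ζ ^ (6 * n / 3 * ε) = 4 := by
    have h1 : 6 * n / 3 = 2 * n := by omega
    rw [h1, pow_mul]
    exact hε
  obtain ⟨v', hv', hAv', hOv'⟩ := hA r (6 * n) (mz b G) (mz b Ω) h6n ⟨2 * n, by ring⟩
    (by omega) hcz hGz hΩz k ζ hζ u ε v0 hv0ne hAv0 (by rw [hε']; exact hOv0) t ht ht3
  rw [hε'] at hOv'
  have hDv' : Dk D b v' ≠ 0 := fun h0 => hv' (claim hS hn b Ω D hΩ hdeg hker hRel v' h0 hOv')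
  obtain ⟨i, hi⟩ : ∃ i, (Dk D b v').coeff i ≠ 0 := by
    by_contra h0
    push Not at h0
    exact hDv' (Polynomial.ext h0)
  have hi4 : i + 2 ≤ 4 * n := by
    by_contra h0
    apply hi
    rw [Dk_apply, finsetSum_coeff]
    refine Finset.sum_eq_zero fun j _ => ?_
    rw [coeff_smul, coeff_eq_zero_of_natDegree_lt (by have := hdeg (b j); omega), smul_zero]
  have h1 := hDA v' i
  rw [hAv', map_smul, coeff_smul, smul_eq_mul] at h1
  have h2 : ζ ^ (t * u) = ζ ^ (i + 1) := mul_right_cancel₀ hi h1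
  have h3 : ζ ^ (t * u) = ζ ^ ((t * u) % (6 * n)) := by
    conv_lhs => rw [← Nat.div_add_mod (t * u) (6 * n)]
    rw [pow_add, pow_mul, hζ.pow_eq_one, one_pow, one_mul]
  have h4 := hζ.pow_inj (Nat.mod_lt _ h6n) (by omega : i + 1 < 6 * n) (h3.symm.trans h2)
  omega

theorem t_MAIN (hS : S_SEMI) (hA : S_ALG) : S_MAIN := by
  classical
  intro k _ _ _ n ζ hn h7 hζ M _ hfg G Ω D hG hc hΩ hinj hDG hDΩ hdeg hker hRel P u hu hP t ht ht3
  have hΩΩ : ∀ Q, Ω (Ω Q) = -(Q + Ω Q) := by
    intro Q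
    rw [eq_neg_iff_add_eq_zero, add_comm]
    exact hΩ Q
  -- the logarithmic derivative vanishes at the torsion points
  have htor : ∀ m : ℕ, 0 < m → ∀ x : M, (m : ℤ) • x = 0 → D x = 0 := by
    intro m
    induction m using Nat.strong_induction_on with
    | _ m ih =>
      intro hm x hx
      by_cases h7m : 7 ∣ m
      · obtain ⟨m', rfl⟩ := h7m
        have hm' : 0 < m' := by omega
        have h1 : Ω ((m' : ℤ) • (-((3 : ℤ) • x) - (2 : ℤ) • Ω x)) +
            Ω ((m' : ℤ) • (-((3 : ℤ) • x) - (2 : ℤ) • Ω x)) -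
            (m' : ℤ) • (-((3 : ℤ) • x) - (2 : ℤ) • Ω x) = ((7 * m' : ℕ) : ℤ) • x := by
          rw [map_zsmul, map_sub, map_neg, map_zsmul, map_zsmul, hΩΩ]
          push_cast
          module
        have h2 := hinj _ (h1.trans hx)
        have h3 := ih m' (by omega) hm' _ h2
        rw [map_sub, map_neg, map_zsmul, map_zsmul, hDΩ] at h3
        have h4 : (11 : ℕ) • D x = -(-((3 : ℤ) • D x) - (2 : ℤ) • (4 * D x)) := by
          simp only [zsmul_eq_mul, nsmul_eq_mul]
          push_cast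
          ring
        rw [h3, neg_zero, ← Nat.cast_smul_eq_nsmul k] at h4
        exact (smul_eq_zero.1 h4).resolve_left (nat_ne (by norm_num))
      · have h1 : D ((m : ℤ) • x) = (m : k) • D x := by
          rw [map_zsmul, natCast_zsmul, Nat.cast_smul_eq_nsmul]
        rw [hx, map_zero] at h1
        exact (smul_eq_zero.1 h1.symm).resolve_left (nat_ne h7m)
  have : Module.Finite ℤ M := Module.Finite.iff_addGroup_fg.2 hfg
  let T : Submodule ℤ M := Submodule.torsion ℤ M
  have hT : ∀ x, x ∈ T ↔ ∃ m : ℕ, 0 < m ∧ (m : ℤ) • x = 0 := by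
    intro x
    rw [Submodule.mem_torsion_iff]
    constructor
    · rintro ⟨a, ha⟩
      have ha0 : (a : ℤ) ≠ 0 := nonZeroDivisors.coe_ne_zero a
      refine ⟨(a : ℤ).natAbs, Int.natAbs_pos.2 ha0, ?_⟩
      have ha' : (a : ℤ) • x = 0 := ha
      rcases Int.natAbs_eq (a : ℤ) with h | h
      · rw [← h]; exact ha'
      · rw [h, neg_smul, neg_eq_zero] at ha'
        exact ha'
    · rintro ⟨m, hm, hx⟩
      exact ⟨⟨(m : ℤ), mem_nonZeroDivisors_of_ne_zero (by exact_mod_cast hm.ne')⟩, hx⟩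
  have hf : ∀ f : M →+ M, T ≤ T.comap (f.toIntLinearMap) := by
    intro f x hx
    obtain ⟨m, hm, h1⟩ := (hT x).1 hx
    refine (hT _).2 ⟨m, hm, ?_⟩
    change (m : ℤ) • f x = 0
    rw [← map_zsmul, h1, map_zero]
  have hDT : T ≤ LinearMap.ker (D.toIntLinearMap) := by
    intro x hx
    obtain ⟨m, hm, h1⟩ := (hT x).1 hx
    exact htor m hm x h1
  let G' : (M ⧸ T) →+ (M ⧸ T) := (T.mapQ T G.toIntLinearMap (hf G)).toAddMonoidHom
  let Ω' : (M ⧸ T) →+ (M ⧸ T) := (T.mapQ T Ω.toIntLinearMap (hf Ω)).toAddMonoidHom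
  let D' : (M ⧸ T) →+ k[X] := (T.liftQ D.toIntLinearMap hDT).toAddMonoidHom
  have eG : ∀ x, G' (T.mkQ x) = T.mkQ (G x) := fun x => rfl
  have eΩ : ∀ x, Ω' (T.mkQ x) = T.mkQ (Ω x) := fun x => rfl
  have eD : ∀ x, D' (T.mkQ x) = D x := fun x => rfl
  have eGi : ∀ (i : ℕ) (x : M), G'^[i] (T.mkQ x) = T.mkQ (G^[i] x) := by
    intro i
    induction i with
    | zero => intro x; rfl
    | succ i ih => intro x; rw [Function.iterate_succ_apply, Function.iterate_succ_apply, eG, ih]
  have hsur := T.mkQ_surjective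
  refine free_case hS hA hn h7 hζ (Module.finBasis ℤ (M ⧸ T)) G' Ω' D' ?_ ?_ ?_ ?_ ?_ ?_ ?_ ?_
    (T.mkQ P) u hu (by rw [eD]; exact hP) t ht ht3
  · intro z
    obtain ⟨x, rfl⟩ := hsur z
    rw [eGi, hG]
  · intro z
    obtain ⟨x, rfl⟩ := hsur z
    rw [eΩ, eG, eG, eΩ, hc]
  · intro z
    obtain ⟨x, rfl⟩ := hsur z
    rw [eΩ, eΩ, ← map_add, ← map_add, hΩ, map_zero]
  · intro z i
    obtain ⟨x, rfl⟩ := hsur z
    rw [eG, eD, eD, hDG]
  · intro z
    obtain ⟨x, rfl⟩ := hsur z
    rw [eΩ, eD, eD, hDΩ]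
  · intro z
    obtain ⟨x, rfl⟩ := hsur z
    rw [eD]
    exact hdeg x
  · intro z hz
    obtain ⟨x, rfl⟩ := hsur z
    rw [eD] at hz
    obtain ⟨Q, hQ⟩ := hker x hz
    refine ⟨T.mkQ Q, ?_⟩
    rw [eΩ, ← map_add, ← map_sub, ← hQ]
  · intro z
    obtain ⟨x, rfl⟩ := hsur z
    rw [eD]
    exact hRel x

end Pool.Agent.N163.KN.MAIN
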