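import Mathlib
import Pool.Agent.N163.KN.Stm

/-!
# KN/FG: finite generation of the group of points
-/

set_option autoImplicit false

namespace Pool.Agent.N163.KN.FG

open Polynomial
open Pool.Agent.N163.KN

theorem eqn {K : Type} [Field K] {e x y : K} (h : (W e).Nonsingular x y) : y ^ 2 = x ^ 3 + e := by
  have h1 := ((W e).equation_iff x y).1 h.1
  simpa [W] using h1

theorem nons {K : Type} [Field K] {e x y : K} (h2 : (2 : K) ≠ 0) (h3 : (3 : K) ≠ 0) (he : e ≠ 0)
    (h : y ^ 2 = x ^ 3 + e) : (W e).Nonsingular x y := by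
  rw [WeierstrassCurve.Affine.nonsingular_iff, WeierstrassCurve.Affine.equation_iff]
  refine ⟨by simpa [W] using h, ?_⟩
  by_cases hy : y = 0
  · left
    have hx : x ≠ 0 := by
      rintro rfl
      apply he
      rw [hy] at h
      simpa using h.symm
    have : (3 : K) * x ^ 2 ≠ 0 := mul_ne_zero h3 (pow_ne_zero _ hx)
    simpa [W] using this.symm
  · right
    intro h4
    have h5 : y = -y := by simpa [W] using h4
    have h6 : (2 : K) * y = 0 := by linear_combination h5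
    exact (mul_ne_zero h2 hy) h6

theorem isPt_eq {K : Type} [Field K] {e : K} {P Q : (W e).Point} {x y : K} (hP : IsPt P x y)
    (hQ : IsPt Q x y) : P = Q := by
  obtain ⟨h1, rfl⟩ := hP
  obtain ⟨h2, rfl⟩ := hQ
  rfl

theorem fin_poly (k : Type) [Field k] [Finite k] (N : ℕ) : {g : k[X] | g.natDegree < N}.Finite := by
  have h : {g : k[X] | g.natDegree < N} ⊆ (fun g : Fin N → k => ∑ i : Fin N, C (g i) * X ^ (i : ℕ)) ''
      Set.univ := by
    intro g hg
    refine ⟨fun i => g.coeff i, trivial, ?_⟩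
    show (∑ i : Fin N, C (g.coeff i) * X ^ (i : ℕ)) = g
    rw [Fin.sum_univ_eq_sum_range (fun i => C (g.coeff i) * X ^ i) N]
    exact (g.as_sum_range_C_mul_X_pow' hg).symm
  exact (Set.finite_univ.image _).subset h

theorem t_FG (h1 : S_HT) (h2 : S_HOM) (h3 : S_OM) (h4 : S_FR) (h5 : S_ADD) (h6 : S_INT)
    (h7 : S_KER) (h8 : S_CUBE) (h9 : S_DER) (h10 : S_DESC) : S_FG := by
  intro k _ _ _ _ n hn hn7
  haveI hch : CharP (RatFunc k) 7 :=
    charP_of_injective_algebraMap (algebraMap k (RatFunc k)).injective 7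
  haveI : Fact (Nat.Prime 7) := ⟨by norm_num⟩
  have c2 : (2 : RatFunc k) ≠ 0 := by
    intro h
    have := (CharP.cast_eq_zero_iff (RatFunc k) 7 2).1 (by exact_mod_cast h)
    omega
  have c3 : (3 : RatFunc k) ≠ 0 := by
    intro h
    have := (CharP.cast_eq_zero_iff (RatFunc k) 7 3).1 (by exact_mod_cast h)
    omega
  have c7 : (7 : RatFunc k) = 0 := by
    have := (CharP.cast_eq_zero_iff (RatFunc k) 7 7).2 (dvd_refl 7)
    exact_mod_cast this
  set a : RatFunc k := aa k n with ha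
  have a0 : a ≠ 0 := by
    intro h
    exact h8 k n hn hn7 1 0 one_ne_zero (by rw [← ha, h]; simp)
  have a20 : a ^ 2 ≠ 0 := pow_ne_zero _ a0
  have hcube : ∀ x : RatFunc k, x ^ 3 ≠ -a ^ 2 := by
    intro x hx
    apply h8 k n hn hn7 (-1) x (neg_ne_zero.2 one_ne_zero)
    rw [← ha, hx]
    simp
  obtain ⟨F, hF⟩ := h2 (RatFunc k) (a ^ 2) (a ^ 2) (a ^ 2)⁻¹ (frobenius (RatFunc k) 7) c2 c3
    (inv_ne_zero a20) (by
      rw [frobenius_def]
      field_simp)
  have hF' : ∀ P x y, IsPt P x y → IsPt (F P) (x ^ 7 / a ^ 4) (y ^ 7 / a ^ 6) := by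
    intro P x y hP
    have := hF P x y hP
    rw [frobenius_def, frobenius_def] at this
    have e1 : (a ^ 2)⁻¹ ^ 2 * x ^ 7 = x ^ 7 / a ^ 4 := by
      field_simp
    have e2 : (a ^ 2)⁻¹ ^ 3 * y ^ 7 = y ^ 7 / a ^ 6 := by
      field_simp
    rwa [e1, e2] at this
  obtain ⟨Om, hO⟩ := h2 (RatFunc k) (a ^ 2) (a ^ 2) 2 (RingHom.id _) c2 c3 c2 (by
      rw [RingHom.id_apply]
      linear_combination (9 * a ^ 2) * c7)
  have hO' : ∀ P x y, IsPt P x y → IsPt (Om P) (4 * x) y := by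
    intro P x y hP
    have := hO P x y hP
    rw [RingHom.id_apply, RingHom.id_apply] at this
    have e1 : (2 : RatFunc k) ^ 2 * x = 4 * x := by ring
    have e2 : (2 : RatFunc k) ^ 3 * y = y := by linear_combination y * c7
    rwa [e1, e2] at this
  have om := h3 (RatFunc k) (a ^ 2) Om a20 hO'
  have fr := h4 (RatFunc k) a Om F a0 hO' hF'
  obtain ⟨δ, hδ⟩ := (h9 k).1
  obtain ⟨D, hD⟩ := h5 (RatFunc k) δ a hδ.dn c2 c3 a0 hcube
  have hy0 : ∀ x y : RatFunc k, y ^ 2 = x ^ 3 + a ^ 2 → y ≠ 0 := by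
    rintro x y he rfl
    apply hcube x
    linear_combination -he
  -- the values
  have hfin : (Set.range D).Finite := by
    refine (((fin_poly k (4 * n)).image (algebraMap k[X] (RatFunc k))).insert 0).subset ?_
    rintro _ ⟨P, rfl⟩
    match P with
    | .zero =>
      left
      exact map_zero D
    | .some x y h =>
      right
      obtain ⟨g, hg1, hg2⟩ := h6 k δ hδ n hn hn7 x y (hy0 x y (eqn h)) (eqn h)
      refine ⟨g, ?_, ?_⟩
      · show g.natDegree < 4 * n
        omega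
      · rw [hD _ x y ⟨h, rfl⟩]
        exact hg2.symm
  -- the kernel
  have hker : ∀ P, D P = 0 → ∃ Q, P = F Q := by
    intro P hP
    match P, hP with
    | .zero, _ => exact ⟨0, (map_zero F).symm⟩
    | .some x y h, hP =>
      have hxy := eqn h
      rw [hD _ x y ⟨h, rfl⟩] at hP
      obtain ⟨x1, y1, q1, q2, q3⟩ := h7 k δ hδ a x y a0 (hy0 x y hxy) hxy hP
      have hns := nons c2 c3 a20 q1
      refine ⟨.some x1 y1 hns, ?_⟩
      have := hF' (.some x1 y1 hns) x1 y1 ⟨hns, rfl⟩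
      rw [← q2, ← q3] at this
      exact isPt_eq ⟨h, rfl⟩ this
  -- representatives
  choose! rep hrep using (fun (r : RatFunc k) (hr : r ∈ Set.range D) => hr)
  have hS : ∃ S : Finset (W (a ^ 2)).Point, ∀ P, ∃ s ∈ S, ∃ Q, P = s + F Q := by
    classical
    refine ⟨(hfin.image rep).toFinset, fun P => ⟨rep (D P), ?_, ?_⟩⟩
    · rw [Set.Finite.mem_toFinset]
      exact ⟨D P, ⟨P, rfl⟩, rfl⟩
    · have e1 : D (rep (D P)) = D P := hrep (D P) ⟨P, rfl⟩
      obtain ⟨Q, hQ⟩ := hker (P - rep (D P)) (by rw [map_sub, e1, sub_self])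
      exact ⟨Q, by rw [← hQ]; abel⟩
  -- the height
  obtain ⟨h, H1, H2, C, H3⟩ := h1 k n hn hn7
  refine h10 (W (a ^ 2)).Point F Om h (C + 7 * h 0) om fr H1 H2 ?_ hS
  intro P
  match P with
  | .zero =>
    have e0 : F (.zero : (W (a ^ 2)).Point) = 0 := map_zero F
    rw [e0]
    show 7 * h 0 ≤ _
    omega
  | .some x y hh =>
    have := H3 (.some x y hh) (F (.some x y hh)) x y ⟨hh, rfl⟩ (hF' _ x y ⟨hh, rfl⟩)
    omega

end Pool.Agent.N163.KN.FG
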