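import Pool.Agent.N163.KN.Stm

/-!
# Leaf FR: Frobenius is `2 ω - 1` on `y² = x³ + a²` in characteristic seven (helper364)
-/

set_option autoImplicit false

namespace Pool.Agent.N163.KN.FR

open WeierstrassCurve.Affine

variable {K : Type} [Field K] [DecidableEq K] {e : K}

theorem isPt_eq {P Q : (W e).Point} {x y x' y' : K} (hP : IsPt P x y) (hQ : IsPt Q x' y')
    (hx : x = x') (hy : y = y') : P = Q := by
  obtain ⟨h, rfl⟩ := hP
  obtain ⟨h', rfl⟩ := hQ
  subst hx hy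
  rfl

theorem isPt_of_eq {P : (W e).Point} {x y x' y' : K} (hP : IsPt P x y)
    (hx : x = x') (hy : y = y') : IsPt P x' y' := by
  subst hx hy
  exact hP

theorem curve {P : (W e).Point} {x y : K} (hP : IsPt P x y) : y ^ 2 = x ^ 3 + e := by
  obtain ⟨h, -⟩ := hP
  have h1 := h.1
  rw [equation_iff] at h1
  simpa [W] using h1

theorem neg_pt {P : (W e).Point} {x y : K} (hP : IsPt P x y) : IsPt (-P) x (-y) := by
  obtain ⟨h, rfl⟩ := hP
  have h1 : (W e).negY x y = -y := by simp [negY, W]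
  exact isPt_of_eq ⟨_, Point.neg_some h⟩ rfl h1

theorem add_pt {P Q : (W e).Point} {x₁ y₁ x₂ y₂ : K} (hP : IsPt P x₁ y₁) (hQ : IsPt Q x₂ y₂)
    (hx : x₁ ≠ x₂) (μ X Y : K) (hμ : μ = (y₁ - y₂) / (x₁ - x₂)) (hX : X = μ ^ 2 - x₁ - x₂)
    (hY : Y = -(μ * (X - x₁) + y₁)) : IsPt (P + Q) X Y := by
  obtain ⟨h, rfl⟩ := hP
  obtain ⟨h', rfl⟩ := hQ
  refine isPt_of_eq ⟨_, Point.add_of_X_ne hx⟩ ?_ ?_
  · rw [slope_of_X_ne hx, hX, hμ]
    simp [addX, W]
  · rw [slope_of_X_ne hx, hY, hX, hμ]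
    simp [addY, negAddY, negY, addX, W]

theorem dbl_pt {P : (W e).Point} {x y : K} (hP : IsPt P x y) (h2 : (2 : K) ≠ 0)
    (hy : y ≠ 0) (μ X Y : K) (hμ : μ = 3 * x ^ 2 / (2 * y)) (hX : X = μ ^ 2 - x - x)
    (hY : Y = -(μ * (X - x) + y)) : IsPt (P + P) X Y := by
  obtain ⟨h, rfl⟩ := hP
  have h1 : (W e).negY x y = -y := by simp [negY, W]
  have hne : y ≠ (W e).negY x y := by
    rw [h1]
    intro h3
    apply hy
    have h4 : (2 : K) * y = 0 := by linear_combination h3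
    exact (mul_eq_zero.1 h4).resolve_left h2
  have hs : (W e).slope x x y y = μ := by
    rw [slope_of_Y_ne rfl hne, hμ, h1]
    simp [W]
    ring
  refine isPt_of_eq ⟨_, Point.add_self_of_Y_ne hne⟩ ?_ ?_
  · rw [hs, hX]
    simp [addX, W]
  · rw [hs, hY, hX]
    simp [addY, negAddY, negY, addX, W]

theorem dbl_zero {P : (W e).Point} {x : K} (hP : IsPt P x 0) : P + P = 0 := by
  obtain ⟨h, rfl⟩ := hP
  refine Point.add_self_of_Y_eq ?_
  simp [negY, W]

end Pool.Agent.N163.KN.FR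

namespace Pool.Agent.N163.KN.FR

/-- leaf FR -/
theorem t_FR : S_FR := by
  intro K _ _ _ a φ F ha hφ hF P
  have h7 : (7 : K) = 0 := by exact_mod_cast CharP.cast_eq_zero K 7
  have h2 : (2 : K) ≠ 0 := by
    intro h
    have : (1 : K) = 0 := by linear_combination h7 - 3 * h
    exact one_ne_zero this
  rcases P with _ | ⟨x, y, h⟩
  · have h0 : (WeierstrassCurve.Affine.Point.zero : (W (a ^ 2)).Point) = 0 := rfl
    rw [h0, map_zero, map_zero]
    simp
  set P : (W (a ^ 2)).Point := .some x y h with hPd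
  have hP : IsPt P x y := ⟨h, rfl⟩
  have hc : y ^ 2 = x ^ 3 + a ^ 2 := curve hP
  have hQ := hφ P x y hP
  have hFP := hF P x y hP
  by_cases hy : y = 0
  · subst hy
    have h1 : φ P + φ P = 0 := dbl_zero hQ
    rw [h1, zero_sub]
    have hN := neg_pt hP
    refine isPt_eq hFP hN ?_ ?_
    · field_simp
      linear_combination (x ^ 4 - x * a ^ 2) * (-hc)
    · simp
  by_cases hx : x = 0
  · subst hx
    have hc' : y ^ 2 = a ^ 2 := by linear_combination hc
    have h1 : F P = P := by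
      refine isPt_eq hFP hP ?_ ?_
      · simp
      · field_simp
        linear_combination (y ^ 4 + y ^ 2 * a ^ 2 + a ^ 4) * hc'
    have h3 : φ P = P := isPt_eq hQ hP (by ring) rfl
    rw [h1, h3]
    abel
  have hA : a ^ 2 = y ^ 2 - x ^ 3 := by linear_combination -hc
  have hA0 : y ^ 2 - x ^ 3 ≠ 0 := by rw [← hA]; exact pow_ne_zero 2 ha
  have hD := dbl_pt hQ h2 hy (3 * x ^ 2 / y) (x * (2 * x ^ 3 - y ^ 2) / y ^ 2)
    ((x ^ 6 + x ^ 3 * y ^ 2 - y ^ 4) / y ^ 3) (by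
      field_simp
      linear_combination (-6) * h7) (by
      field_simp
      linear_combination (-x ^ 3 + y ^ 2) * h7) (by
      field_simp
      linear_combination (x ^ 6 - 2 * x ^ 3 * y ^ 2) * h7)
  have hN := neg_pt hP
  have hne : x * (2 * x ^ 3 - y ^ 2) / y ^ 2 ≠ x := by
    intro h3
    rw [div_eq_iff (pow_ne_zero 2 hy)] at h3
    apply hA0
    have h4 : x * (2 * (y ^ 2 - x ^ 3)) = 0 := by linear_combination -h3
    have h5 := (mul_eq_zero.1 h4).resolve_left hx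
    exact (mul_eq_zero.1 h5).resolve_left h2
  have hd : x * (2 * x ^ 3 - y ^ 2) / y ^ 2 - x ≠ 0 := sub_ne_zero.2 hne
  have hS := add_pt hD hN hne (-x ^ 2 * (x ^ 3 + y ^ 2) / (2 * y * (y ^ 2 - x ^ 3)))
    (x ^ 7 / a ^ 4) (y ^ 7 / a ^ 6) (by
      rw [eq_div_iff hd]
      field_simp
      ring) (by
      have h4 : a ^ 4 = (y ^ 2 - x ^ 3) ^ 2 := by rw [← hA]; ring
      rw [h4]
      field_simp
      linear_combination (x ^ 3 * (y ^ 2 - x ^ 3) ^ 2) * h7) (by
      have h4 : a ^ 4 = (y ^ 2 - x ^ 3) ^ 2 := by rw [← hA]; ring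
      have h6 : a ^ 6 = (y ^ 2 - x ^ 3) ^ 3 := by rw [← hA]; ring
      rw [h4, h6]
      field_simp
      linear_combination (x ^ 3 * y ^ 8 - x ^ 6 * y ^ 6) * h7)
  rw [sub_eq_add_neg]
  exact isPt_eq hFP hS rfl rfl

end Pool.Agent.N163.KN.FR
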