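import Pool.Agent.N163.KN.TopA

/-! Assembly, second part. -/

set_option autoImplicit false

namespace Pool.Agent.N163.KN.Top

open Polynomial WeierstrassCurve.Affine

set_option linter.unusedSectionVars false

section Ops

variable {k : Type} [Field k] [CharP k 7]

lemma ratFunc_ext {l : Type} [Field l] {τ τ' : RatFunc k →+* RatFunc l}
    (h : ∀ p : k[X], τ (algebraMap k[X] (RatFunc k) p) = τ' (algebraMap k[X] (RatFunc k) p)) :
    τ = τ' := by
  apply RingHom.ext
  intro f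
  rw [← RatFunc.num_div_denom f, map_div₀, map_div₀, h, h]

lemma tau_aa {n : ℕ} {ζ : k} (hζ : ζ ^ (6 * n) = 1) {τ : RatFunc k →+* RatFunc k}
    (hτ : ∀ p : k[X], τ (algebraMap k[X] (RatFunc k) p) =
        algebraMap k[X] (RatFunc k) (p.comp (C ζ * X))) : τ (aa k n) = aa k n := by
  rw [aa_eq, hτ]
  congr 1
  rw [add_comp, one_comp, pow_comp, X_comp, mul_pow, ← C_pow, hζ, C_1, one_mul]

lemma tau_iter {ζ : k} {τ : RatFunc k →+* RatFunc k}
    (hτ : ∀ p : k[X], τ (algebraMap k[X] (RatFunc k) p) =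
        algebraMap k[X] (RatFunc k) (p.comp (C ζ * X))) (m : ℕ) (p : k[X]) :
    τ^[m] (algebraMap k[X] (RatFunc k) p) =
      algebraMap k[X] (RatFunc k) (p.comp (C (ζ ^ m) * X)) := by
  induction m generalizing p with
  | zero => simp
  | succ m ih =>
    rw [Function.iterate_succ_apply, hτ, ih, comp_assoc]
    congr 2
    rw [mul_comp, C_comp, X_comp, ← mul_assoc, ← C_mul, pow_succ, mul_comm ζ]

lemma tau_pow {n : ℕ} {ζ : k} (hζ : ζ ^ (6 * n) = 1) {τ : RatFunc k →+* RatFunc k}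
    (hτ : ∀ p : k[X], τ (algebraMap k[X] (RatFunc k) p) =
        algebraMap k[X] (RatFunc k) (p.comp (C ζ * X))) (f : RatFunc k) : τ^[6 * n] f = f := by
  have h1 : ∀ p : k[X], τ^[6 * n] (algebraMap k[X] (RatFunc k) p) =
      algebraMap k[X] (RatFunc k) p := by
    intro p
    rw [tau_iter hτ, hζ, C_1, one_mul, comp_X]
  have h2 : ∀ (m : ℕ) (a b : RatFunc k), τ^[m] (a / b) = τ^[m] a / τ^[m] b := by
    intro m
    induction m with
    | zero => intro a b; rfl
    | succ m ih =>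
      intro a b
      rw [Function.iterate_succ_apply, Function.iterate_succ_apply, Function.iterate_succ_apply,
        map_div₀, ih]
  rw [← RatFunc.num_div_denom f, h2, h1, h1]

/-- The data on the group of points. -/
structure Ops (n : ℕ) [DecidableEq (RatFunc k)] (ζ : k) (δ : RatFunc k → RatFunc k)
    (G Ω : (W (aa k n ^ 2)).Point →+ (W (aa k n ^ 2)).Point)
    (D : (W (aa k n ^ 2)).Point →+ k[X]) : Prop where
  gpow : ∀ P, G^[6 * n] P = P
  comm : ∀ P, G (Ω P) = Ω (G P)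
  om : ∀ P, P + Ω P + Ω (Ω P) = 0
  inj : ∀ Q, Ω Q + Ω Q - Q = 0 → Q = 0
  dg : ∀ P i, (D (G P)).coeff i = ζ ^ (i + 1) * (D P).coeff i
  dom : ∀ P, D (Ω P) = 4 * D P
  deg : ∀ P, (D P).natDegree + 2 ≤ 4 * n
  ker : ∀ P, D P = 0 → ∃ Q, P = Ω Q + Ω Q - Q
  rel : ∀ P, Rel n (D P)
  val : ∀ P x y, IsPt P x y →
    algebraMap k[X] (RatFunc k) (D P) = dd δ (aa k n) x y

lemma exists_ops [Finite k] [DecidableEq (RatFunc k)] (hHOM : S_HOM) (hOM : S_OM) (hFR : S_FR)
    (hADD : S_ADD) (hCAR : S_CAR) (hDER : S_DER) (hKER : S_KER) (hINT : S_INT) (hCUBE : S_CUBE)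
    (hCOEF : S_COEF) (hTAU : S_TAU) {n : ℕ} (hn : 1 ≤ n) (h7 : ¬ 7 ∣ n) {ζ : k}
    (hζ0 : ζ ≠ 0) (hζ : ζ ^ (6 * n) = 1) {δ : RatFunc k → RatFunc k} (hδ : IsDer δ) :
    ∃ (G Ω : (W (aa k n ^ 2)).Point →+ (W (aa k n ^ 2)).Point)
      (D : (W (aa k n ^ 2)).Point →+ k[X]), Ops n ζ δ G Ω D := by
  have : ExpChar (RatFunc k) 7 := ExpChar.prime (by norm_num)
  have h7' := seven (RatFunc k)
  have h2 := two_ne (RatFunc k)
  have h3 := three_ne (RatFunc k)
  have ha := aa_ne k n hn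
  have hy : ∀ {P : (W (aa k n ^ 2)).Point} {x y : RatFunc k}, IsPt P x y → y ≠ 0 :=
    fun h => y_ne hCUBE hn h7 (isPt_eqn h)
  -- ω
  obtain ⟨Ω, hΩ'⟩ := hHOM (RatFunc k) (aa k n ^ 2) (aa k n ^ 2) 2 (RingHom.id _) h2 h3 h2 (by
    rw [RingHom.id_apply]
    linear_combination (9 * aa k n ^ 2) * h7')
  have hΩ : ∀ P x y, IsPt P x y → IsPt (Ω P) (4 * x) y := by
    intro P x y h
    have := hΩ' P x y h
    rw [RingHom.id_apply, RingHom.id_apply] at this
    have e1 : (2 : RatFunc k) ^ 2 * x = 4 * x := by ring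
    have e2 : (2 : RatFunc k) ^ 3 * y = y := by linear_combination y * h7'
    rwa [e1, e2] at this
  -- Frobenius
  obtain ⟨Fr, hFr'⟩ := hHOM (RatFunc k) (aa k n ^ 2) (aa k n ^ 2) ((aa k n)⁻¹ ^ 2)
    (frobenius (RatFunc k) 7) h2 h3 (pow_ne_zero _ (inv_ne_zero ha)) (by
    rw [frobenius_def]
    field_simp)
  have hFr : ∀ P x y, IsPt P x y → IsPt (Fr P) (x ^ 7 / aa k n ^ 4) (y ^ 7 / aa k n ^ 6) := by
    intro P x y h
    have := hFr' P x y h
    rw [frobenius_def, frobenius_def] at this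
    have e1 : ((aa k n)⁻¹ ^ 2) ^ 2 * x ^ 7 = x ^ 7 / aa k n ^ 4 := by field_simp
    have e2 : ((aa k n)⁻¹ ^ 2) ^ 3 * y ^ 7 = y ^ 7 / aa k n ^ 6 := by field_simp
    rwa [e1, e2] at this
  have hF := hFR (RatFunc k) (aa k n) Ω Fr ha hΩ hFr
  -- G
  obtain ⟨τ, hτ, hτδ⟩ := hTAU.1 k δ hδ ζ hζ0
  have hτa := tau_aa hζ hτ
  obtain ⟨G, hG'⟩ := hHOM (RatFunc k) (aa k n ^ 2) (aa k n ^ 2) 1 τ h2 h3 one_ne_zero (by
    rw [map_pow, hτa]
    ring)
  have hG : ∀ P x y, IsPt P x y → IsPt (G P) (τ x) (τ y) := by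
    intro P x y h
    have := hG' P x y h
    rwa [one_pow, one_pow, one_mul, one_mul] at this
  -- D
  obtain ⟨D₀, hD₀⟩ := hADD (RatFunc k) δ (aa k n) hδ.dn h2 h3 ha (by
    intro x hx
    apply hCUBE k n hn h7 (-1) x (by simp)
    rw [hx, map_neg, map_one]
    ring)
  have hD1 : ∀ P, ∃ g : k[X], g.natDegree + 2 ≤ 4 * n ∧ algebraMap k[X] (RatFunc k) g = D₀ P := by
    intro P
    rcases cases P with rfl | ⟨x, y, h⟩
    · exact ⟨0, by simp; omega, by simp⟩
    · obtain ⟨g, hg1, hg2⟩ := hINT k δ hδ n hn h7 x y (hy h) (isPt_eqn h)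
      exact ⟨g, hg1, by rw [hD₀ P x y h, hg2]⟩
  choose d hd1 hd2 using hD1
  have hinj := IsFractionRing.injective k[X] (RatFunc k)
  obtain ⟨D, hD⟩ : ∃ D : (W (aa k n ^ 2)).Point →+ k[X], ∀ P, D P = d P :=
    ⟨{ toFun := d
       map_zero' := hinj (by rw [hd2, map_zero, map_zero])
       map_add' := fun P Q => hinj (by rw [hd2, map_add, map_add, hd2, hd2]) }, fun P => rfl⟩
  have hval : ∀ P x y, IsPt P x y →
      algebraMap k[X] (RatFunc k) (D P) = dd δ (aa k n) x y := by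
    intro P x y h
    rw [hD, hd2, hD₀ P x y h]
  refine ⟨G, Ω, D, ⟨?_, ?_, hOM (RatFunc k) _ Ω (pow_ne_zero 2 ha) hΩ, ?_, ?_, ?_, ?_, ?_, ?_,
    hval⟩⟩
  · intro P
    rcases cases P with rfl | ⟨x, y, h⟩
    · generalize 6 * n = m
      induction m with
      | zero => rfl
      | succ m ih => rw [Function.iterate_succ_apply, map_zero, ih]
    · have h4 : ∀ (m : ℕ) (P : (W (aa k n ^ 2)).Point) (x y : RatFunc k), IsPt P x y →
          IsPt (G^[m] P) (τ^[m] x) (τ^[m] y) := by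
        intro m
        induction m with
        | zero => intro P x y h; exact h
        | succ m ih =>
          intro P x y h
          rw [Function.iterate_succ_apply, Function.iterate_succ_apply,
            Function.iterate_succ_apply]
          exact ih _ _ _ (hG P x y h)
      have h5 := h4 (6 * n) P x y h
      rw [tau_pow hζ hτ, tau_pow hζ hτ] at h5
      exact isPt_unique h5 h
  · intro P
    rcases cases P with rfl | ⟨x, y, h⟩
    · simp
    · have h5 := hG _ _ _ (hΩ P x y h)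
      have h6 := hΩ _ _ _ (hG P x y h)
      rw [map_mul, map_ofNat] at h5
      exact isPt_unique h5 h6
  · intro Q hQ
    rw [← hF] at hQ
    rcases cases Q with rfl | ⟨x, y, h⟩
    · rfl
    · exact absurd hQ (isPt_ne (hFr Q x y h))
  · intro P i
    rcases cases P with rfl | ⟨x, y, h⟩
    · simp
    · have h5 : D (G P) = C ζ * (D P).comp (C ζ * X) := by
        apply hinj
        rw [hval _ _ _ (hG P x y h), map_mul, ← hτ, hval _ _ _ h]
        unfold dd
        rw [map_div₀, map_sub, map_mul, map_mul, map_mul, map_mul, map_ofNat, map_ofNat, hτa,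
          hτδ]
        have h6 : δ (aa k n) = RatFunc.C ζ * τ (δ (aa k n)) := by
          rw [← hτδ, hτa]
        have h7 : algebraMap k[X] (RatFunc k) (C ζ) = RatFunc.C ζ := RatFunc.algebraMap_C ζ
        rw [h7]
        conv_lhs => rw [h6]
        ring
      rw [h5, coeff_C_mul]
      have h6 : ∀ p : k[X], (p.comp (C ζ * X)).coeff i = ζ ^ i * p.coeff i := by
        intro p
        rw [comp_C_mul_X_coeff, mul_comm]
      rw [h6]
      ring
  · intro P
    rcases cases P with rfl | ⟨x, y, h⟩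
    · simp
    · apply hinj
      have h4 : δ (4 : RatFunc k) = 0 := by
        have : (4 : RatFunc k) = algebraMap k[X] (RatFunc k) 4 := (map_ofNat _ 4).symm
        rw [this, hδ.poly]
        have : (4 : k[X]) = C 4 := (map_ofNat _ 4).symm
        rw [this, derivative_C, map_zero]
      rw [hval _ _ _ (hΩ P x y h), map_mul, hval _ _ _ h,
        show (algebraMap k[X] (RatFunc k)) 4 = 4 from map_ofNat _ 4]
      unfold dd
      rw [hδ.dn.mul, h4]
      ring
  · intro P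
    rw [hD]
    exact hd1 P
  · intro P hP
    rcases cases P with rfl | ⟨x, y, h⟩
    · exact ⟨0, by simp⟩
    · have h5 : dd δ (aa k n) x y = 0 := by rw [← hval _ _ _ h, hP, map_zero]
      obtain ⟨x₁, y₁, h6, h7, h8⟩ := hKER k δ hδ (aa k n) x y ha (hy h) (isPt_eqn h) h5
      have hy1 : y₁ ≠ 0 := y_ne hCUBE hn ‹_› h6
      refine ⟨.some x₁ y₁ (nons h2 hy1 h6), ?_⟩
      rw [← hF]
      have h9 := hFr (.some x₁ y₁ (nons h2 hy1 h6)) x₁ y₁ ⟨_, rfl⟩
      rw [← h7, ← h8] at h9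
      exact isPt_unique h h9
  · intro P
    rcases cases P with rfl | ⟨x, y, h⟩
    · intro u v j _ _ _ _
      simp
    · exact rel_of hCAR hDER hCOEF hn h7 hδ (hy h) (isPt_eqn h) (by rw [hD]; exact hd1 P)
        (hval _ _ _ h).symm

end Ops

end Pool.Agent.N163.KN.Top
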