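import Pool.Agent.N163.KN.Stm

/-!
# The logarithmic derivative is additive
-/

set_option autoImplicit false

namespace Pool.Agent.N163.KN.ADD

open WeierstrassCurve

section der

variable {K : Type} [Field K] {δ : K → K}

theorem d_zero (h : IsDn δ) : δ 0 = 0 := by
  have h1 := h.add 0 0
  rw [add_zero] at h1
  exact (add_eq_left.1 h1.symm)

theorem d_neg (h : IsDn δ) (x : K) : δ (-x) = -δ x := by
  have h1 := h.add x (-x)
  rw [add_neg_cancel, d_zero h] at h1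
  exact (neg_eq_of_add_eq_zero_right h1.symm).symm

theorem d_sub (h : IsDn δ) (x y : K) : δ (x - y) = δ x - δ y := by
  rw [sub_eq_add_neg, h.add, d_neg h, sub_eq_add_neg]

theorem d_sq (h : IsDn δ) (x : K) : δ (x ^ 2) = 2 * x * δ x := by
  rw [sq, h.mul]; ring

theorem d_cube (h : IsDn δ) (x : K) : δ (x ^ 3) = 3 * x ^ 2 * δ x := by
  have h1 : x ^ 3 = x * x ^ 2 := by ring
  rw [h1, h.mul, d_sq h]; ring

theorem lin {a x y : K} (h : IsDn δ) (hy : y ≠ 0) (he : y ^ 2 = x ^ 3 + a ^ 2) :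
    3 * a * δ x = y * dd δ a x y + 2 * x * δ a ∧
      2 * a * δ y = x ^ 2 * dd δ a x y + 2 * y * δ a := by
  have h1 : y * dd δ a x y = 3 * a * δ x - 2 * δ a * x := by
    unfold dd
    field_simp
  have h2 : 2 * y * δ y = 3 * x ^ 2 * δ x + 2 * a * δ a := by
    rw [← d_sq h, he, h.add, d_cube h, d_sq h]
  refine ⟨by rw [h1]; ring, ?_⟩
  apply mul_left_cancel₀ hy
  linear_combination a * h2 - x ^ 2 * h1 - 2 * δ a * he

theorem gen {a x₁ y₁ x₂ y₂ l : K} (h : IsDn δ) (hy₁ : y₁ ≠ 0) (hy₂ : y₂ ≠ 0)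
    (he₁ : y₁ ^ 2 = x₁ ^ 3 + a ^ 2) (he₂ : y₂ ^ 2 = x₂ ^ 3 + a ^ 2) (hx : x₁ ≠ x₂)
    (hl : l * (x₁ - x₂) = y₁ - y₂) :
    3 * a * δ (l ^ 2 - x₁ - x₂) - 2 * δ a * (l ^ 2 - x₁ - x₂) =
      (dd δ a x₁ y₁ + dd δ a x₂ y₂) * (-(l * (l ^ 2 - x₁ - x₂ - x₁) + y₁)) := by
  have hs : x₁ - x₂ ≠ 0 := sub_ne_zero.2 hx
  obtain ⟨p1, q1⟩ := lin h hy₁ he₁
  obtain ⟨p2, q2⟩ := lin h hy₂ he₂
  have hd : δ l * (x₁ - x₂) + l * (δ x₁ - δ x₂) = δ y₁ - δ y₂ := by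
    rw [← d_sub h y₁ y₂, ← hl, h.mul, d_sub h]; ring
  have hl' : l * (y₁ + y₂) = x₁ ^ 2 + x₁ * x₂ + x₂ ^ 2 := by
    apply mul_left_cancel₀ hs
    linear_combination (y₁ + y₂) * hl + he₁ - he₂
  rw [d_sub h, d_sub h, d_sq h]
  apply mul_left_cancel₀ hs
  linear_combination (6 * a * l) * hd + 3 * l * (q1 - q2) - 2 * l ^ 2 * (p1 - p2)
    - (x₁ - x₂) * (p1 + p2) - 6 * l * δ a * hl + dd δ a x₁ y₁ * (l ^ 2 * hl - l * hl')
    + dd δ a x₂ y₂ * (l ^ 2 * hl - (x₁ - x₂) * hl + l * hl')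

theorem dbl {a x y l : K} (h : IsDn δ) (hy : y ≠ 0) (he : y ^ 2 = x ^ 3 + a ^ 2)
    (hl : 2 * y * l = 3 * x ^ 2) :
    3 * a * δ (l ^ 2 - x - x) - 2 * δ a * (l ^ 2 - x - x) =
      (dd δ a x y + dd δ a x y) * (-(l * (l ^ 2 - x - x - x) + y)) := by
  obtain ⟨p, q⟩ := lin h hy he
  have hd : 2 * (δ y * l + y * δ l) = 6 * x * δ x := by
    have h1 : δ (y * l + y * l) = δ (x ^ 2 + x ^ 2 + x ^ 2) := by
      congr 1
      linear_combination hl
    rw [h.add, h.add, h.add, h.mul, d_sq h] at h1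
    linear_combination h1
  rw [d_sub h, d_sub h, d_sq h]
  apply mul_left_cancel₀ hy
  linear_combination (3 * a * l) * hd + (6 * x * l) * p - (3 * l ^ 2) * q - 2 * y * p
    + dd δ a x y * l ^ 2 * hl - 4 * l * δ a * hl

theorem dd_neg {a x y : K} : dd δ a x (-y) = -dd δ a x y := by
  unfold dd
  rw [div_neg]

end der

section main

variable {K : Type} [Field K] {a : K}

theorem eqn {x y : K} (h : (W (a ^ 2)).Nonsingular x y) : y ^ 2 = x ^ 3 + a ^ 2 := by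
  have h1 := ((W (a ^ 2)).equation_iff x y).1 h.1
  simp only [W] at h1
  linear_combination h1

theorem y_ne {x y : K} (hcube : ∀ x : K, x ^ 3 ≠ -a ^ 2) (h : y ^ 2 = x ^ 3 + a ^ 2) :
    y ≠ 0 := by
  rintro rfl
  exact hcube x (by linear_combination -h)

/-- The logarithmic derivative of a point. -/
noncomputable def DD (δ : K → K) (a : K) : (W (a ^ 2)).Point → K
  | .zero => 0
  | .some x y _ => dd δ a x y

theorem DD_add [DecidableEq K] {δ : K → K} (h : IsDn δ) (h2 : (2 : K) ≠ 0)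
    (hcube : ∀ x : K, x ^ 3 ≠ -a ^ 2) (P Q : (W (a ^ 2)).Point) :
    DD δ a (P + Q) = DD δ a P + DD δ a Q := by
  rcases P with _ | ⟨x₁, y₁, h₁⟩
  · rw [← Affine.Point.zero_def, zero_add]
    show _ = 0 + _
    rw [zero_add]
  rcases Q with _ | ⟨x₂, y₂, h₂⟩
  · rw [← Affine.Point.zero_def, add_zero]
    show _ = _ + 0
    rw [add_zero]
  have he₁ := eqn h₁
  have he₂ := eqn h₂
  have hy₁ := y_ne hcube he₁
  have hy₂ := y_ne hcube he₂
  have hneg : ∀ x y : K, (W (a ^ 2)).negY x y = -y := fun x y => by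
    simp [Affine.negY, W]
  by_cases hxy : x₁ = x₂ ∧ y₁ = (W (a ^ 2)).negY x₂ y₂
  · rw [Affine.Point.add_of_Y_eq hxy.1 hxy.2]
    obtain ⟨rfl, h3⟩ := hxy
    rw [hneg] at h3
    subst h3
    show (0 : K) = dd δ a x₁ (-y₂) + dd δ a x₁ y₂
    rw [dd_neg]
    ring
  · rw [Affine.Point.add_some hxy]
    show dd δ a _ _ = dd δ a x₁ y₁ + dd δ a x₂ y₂
    have hns := Affine.nonsingular_add h₁ h₂ hxy
    have he₃ := eqn hns
    have hy₃ := y_ne hcube he₃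
    have hX : ∀ l, (W (a ^ 2)).addX x₁ x₂ l = l ^ 2 - x₁ - x₂ := fun l => by
      simp [Affine.addX, W]
    have hY : ∀ l, (W (a ^ 2)).addY x₁ x₂ y₁ l = -(l * (l ^ 2 - x₁ - x₂ - x₁) + y₁) := fun l => by
      rw [Affine.addY, hneg, Affine.negAddY, hX]
    rw [hX, hY] at *
    unfold dd
    rw [div_eq_iff hy₃]
    change _ = (dd δ a x₁ y₁ + dd δ a x₂ y₂) * _
    by_cases hx : x₁ = x₂
    · have hyy : y₁ = y₂ := Affine.Y_eq_of_Y_ne h₁.1 h₂.1 hx fun h3 => hxy ⟨hx, h3⟩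
      subst hx
      subst hyy
      refine dbl h hy₁ he₁ ?_
      rw [Affine.slope_of_Y_ne rfl fun h3 => hxy ⟨rfl, h3⟩, hneg]
      simp only [W]
      have h3 : y₁ - -y₁ ≠ 0 := by
        rw [sub_neg_eq_add, ← two_mul]
        exact mul_ne_zero h2 hy₁
      rw [mul_div_assoc', div_eq_iff h3]
      ring
    · refine gen h hy₁ hy₂ he₁ he₂ hx ?_
      rw [Affine.slope_of_X_ne hx]
      exact div_mul_cancel₀ _ (sub_ne_zero.2 hx)

end main

theorem t_ADD : S_ADD := by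
  intro K _ _ δ a h h2 _ _ hcube
  refine ⟨{ toFun := DD δ a, map_zero' := rfl, map_add' := DD_add h h2 hcube }, ?_⟩
  rintro P x y ⟨hP, rfl⟩
  rfl

end Pool.Agent.N163.KN.ADD
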