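import Pool.Agent.N163.KN.Stm

/-!
# `S_COEF`: the equation of Cartier in coefficients
-/

set_option autoImplicit false

namespace Pool.Agent.N163.KN.COEF

open Polynomial

lemma coeff_pow_seven {k : Type} [Field k] [CharP k 7] (g : k[X]) (w : ℕ) :
    (g ^ 7).coeff (7 * w) = g.coeff w ^ 7 := by
  have : Fact (Nat.Prime 7) := ⟨by norm_num⟩
  have : ExpChar k 7 := ExpChar.prime (by norm_num)
  have h1 : g ^ 7 = expand k 7 (map (frobenius k 7) g) := by
    rw [← map_expand, Polynomial.map_frobenius_expand]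
  rw [h1, coeff_expand (by norm_num), if_pos (Dvd.intro w rfl), Nat.mul_div_cancel_left w (by norm_num),
    coeff_map, frobenius_def]

lemma desc_cast {k : Type} [Field k] [CharP k 7] (w : ℕ) :
    (((7 * w + 6).descFactorial 6 : ℕ) : k) = -1 := by
  have h7 : (7 : k) = 0 := by exact_mod_cast CharP.cast_eq_zero k 7
  have h1 : (7 * w + 6).descFactorial 6 =
      (7 * w + 1) * ((7 * w + 2) * ((7 * w + 3) * ((7 * w + 4) * ((7 * w + 5) * (7 * w + 6))))) := by
    simp [Nat.descFactorial_succ]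
  rw [h1]
  push_cast
  linear_combination ((w : k) * ((7 * w + 2) * ((7 * w + 3) * ((7 * w + 4) * ((7 * w + 5) * (7 * w + 6))))) +
    (w : k) * ((7 * w + 3) * ((7 * w + 4) * ((7 * w + 5) * (7 * w + 6)))) +
    2 * (w : k) * ((7 * w + 4) * ((7 * w + 5) * (7 * w + 6))) +
    6 * (w : k) * ((7 * w + 5) * (7 * w + 6)) +
    24 * (w : k) * (7 * w + 6) + 120 * w + 103) * h7

lemma coeff_h {k : Type} [Field k] (n : ℕ) (g : k[X]) (_hn : 1 ≤ n) (hg : g.natDegree + 2 ≤ 4 * n)
    (s j : ℕ) (hs : s + 1 < 6 * n) (hj : j < 5) :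
    ((X ^ (6 * n) + 1) ^ 4 * g).coeff (s + 6 * n * j) = (Nat.choose 4 j : k) * g.coeff s := by
  rw [add_pow, Finset.sum_mul, finsetSum_coeff, Finset.sum_eq_single j]
  · have : ((X : k[X]) ^ (6 * n)) ^ j * 1 ^ (4 - j) * (Nat.choose 4 j : k[X]) * g =
        C (Nat.choose 4 j : k) * (g * X ^ (6 * n * j)) := by
      rw [pow_mul]; simp; ring
    rw [this, coeff_C_mul, coeff_mul_X_pow]
  · intro i _ hi
    have : ((X : k[X]) ^ (6 * n)) ^ i * 1 ^ (4 - i) * (Nat.choose 4 i : k[X]) * g =
        C (Nat.choose 4 i : k) * (g * X ^ (6 * n * i)) := by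
      rw [pow_mul]; simp; ring
    rw [this, coeff_C_mul, coeff_mul_X_pow']
    split_ifs with h
    · have hlt : i < j := by
        rcases lt_or_gt_of_ne hi with h' | h'
        · exact h'
        · exfalso
          have : 6 * n * (j + 1) ≤ 6 * n * i := Nat.mul_le_mul_left _ h'
          have e : 6 * n * (j + 1) = 6 * n * j + 6 * n := by ring
          omega
      have : g.coeff (s + 6 * n * j - 6 * n * i) = 0 := by
        apply coeff_eq_zero_of_natDegree_lt
        have h3 : 6 * n * (i + 1) ≤ 6 * n * j := Nat.mul_le_mul_left _ hlt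
        have e : 6 * n * (i + 1) = 6 * n * i + 6 * n := by ring
        omega
      rw [this, mul_zero]
    · rw [mul_zero]
  · intro h
    exact absurd (Finset.mem_range.2 hj) h

theorem t_COEF : S_COEF := by
  intro k _ _ n g hn h7n hg heq u v j hu hu4 hv huv
  have : Fact (Nat.Prime 7) := ⟨by norm_num⟩
  have hj : j < 5 := by
    by_contra hj
    have : 6 * n * 5 ≤ 6 * n * j := Nat.mul_le_mul_left _ (not_lt.1 hj)
    omega
  have hv0 : v ≠ 0 := by
    rintro rfl
    have hd : 7 ∣ 6 * n * j := ⟨u, by omega⟩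
    have hp : Nat.Prime 7 := by norm_num
    rcases (hp.dvd_mul).1 hd with h | h
    · rcases (hp.dvd_mul).1 h with h | h
      · omega
      · exact h7n h
    · have : j = 0 := by omega
      subst this
      omega
  obtain ⟨s, rfl⟩ : ∃ s, v = s + 1 := ⟨v - 1, by omega⟩
  obtain ⟨w, rfl⟩ : ∃ w, u = w + 1 := ⟨u - 1, by omega⟩
  have h1 := congrArg (fun p : k[X] => p.coeff (7 * w)) heq
  beta_reduce at h1
  rw [coeff_iterate_derivative, nsmul_eq_mul, desc_cast, show 7 * w + 6 = s + 6 * n * j by omega,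
    coeff_h n g hn hg s j hv hj] at h1
  have h2 : (-3 * g ^ 7 : k[X]).coeff (7 * w) = -3 * g.coeff w ^ 7 := by
    have : (-3 * g ^ 7 : k[X]) = C (-3 : k) * g ^ 7 := by
      rw [C_neg, show (C (3 : k) : k[X]) = 3 from rfl]
    rw [this, coeff_C_mul, coeff_pow_seven]
  rw [h2] at h1
  show 3 * g.coeff w ^ 7 = (Nat.choose 4 j : k) * g.coeff s
  linear_combination h1

end Pool.Agent.N163.KN.COEF
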