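import Pool.Agent.N163.KN.Stm

/-!
# KN/COMB: the fractions all of whose conjugates are smaller than `2 / 3`
-/

set_option autoImplicit false

namespace Pool.Agent.N163.KN.COMB

open Pool.Agent.N163.KN

theorem lift (m d t0 : ℕ) (hm : 0 < m) (hd : 0 < d) (h : t0.Coprime d) :
    ∃ t : ℕ, t.Coprime m ∧ t ≡ t0 [MOD d] := by
  have hD : NeZero (d * m) := ⟨by positivity⟩
  obtain ⟨w, hw⟩ := ZMod.unitsMap_surjective (Dvd.intro m rfl : d ∣ d * m)
    (ZMod.unitOfCoprime t0 h)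
  refine ⟨(w : ZMod (d * m)).val, ?_, ?_⟩
  · have h1 := ZMod.val_coe_unit_coprime w
    exact Nat.Coprime.coprime_dvd_right (Dvd.intro_left d rfl) h1
  · have h1 := congrArg Units.val hw
    rw [ZMod.unitsMap_val, ZMod.coe_unitOfCoprime] at h1
    rw [← ZMod.natCast_eq_natCast_iff, ZMod.natCast_val]
    exact h1

/-- the hypothesis for a reduced fraction `u / M` -/
def Hyp (M u : ℕ) : Prop := ∀ t : ℕ, t.Coprime (3 * M) → t % 3 = 1 → 3 * ((t * u) % M) < 2 * M

theorem exists_i (q x a j : ℕ) (hq : 0 < q) (hx : x.Coprime q) (hj : j < q) :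
    ∃ i k : ℕ, x * i + a = j + q * k := by
  have hq' : NeZero q := ⟨hq.ne'⟩
  obtain ⟨i, hi⟩ : ∃ i : ℕ, i = (((j : ZMod q) - a) * (x : ZMod q)⁻¹).val := ⟨_, rfl⟩
  have h1 : ((x * i + a : ℕ) : ZMod q) = (j : ZMod q) := by
    push_cast
    rw [hi, ZMod.natCast_val, ZMod.cast_id', id]
    have h2 := ZMod.coe_mul_inv_eq_one x hx
    calc (x : ZMod q) * (((j : ZMod q) - a) * (x : ZMod q)⁻¹) + a
        = ((x : ZMod q) * (x : ZMod q)⁻¹) * ((j : ZMod q) - a) + a := by ring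
      _ = j := by rw [h2]; ring
  rw [ZMod.natCast_eq_natCast_iff'] at h1
  rw [Nat.mod_eq_of_lt hj] at h1
  refine ⟨i, (x * i + a) / q, ?_⟩
  have := Nat.mod_add_div (x * i + a) q
  omega

theorem step {M q s c u j : ℕ} (hM : M = q * s) (hq : 0 < q)
    (hc : (c * u).Coprime q) (hj : j < q) :
    ∃ i k : ℕ, (1 + c * s * i) * u = u % s + s * j + M * k := by
  obtain ⟨i, k, h⟩ := exists_i q (c * u) (u / s) j hq hc hj
  refine ⟨i, k, ?_⟩
  have h1 := Nat.mod_add_div u s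
  calc (1 + c * s * i) * u = u + s * (c * u * i) := by ring
    _ = (u % s + s * (u / s)) + s * (c * u * i) := by rw [h1]
    _ = u % s + s * (c * u * i + u / s) := by ring
    _ = u % s + s * (j + q * k) := by rw [h]
    _ = u % s + s * j + M * k := by rw [hM]; ring

theorem bound {M q s u j t k : ℕ} (H : Hyp M u) (hM : M = q * s) (hs : 0 < s) (hj : j < q)
    (ht : t * u = u % s + s * j + M * k) (h1 : t.Coprime (3 * M)) (h2 : t % 3 = 1) :
    3 * j < 2 * q := by
  have h3 := H t h1 h2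
  have h4 : u % s < s := Nat.mod_lt _ hs
  have h5 : u % s + s * j < M := by
    rw [hM]
    calc u % s + s * j < s + s * j := by omega
      _ = s * (j + 1) := by ring
      _ ≤ s * q := Nat.mul_le_mul_left s hj
      _ = q * s := by ring
  have h6 : (t * u) % M = u % s + s * j := by
    rw [ht, Nat.add_mul_mod_self_left, Nat.mod_eq_of_lt h5]
  rw [h6] at h3
  have h7 : s * (3 * j) < s * (2 * q) := by
    have e0 : s * (3 * j) = 3 * (s * j) := by ring
    calc s * (3 * j) ≤ 3 * (u % s + s * j) := by omega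
      _ < 2 * M := h3
      _ = s * (2 * q) := by rw [hM]; ring
  exact lt_of_mul_lt_mul_left h7 (Nat.zero_le s)

theorem mod3 (s i : ℕ) : (1 + 3 * s * i) % 3 = 1 := by
  have : 1 + 3 * s * i = 1 + 3 * (s * i) := by ring
  omega

theorem cop1 (x i : ℕ) : (1 + x * i).Coprime x := by
  rw [Nat.coprime_add_mul_left_left]
  exact Nat.coprime_one_left x

theorem no9 {M u : ℕ} (hM0 : 0 < M) (hu : u.Coprime M) (H : Hyp M u) : ¬ 9 ∣ M := by
  rintro ⟨r, hr⟩
  have hM : M = 3 * (3 * r) := by omega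
  have hr0 : 0 < r := by omega
  have hc : (1 * u).Coprime 3 := by
    rw [one_mul]
    exact Nat.Coprime.coprime_dvd_right ⟨3 * r, hM⟩ hu
  obtain ⟨i, k, h⟩ := step (c := 1) (u := u) (j := 2) hM (by norm_num) hc (by norm_num)
  rw [one_mul] at h
  have h1 := bound H hM (by omega) (by norm_num) h
    (Nat.Coprime.coprime_dvd_right (show 3 * M ∣ (3 * r) ^ 3 from
      ⟨r ^ 2, by rw [hM]; ring⟩) ((cop1 (3 * r) i).pow_right 3)) (mod3 r i)
  omega

theorem no8 {M u : ℕ} (hM0 : 0 < M) (hu : u.Coprime M) (H : Hyp M u) : ¬ 8 ∣ M := by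
  rintro ⟨r, hr⟩
  have hM : M = 4 * (2 * r) := by omega
  have hr0 : 0 < r := by omega
  have hc : (3 * u).Coprime 4 :=
    Nat.Coprime.mul_left (by norm_num) (Nat.Coprime.coprime_dvd_right ⟨2 * r, hM⟩ hu)
  obtain ⟨i, k, h⟩ := step (c := 3) (u := u) (j := 3) hM (by norm_num) hc (by norm_num)
  have h1 := bound H hM (by omega) (by norm_num) h
    (Nat.Coprime.coprime_dvd_right (show 3 * M ∣ (3 * (2 * r)) ^ 3 from
      ⟨9 * r ^ 2, by rw [hM]; ring⟩) ((cop1 (3 * (2 * r)) i).pow_right 3)) (mod3 (2 * r) i)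
  omega

theorem noSq {M u l : ℕ} (hM0 : 0 < M) (hu : u.Coprime M) (H : Hyp M u) (hl : l.Prime)
    (hl5 : 5 ≤ l) : ¬ l ^ 2 ∣ M := by
  rintro ⟨r, hr⟩
  have hM : M = l * (l * r) := by rw [hr]; ring
  have hr0 : 0 < r := by
    rcases Nat.eq_zero_or_pos r with h | h
    · rw [h] at hr; omega
    · exact h
  have hl3 : Nat.Coprime 3 l := by
    rw [Nat.coprime_primes Nat.prime_three hl]
    omega
  have hc : (3 * u).Coprime l :=
    Nat.Coprime.mul_left hl3 (Nat.Coprime.coprime_dvd_right ⟨l * r, hM⟩ hu)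
  obtain ⟨i, k, h⟩ := step (c := 3) (u := u) (j := l - 1) hM (by omega) hc (by omega)
  have h1 := bound H hM (by positivity) (by omega) h
    (Nat.Coprime.coprime_dvd_right (show 3 * M ∣ (3 * (l * r)) ^ 2 from
      ⟨3 * r, by rw [hM]; ring⟩) ((cop1 (3 * (l * r)) i).pow_right 2)) (mod3 (l * r) i)
  omega

theorem noBig {M u l : ℕ} (hM0 : 0 < M) (hu : u.Coprime M) (H : Hyp M u) (hl : l.Prime)
    (hl7 : 7 ≤ l) : ¬ l ∣ M := by
  rintro ⟨s, hM⟩
  have hs0 : 0 < s := by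
    rcases Nat.eq_zero_or_pos s with h | h
    · rw [h] at hM; omega
    · exact h
  have hls : ¬ l ∣ s := by
    rintro ⟨r, hr⟩
    exact noSq hM0 hu H hl (by omega) ⟨r, by rw [hM, hr]; ring⟩
  have hl3 : Nat.Coprime 3 l := by
    rw [Nat.coprime_primes Nat.prime_three hl]
    omega
  have hc : (3 * u).Coprime l :=
    Nat.Coprime.mul_left hl3 (Nat.Coprime.coprime_dvd_right ⟨s, hM⟩ hu)
  have key : ∀ j : ℕ, j < l → 2 * l ≤ 3 * j → l ∣ u % s + s * j := by
    intro j hj hj2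
    by_contra hcon
    obtain ⟨i, k, h⟩ := step (c := 3) (u := u) (j := j) hM (by omega) hc hj
    have h3 : ¬ l ∣ 1 + 3 * s * i := by
      intro h4
      apply hcon
      have h5 : l ∣ u % s + s * j + M * k := by
        rw [← h]
        exact Dvd.dvd.mul_right h4 u
      exact (Nat.dvd_add_left (Dvd.dvd.mul_right ⟨s, hM⟩ k)).1 h5
    have h4 : (1 + 3 * s * i).Coprime (3 * M) := by
      have e : 3 * M = (3 * s) * l := by rw [hM]; ring
      rw [e]
      exact Nat.Coprime.mul_right (cop1 (3 * s) i) ((Nat.Prime.coprime_iff_not_dvd hl).2 h3).symm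
    have h1 := bound H hM hs0 hj h h4 (mod3 s i)
    omega
  have k1 := key (l - 1) (by omega) (by omega)
  have k2 := key (l - 2) (by omega) (by omega)
  apply hls
  have e : u % s + s * (l - 1) = (u % s + s * (l - 2)) + s := by
    have : l - 1 = (l - 2) + 1 := by omega
    rw [this]; ring
  rw [e] at k1
  exact (Nat.dvd_add_right k2).1 k1

theorem dvd60 {M u : ℕ} (hM0 : 0 < M) (hu : u.Coprime M) (H : Hyp M u) : M ∣ 60 := by
  rw [Nat.dvd_iff_prime_pow_dvd_dvd]
  intro p k hp hk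
  rcases Nat.eq_zero_or_pos k with rfl | hk0
  · simp
  have hpM : p ∣ M := (dvd_pow_self p hk0.ne').trans hk
  have hp7 : p < 7 := by
    by_contra h
    exact noBig hM0 hu H hp (by omega) hpM
  have hp2 := hp.two_le
  interval_cases p
  · have hk3 : k < 3 := by
      by_contra h
      exact no8 hM0 hu H ((pow_dvd_pow 2 (show 3 ≤ k by omega)).trans hk)
    interval_cases k <;> norm_num
  · have hk3 : k < 2 := by
      by_contra h
      exact no9 hM0 hu H ((pow_dvd_pow 3 (show 2 ≤ k by omega)).trans hk)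
    interval_cases k
    norm_num
  · exact absurd hp (by norm_num)
  · have hk3 : k < 2 := by
      by_contra h
      exact noSq hM0 hu H hp (by norm_num) ((pow_dvd_pow 5 (show 2 ≤ k by omega)).trans hk)
    interval_cases k
    norm_num
  · exact absurd hp (by norm_num)

/-- the exceptional reduced fractions -/
def ExcR (M u : ℕ) : Prop :=
  (M = 2 ∧ u = 1) ∨ (M = 3 ∧ u = 1) ∨ (M = 6 ∧ u = 1) ∨ (M = 12 ∧ u = 1) ∨ (M = 12 ∧ u = 7) ∨
    (M = 30 ∧ u = 1) ∨ (M = 30 ∧ u = 7) ∨ (M = 30 ∧ u = 13) ∨ (M = 30 ∧ u = 19)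

instance (M u : ℕ) : Decidable (ExcR M u) := by unfold ExcR; infer_instance

theorem finite_check : ∀ M ∈ [1, 2, 3, 4, 5, 6, 10, 12, 15, 20, 30, 60], ∀ u < M, 1 ≤ u →
    Nat.gcd u M = 1 →
    (∀ t ∈ [1, 7, 13, 19, 31, 37, 43, 49], 3 * ((t * u) % M) < 2 * M) → ExcR M u := by
  decide +kernel

theorem excR {M u : ℕ} (hM0 : 0 < M) (hu1 : 1 ≤ u) (huM : u < M) (hu : u.Coprime M)
    (H : Hyp M u) : ExcR M u := by
  have h60 := dvd60 hM0 hu H
  have hMle : M ≤ 60 := Nat.le_of_dvd (by norm_num) h60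
  have hmem : M ∈ [1, 2, 3, 4, 5, 6, 10, 12, 15, 20, 30, 60] := by
    have : ∀ M ≤ 60, M ∣ 60 → M ∈ [1, 2, 3, 4, 5, 6, 10, 12, 15, 20, 30, 60] := by
      decide +kernel
    exact this M hMle h60
  refine finite_check M hmem u huM hu1 hu ?_
  intro t ht
  have h1 : Nat.Coprime t 180 ∧ t % 3 = 1 := by
    have : ∀ t ∈ [1, 7, 13, 19, 31, 37, 43, 49], Nat.Coprime t 180 ∧ t % 3 = 1 := by
      decide +kernel
    exact this t ht
  refine H t (Nat.Coprime.coprime_dvd_right ?_ h1.1) h1.2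
  obtain ⟨c, hc⟩ := h60
  refine ⟨c, ?_⟩
  calc 180 = 3 * 60 := by norm_num
    _ = 3 * (M * c) := by rw [← hc]
    _ = 3 * M * c := by ring

theorem t_COMB : S_COMB := by
  intro n u hn hu1 hu4 H
  obtain ⟨g, hg⟩ : ∃ g, g = Nat.gcd u (6 * n) := ⟨_, rfl⟩
  have hg0 : 0 < g := by rw [hg]; exact Nat.gcd_pos_of_pos_left _ (by omega)
  obtain ⟨v, hv⟩ : g ∣ u := by rw [hg]; exact Nat.gcd_dvd_left _ _
  obtain ⟨M, hM⟩ : g ∣ 6 * n := by rw [hg]; exact Nat.gcd_dvd_right _ _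
  have hM0 : 0 < M := by
    rcases Nat.eq_zero_or_pos M with h | h
    · rw [h] at hM; omega
    · exact h
  have hv1 : 1 ≤ v := by
    rcases Nat.eq_zero_or_pos v with h | h
    · rw [h] at hv; omega
    · exact h
  have hcop : v.Coprime M := by
    have h1 : g * Nat.gcd v M = g * 1 := by
      rw [← Nat.gcd_mul_left, ← hv, ← hM, mul_one]
      exact hg.symm
    exact Nat.eq_of_mul_eq_mul_left hg0 h1
  have hvM : v < M := by
    have : g * v < g * M := by rw [← hv, ← hM]; omega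
    exact lt_of_mul_lt_mul_left this (Nat.zero_le g)
  have hH : Hyp M v := by
    intro t0 h1 h2
    obtain ⟨t, ht1, ht2⟩ := lift (6 * n) (3 * M) t0 (by omega) (by positivity) h1
    have ht3 : t % 3 = 1 := by
      have : t % 3 = t0 % 3 := Nat.ModEq.of_mul_right M ht2
      omega
    have ht4 : (t * v) % M = (t0 * v) % M :=
      Nat.ModEq.mul_right v (Nat.ModEq.of_mul_left 3 ht2)
    have h3 := H t ht1 ht3
    have h4 : (t * u) % (6 * n) = g * ((t * v) % M) := by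
      rw [hM, hv, ← Nat.mul_mod_mul_left]
      congr 1
      ring
    rw [h4, ht4] at h3
    have h5 : g * (3 * ((t0 * v) % M)) < g * (2 * M) := by
      calc g * (3 * ((t0 * v) % M)) = 3 * (g * ((t0 * v) % M)) := by ring
        _ < 3 * (4 * n) := by omega
        _ = 2 * (6 * n) := by ring
        _ = g * (2 * M) := by rw [hM]; ring
    exact lt_of_mul_lt_mul_left h5 (Nat.zero_le g)
  have hE := excR hM0 hv1 hvM hcop hH
  unfold Exc
  rcases hE with ⟨rfl, rfl⟩ | ⟨rfl, rfl⟩ | ⟨rfl, rfl⟩ | ⟨rfl, rfl⟩ | ⟨rfl, rfl⟩ | ⟨rfl, rfl⟩ |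
    ⟨rfl, rfl⟩ | ⟨rfl, rfl⟩ | ⟨rfl, rfl⟩ <;> omega

end Pool.Agent.N163.KN.COMB
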