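import Pool.Agent.N163.KN.Stm

/-!
# Project KN, part CUBE: constant multiples of `a²` are not cubes

(project of helper163; this part by helper170)
-/

set_option autoImplicit false

namespace Pool.Agent.N163.KN.CUBE

open Polynomial Pool.Agent.N163.KN

theorem cast_ne {k : Type} [Field k] [CharP k 7] {n : ℕ} (h7 : ¬ 7 ∣ n) : ((6 * n : ℕ) : k) ≠ 0 := by
  intro h
  rw [CharP.cast_eq_zero_iff k 7] at h
  omega

theorem sqf {k : Type} [Field k] [CharP k 7] {n : ℕ} (h7 : ¬ 7 ∣ n) :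
    Squarefree (X ^ (6 * n) + 1 : k[X]) := by
  have h1 := separable_X_pow_sub_C (n := 6 * n) (-1 : k) (cast_ne h7) (neg_ne_zero.2 one_ne_zero)
  have h2 : (X ^ (6 * n) - C (-1) : k[X]) = X ^ (6 * n) + 1 := by
    rw [C_neg, C_1, sub_neg_eq_add]
  rw [h2] at h1
  exact h1.squarefree

theorem poly {k : Type} [Field k] [CharP k 7] {n : ℕ} (hn : 1 ≤ n) (h7 : ¬ 7 ∣ n) {c : k}
    (hc : c ≠ 0) (A : k[X]) : A ^ 3 ≠ C c * (X ^ (6 * n) + 1) ^ 2 := by
  intro h
  have hdeg : (X ^ (6 * n) + 1 : k[X]).natDegree = 6 * n := natDegree_X_pow_add_C (r := 1)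
  have hu : ¬ IsUnit (X ^ (6 * n) + 1 : k[X]) := by
    intro hu
    have := natDegree_eq_zero_of_isUnit hu
    omega
  have h0 : (X ^ (6 * n) + 1 : k[X]) ≠ 0 := by
    intro h0
    rw [h0, natDegree_zero] at hdeg
    omega
  obtain ⟨π, hπ, a1, ha⟩ := WfDvdMonoid.exists_irreducible_factor hu h0
  have hp : Prime π := hπ.prime
  have h1 : π ∣ A := by
    apply hp.dvd_of_dvd_pow (n := 3)
    rw [h, ha]
    exact ⟨C c * (π * a1 ^ 2), by ring⟩
  obtain ⟨B, rfl⟩ := h1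
  have h2 : π * B ^ 3 = C c * a1 ^ 2 := by
    have h3 : π ^ 2 * (π * B ^ 3) = π ^ 2 * (C c * a1 ^ 2) := by
      rw [ha] at h
      linear_combination h
    exact mul_left_cancel₀ (pow_ne_zero 2 hp.ne_zero) h3
  have h3 : π ∣ a1 := by
    have h4 : π ∣ C c * a1 ^ 2 := ⟨B ^ 3, h2.symm⟩
    rcases hp.dvd_or_dvd h4 with h5 | h5
    · exact absurd (isUnit_of_dvd_unit h5 (isUnit_C.2 (IsUnit.mk0 c hc))) hp.not_unit
    · exact hp.dvd_of_dvd_pow h5
  obtain ⟨b, rfl⟩ := h3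
  exact hp.not_unit (sqf h7 π ⟨b, by rw [ha]; ring⟩)

/-- **CUBE**. -/
theorem t_CUBE : S_CUBE := by
  intro k _ _ n hn h7 c x hc h
  have h1 : RatFunc.C c * aa k n ^ 2 =
      algebraMap k[X] (RatFunc k) (C c * (X ^ (6 * n) + 1) ^ 2) := by
    unfold aa
    rw [map_mul, map_pow, map_add, map_pow, map_one, RatFunc.algebraMap_C, RatFunc.algebraMap_X]
  obtain ⟨A, rfl⟩ := IsIntegrallyClosed.exists_algebraMap_eq_of_isIntegral_pow (R := k[X])
    (x := x) (n := 3) (by norm_num) (by rw [h, h1]; exact isIntegral_algebraMap)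
  rw [h1, ← map_pow] at h
  exact poly hn h7 hc A (RatFunc.algebraMap_injective k h)

end Pool.Agent.N163.KN.CUBE
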