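import Pool.Agent.N163.KN.Stm

/-!
KN/DESC: abstract descent (helper398).
-/

set_option autoImplicit false

namespace Pool.Agent.N163.KN.DESC

theorem t_DESC : S_DESC := by
  classical
  intro M _ F Ω h C₀ hO hF hfin htr h7 ⟨S, hS⟩
  choose C hC using htr
  set C₁ : ℕ := S.sup fun s => C (-s) with hC₁
  have hCs : ∀ s ∈ S, C (-s) ≤ C₁ := fun s hs => Finset.le_sup (f := fun s => C (-s)) hs
  set B : ℕ := C₁ + C₀ with hB
  set T : Set M := ↑S ∪ {P | h P ≤ B} with hT
  set H : AddSubgroup M := AddSubgroup.closure (T ∪ Ω '' T) with hH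
  have hTH : ∀ x ∈ T, x ∈ H := fun x hx => AddSubgroup.subset_closure (Or.inl hx)
  have hTΩ : ∀ x ∈ T, Ω x ∈ H := fun x hx => AddSubgroup.subset_closure (Or.inr ⟨x, hx, rfl⟩)
  have hΩ : ∀ x ∈ H, Ω x ∈ H := by
    intro x hx
    induction hx using AddSubgroup.closure_induction with
    | mem x hx =>
      rcases hx with hx | ⟨t, ht, rfl⟩
      · exact hTΩ x hx
      · have h1 : Ω (Ω t) = -(t + Ω t) := (neg_eq_of_add_eq_zero_right (hO t)).symm
        rw [h1]
        exact H.neg_mem (H.add_mem (hTH t ht) (hTΩ t ht))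
    | zero =>
      rw [map_zero]
      exact H.zero_mem
    | add x y _ _ hx hy =>
      rw [map_add]
      exact H.add_mem hx hy
    | neg x _ hx =>
      rw [map_neg]
      exact H.neg_mem hx
  have hFH : ∀ x ∈ H, F x ∈ H := by
    intro x hx
    rw [hF]
    exact H.sub_mem (H.add_mem (hΩ x hx) (hΩ x hx)) hx
  have hall : ∀ (m : ℕ) (P : M), h P = m → P ∈ H := by
    intro m
    induction m using Nat.strong_induction_on with
    | _ m ih =>
      intro P hP
      by_cases hPB : h P ≤ B
      · exact hTH P (Or.inr hPB)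
      obtain ⟨s, hs, Q, rfl⟩ := hS P
      have h1 : F Q = s + F Q + -s := by abel
      have h2 := hC (-s) (s + F Q)
      rw [← h1] at h2
      have h3 := h7 Q
      have h4 := hCs s hs
      have h5 : Q ∈ H := ih (h Q) (by omega) Q rfl
      exact H.add_mem (hTH s (Or.inl hs)) (hFH Q h5)
  rw [AddGroup.fg_iff]
  refine ⟨T ∪ Ω '' T, ?_, ?_⟩
  · rw [eq_top_iff]
    intro P _
    exact hall _ P rfl
  · have hTf : T.Finite := S.finite_toSet.union (hfin B)
    exact hTf.union (hTf.image _)

end Pool.Agent.N163.KN.DESC
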