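import Pool.Agent.N163.KN.Stm

/-!
# Project KN (helper163), part KER (helper152): the kernel of the logarithmic derivative
-/

set_option autoImplicit false

namespace Pool.Agent.N163.KN.KER

open Polynomial Pool.Agent.N163.KN

theorem dn_one {K : Type} [Field K] {δ : K → K} (h : IsDn δ) : δ 1 = 0 := by
  have := h.mul 1 1
  rw [mul_one, one_mul] at this
  linear_combination -this

theorem dn_pow {K : Type} [Field K] {δ : K → K} (h : IsDn δ) (x : K) (n : ℕ) :
    δ (x ^ (n + 1)) = (n + 1) * x ^ n * δ x := by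
  induction n with
  | zero => simp
  | succ n ih =>
    rw [pow_succ x (n + 1), h.mul, ih]
    push_cast
    ring

theorem poly_pow {k : Type} [Field k] [Finite k] [CharP k 7] (f : k[X])
    (hf : derivative f = 0) : ∃ g : k[X], f = g ^ 7 := by
  have : Fact (Nat.Prime 7) := ⟨by norm_num⟩
  have h1 : expand k 7 (contract 7 f) = f := expand_contract 7 hf (by norm_num)
  have hs : Function.Surjective (frobenius k 7) :=
    Finite.injective_iff_surjective.1 (frobenius_inj k 7)
  obtain ⟨g, hg⟩ := Polynomial.map_surjective (frobenius k 7) hs (contract 7 f)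
  refine ⟨g, ?_⟩
  rw [← h1, ← hg, ← Polynomial.map_expand, map_frobenius_expand]

theorem rat_pow {k : Type} [Field k] [Finite k] [CharP k 7] (δ : RatFunc k → RatFunc k)
    (hδ : IsDer δ) (f : RatFunc k) (hf : δ f = 0) : ∃ h : RatFunc k, f = h ^ 7 := by
  have : CharP (RatFunc k) 7 :=
    charP_of_injective_algebraMap (algebraMap k (RatFunc k)).injective 7
  have h7 : (7 : RatFunc k) = 0 := by
    have := CharP.cast_eq_zero (RatFunc k) 7
    exact_mod_cast this
  have hB : f.denom ≠ 0 := RatFunc.denom_ne_zero f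
  have hB' : algebraMap k[X] (RatFunc k) f.denom ≠ 0 := by
    intro h
    exact hB ((map_eq_zero_iff _ (RatFunc.algebraMap_injective k)).1 h)
  have hAB : algebraMap k[X] (RatFunc k) (f.num * f.denom ^ 6) =
      f * algebraMap k[X] (RatFunc k) f.denom ^ 7 := by
    have e1 : algebraMap k[X] (RatFunc k) f.num = f * algebraMap k[X] (RatFunc k) f.denom := by
      conv_rhs => lhs; rw [← RatFunc.num_div_denom f]
      rw [div_mul_cancel₀ _ hB']
    rw [map_mul, map_pow, e1]
    ring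
  have hd : algebraMap k[X] (RatFunc k) (derivative (f.num * f.denom ^ 6)) = 0 := by
    have e1 := dn_pow hδ.dn (algebraMap k[X] (RatFunc k) f.denom) 6
    rw [← hδ.poly, hAB, hδ.dn.mul, hf, e1]
    push_cast
    linear_combination (f * algebraMap k[X] (RatFunc k) f.denom ^ 6 *
      δ (algebraMap k[X] (RatFunc k) f.denom)) * h7
  obtain ⟨g, hg⟩ := poly_pow (f.num * f.denom ^ 6)
    ((map_eq_zero_iff _ (RatFunc.algebraMap_injective k)).1 hd)
  refine ⟨algebraMap k[X] (RatFunc k) g / algebraMap k[X] (RatFunc k) f.denom, ?_⟩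
  rw [hg, map_pow] at hAB
  rw [div_pow, hAB]
  field_simp

theorem t_KER : S_KER := by
  intro k _ _ _ δ hδ a x y ha hy hxy hdd
  have : Fact (Nat.Prime 7) := ⟨by norm_num⟩
  have : CharP (RatFunc k) 7 :=
    charP_of_injective_algebraMap (algebraMap k (RatFunc k)).injective 7
  have h7 : (7 : RatFunc k) = 0 := by
    have := CharP.cast_eq_zero (RatFunc k) 7
    exact_mod_cast this
  have h2 : (2 : RatFunc k) ≠ 0 := by
    intro h
    have h1 : (1 : RatFunc k) = 0 := by linear_combination h7 - 3 * h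
    exact one_ne_zero h1
  have h3 : 3 * a * δ x - 2 * δ a * x = 0 := by
    unfold dd at hdd
    rcases div_eq_zero_iff.1 hdd with h | h
    · exact h
    · exact absurd h hy
  obtain ⟨w, hw⟩ : ∃ w, w = y / a := ⟨_, rfl⟩
  obtain ⟨z, hz⟩ : ∃ z, z = x ^ 3 / a ^ 2 := ⟨_, rfl⟩
  have hwz : w ^ 2 = z + 1 := by
    rw [hw, hz, div_pow, hxy]
    field_simp
  have hw0 : w ≠ 0 := by
    rw [hw]
    exact div_ne_zero hy ha
  have hDz : δ z = 0 := by
    have e1 : x ^ 3 = z * a ^ 2 := by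
      rw [hz]
      field_simp
    have e2 := congrArg δ e1
    rw [hδ.dn.mul, dn_pow hδ.dn x 2, dn_pow hδ.dn a 1] at e2
    push_cast at e2
    have e3 : a ^ 2 * δ z * a = 0 := by
      linear_combination (-a) * e2 + x ^ 2 * h3 + 2 * δ a * e1
    have e4 : a ^ 2 * a ≠ 0 := mul_ne_zero (pow_ne_zero _ ha) ha
    have e5 : δ z * (a ^ 2 * a) = 0 := by linear_combination e3
    exact (mul_eq_zero.1 e5).resolve_right e4
  have hDw : δ w = 0 := by
    have e2 := congrArg δ hwz
    rw [dn_pow hδ.dn w 1, hδ.dn.add, hDz, dn_one hδ.dn, add_zero] at e2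
    push_cast at e2
    have e3 : 2 * w ≠ 0 := mul_ne_zero h2 hw0
    have e4 : (2 * w) * δ w = 0 := by linear_combination e2
    exact (mul_eq_zero.1 e4).resolve_left e3
  obtain ⟨w₁, hw₁⟩ := rat_pow δ hδ w hDw
  have hz₁ : z = (w₁ ^ 2 - 1) ^ 7 := by
    rw [sub_pow_char, one_pow, ← pow_mul, mul_comm 2 7, pow_mul, ← hw₁, hwz]
    ring
  obtain ⟨z₁, hz₁'⟩ : ∃ z₁, z₁ = w₁ ^ 2 - 1 := ⟨_, rfl⟩
  rw [← hz₁'] at hz₁
  have hyw : y = a * w₁ ^ 7 := by
    rw [← hw₁, hw]
    field_simp
  have hx3 : x ^ 3 = z₁ ^ 7 * a ^ 2 := by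
    rw [← hz₁, hz]
    field_simp
  by_cases h0 : z₁ = 0
  · have hx0 : x = 0 := by
      rw [h0, zero_pow (by norm_num), zero_mul] at hx3
      exact pow_eq_zero_iff (by norm_num) |>.1 hx3
    refine ⟨0, a * w₁, ?_, ?_, ?_⟩
    · rw [h0] at hz₁'
      linear_combination (-a ^ 2) * hz₁'
    · rw [hx0]
      simp
    · rw [hyw, mul_pow]
      field_simp
  · refine ⟨x / z₁ ^ 2, a * w₁, ?_, ?_, ?_⟩
    · have e1 : (x / z₁ ^ 2) ^ 3 = z₁ * a ^ 2 := by
        rw [div_pow, hx3]
        field_simp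
      rw [e1, hz₁']
      ring
    · have e1 : (x / z₁ ^ 2) ^ 3 = z₁ * a ^ 2 := by
        rw [div_pow, hx3]
        field_simp
      have e2 : (x / z₁ ^ 2) ^ 7 = (x / z₁ ^ 2) * ((x / z₁ ^ 2) ^ 3) ^ 2 := by ring
      rw [e2, e1]
      field_simp
    · rw [hyw, mul_pow]
      field_simp

end Pool.Agent.N163.KN.KER
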