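import Pool.Agent.N163.KN.Stm

/-!
# Project KN (helper163), part LAST: the coefficients at the exceptional fractions (helper695)
-/

set_option autoImplicit false

namespace Pool.Agent.N163.KN.LAST

open Polynomial Pool.Agent.N163.KN

lemma nat_pow7 (k : Type) [Field k] [CharP k 7] (a : ℕ) : (a : k) ^ 7 = (a : k) := by
  have : Fact (Nat.Prime 7) := ⟨by norm_num⟩
  have h : a ^ 7 ≡ a [MOD 7] := by
    rw [← ZMod.natCast_eq_natCast_iff]
    push_cast
    exact ZMod.pow_card _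
  have h2 := (CharP.natCast_eq_natCast k 7).2 h
  push_cast at h2
  exact h2

lemma nat_pow7s (k : Type) [Field k] [CharP k 7] (a s : ℕ) : (a : k) ^ (7 ^ s) = (a : k) := by
  induction s with
  | zero => simp
  | succ s ih => rw [pow_succ, pow_mul, ih, nat_pow7]

lemma step {k : Type} [Field k] [CharP k 7] (a b s : ℕ) (x y z : k) (h1 : y = (a : k) * x ^ (7 ^ s))
    (h2 : z = (b : k) * y ^ 7) : z = ((a * b : ℕ) : k) * x ^ (7 ^ (s + 1)) := by
  rw [h2, h1, mul_pow, nat_pow7, ← pow_mul, ← pow_succ]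
  push_cast
  ring

lemma iter {k : Type} [Field k] [CharP k 7] (a s : ℕ) (x : k) (h : x = (a : k) * x ^ (7 ^ s)) (i : ℕ) :
    x = (a : k) ^ i * x ^ (7 ^ (s * i)) := by
  induction i with
  | zero => simp
  | succ i ih =>
    have h1 : x ^ (7 ^ (s * i)) = (a : k) * x ^ (7 ^ (s * (i + 1))) := by
      conv_lhs => rw [h]
      rw [mul_pow, nat_pow7s, ← pow_mul, ← pow_add]
      congr 3
      ring
    conv_lhs => rw [ih, h1]
    ring

lemma fin_zero {k : Type} [Field k] [Finite k] [CharP k 7] (f : ℕ) (hf : Nat.card k = 7 ^ f) (a s : ℕ) (x : k)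
    (h : x = (a : k) * x ^ (7 ^ s)) (ha : (a : k) ^ f ≠ 1) : x = 0 := by
  have := Fintype.ofFinite k
  have h1 := iter a s x h f
  have h2 : x ^ (7 ^ (s * f)) = x := by
    have h3 := FiniteField.pow_card_pow (K := k) s x
    rw [← Nat.card_eq_fintype_card, hf, ← pow_mul, mul_comm f s] at h3
    exact h3
  rw [h2] at h1
  have h4 : ((a : k) ^ f - 1) * x = 0 := by
    rw [sub_mul, ← h1]
    ring
  rcases mul_eq_zero.1 h4 with h5 | h5
  · exact absurd (sub_eq_zero.1 h5) ha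
  · exact h5

lemma ne_one (k : Type) [Field k] [CharP k 7] (a f : ℕ) (hf : f.Coprime 6)
    (ha : a % 7 = 6 ∨ a % 7 = 2 ∨ a % 7 = 4) : (a : k) ^ f ≠ 1 := by
  intro h
  have h1 : ((a ^ f : ℕ) : k) = ((1 : ℕ) : k) := by push_cast; exact h
  have h2 := (CharP.natCast_eq_natCast k 7).1 h1
  rw [← ZMod.natCast_eq_natCast_iff] at h2
  push_cast at h2
  have h3 : (a : ZMod 7) = ((a % 7 : ℕ) : ZMod 7) := by
    rw [ZMod.natCast_mod]
  rw [h3] at h2
  have h2f : f % 2 = 1 := by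
    by_contra hc
    have h6 : 2 ∣ f := Nat.dvd_of_mod_eq_zero (by omega)
    have := Nat.dvd_gcd h6 (by norm_num : 2 ∣ 6)
    rw [hf] at this
    omega
  have h3f : f % 3 = 1 ∨ f % 3 = 2 := by
    by_contra hc
    have h6 : 3 ∣ f := Nat.dvd_of_mod_eq_zero (by omega)
    have := Nat.dvd_gcd h6 (by norm_num : 3 ∣ 6)
    rw [hf] at this
    omega
  rcases ha with ha | ha | ha
  · rw [ha] at h2
    obtain ⟨q, hq⟩ : ∃ q, f = 2 * q + 1 := ⟨f / 2, by omega⟩
    rw [hq, pow_succ, pow_mul] at h2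
    have e : ((6 : ℕ) : ZMod 7) ^ 2 = 1 := by decide
    rw [e, one_pow, one_mul] at h2
    exact absurd h2 (by decide)
  · rw [ha] at h2
    have e : ((2 : ℕ) : ZMod 7) ^ 3 = 1 := by decide
    rcases h3f with h | h
    · obtain ⟨q, hq⟩ : ∃ q, f = 3 * q + 1 := ⟨f / 3, by omega⟩
      rw [hq, pow_add, pow_mul, e, one_pow, one_mul] at h2
      exact absurd h2 (by decide)
    · obtain ⟨q, hq⟩ : ∃ q, f = 3 * q + 2 := ⟨f / 3, by omega⟩
      rw [hq, pow_add, pow_mul, e, one_pow, one_mul] at h2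
      exact absurd h2 (by decide)
  · rw [ha] at h2
    have e : ((4 : ℕ) : ZMod 7) ^ 3 = 1 := by decide
    rcases h3f with h | h
    · obtain ⟨q, hq⟩ : ∃ q, f = 3 * q + 1 := ⟨f / 3, by omega⟩
      rw [hq, pow_add, pow_mul, e, one_pow, one_mul] at h2
      exact absurd h2 (by decide)
    · obtain ⟨q, hq⟩ : ∃ q, f = 3 * q + 2 := ⟨f / 3, by omega⟩
      rw [hq, pow_add, pow_mul, e, one_pow, one_mul] at h2
      exact absurd h2 (by decide)

section rel

variable {k : Type} [Field k] [CharP k 7] {n : ℕ} {g : k[X]}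

lemma seven (k : Type) [Field k] [CharP k 7] : (7 : k) = 0 := by
  have := CharP.cast_eq_zero k 7
  exact_mod_cast this

/-- `choose = 4`: `c v = 6 (c u)^7` -/
lemma r4 (x y : k) (h : 3 * x ^ 7 = 4 * y) : y = ((6 : ℕ) : k) * x ^ 7 := by
  have h7 := seven k
  push_cast
  linear_combination (-2 : k) * h - y * h7

/-- `choose = 6`: `c v = 4 (c u)^7` -/
lemma r6 (x y : k) (h : 3 * x ^ 7 = 6 * y) : y = ((4 : ℕ) : k) * x ^ 7 := by
  have h7 := seven k
  push_cast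
  linear_combination h + (y - x ^ 7) * h7

/-- `choose = 1` -/
lemma r1 (x y : k) (h : 3 * x ^ 7 = 1 * y) : y = ((3 : ℕ) : k) * x ^ 7 := by
  push_cast
  linear_combination (-1 : k) * h

lemma R1 (hR : Rel n g) (u v j : ℕ) (h1 : 1 ≤ u) (h2 : u < 4 * n) (h3 : v < 6 * n) (h4 : 7 * u = v + 6 * n * j)
    (hj : Nat.choose 4 j = 1) : g.coeff (v - 1) = ((3 : ℕ) : k) * g.coeff (u - 1) ^ 7 := by
  refine r1 _ _ ?_
  have h := hR u v j h1 h2 h3 h4
  rw [hj, Nat.cast_one] at h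
  exact h

lemma R4 (hR : Rel n g) (u v j : ℕ) (h1 : 1 ≤ u) (h2 : u < 4 * n) (h3 : v < 6 * n) (h4 : 7 * u = v + 6 * n * j)
    (hj : Nat.choose 4 j = 4) : g.coeff (v - 1) = ((6 : ℕ) : k) * g.coeff (u - 1) ^ 7 := by
  refine r4 _ _ ?_
  have h := hR u v j h1 h2 h3 h4
  rw [hj] at h
  push_cast at h
  exact h

lemma R6 (hR : Rel n g) (u v j : ℕ) (h1 : 1 ≤ u) (h2 : u < 4 * n) (h3 : v < 6 * n) (h4 : 7 * u = v + 6 * n * j)
    (hj : Nat.choose 4 j = 6) : g.coeff (v - 1) = ((4 : ℕ) : k) * g.coeff (u - 1) ^ 7 := by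
  refine r6 _ _ ?_
  have h := hR u v j h1 h2 h3 h4
  rw [hj] at h
  push_cast at h
  exact h

end rel

lemma four {k : Type} [Field k] [CharP k 7] (a b c d : ℕ) (x0 x1 x2 x3 : k) (h0 : x1 = (a : k) * x0 ^ 7)
    (h1 : x2 = (b : k) * x1 ^ 7) (h2 : x3 = (c : k) * x2 ^ 7) (h3 : x0 = (d : k) * x3 ^ 7) :
    x0 = ((a * b * c * d : ℕ) : k) * x0 ^ (7 ^ 4) := by
  have e0 : x1 = (a : k) * x0 ^ (7 ^ 1) := by rw [pow_one]; exact h0
  have e1 := step a b 1 x0 x1 x2 e0 h1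
  have e2 := step (a * b) c 2 x0 x2 x3 e1 h2
  exact step (a * b * c) d 3 x0 x3 x0 e2 h3

lemma two {k : Type} [Field k] [CharP k 7] (a b : ℕ) (x0 x1 : k) (h0 : x1 = (a : k) * x0 ^ 7)
    (h1 : x0 = (b : k) * x1 ^ 7) : x0 = ((a * b : ℕ) : k) * x0 ^ (7 ^ 2) := by
  have e0 : x1 = (a : k) * x0 ^ (7 ^ 1) := by rw [pow_one]; exact h0
  exact step a b 1 x0 x1 x0 e0 h1

theorem t_LAST : S_LAST := by
  intro k _ _ _ f hcard hf n g hn h7n hR u hu1 hu4 hexc
  have one : ∀ (a : ℕ) (x : k), (a % 7 = 6 ∨ a % 7 = 2 ∨ a % 7 = 4) → x = (a : k) * x ^ 7 → x = 0 :=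
    fun a x ha h => fin_zero f hcard a 1 x (by rw [pow_one]; exact h) (ne_one k a f hf ha)
  have two' : ∀ (a b : ℕ) (x y : k), ((a * b) % 7 = 6 ∨ (a * b) % 7 = 2 ∨ (a * b) % 7 = 4) →
      y = (a : k) * x ^ 7 → x = (b : k) * y ^ 7 → x = 0 :=
    fun a b x y ha h h' => fin_zero f hcard (a * b) 2 x (two a b x y h h') (ne_one k _ f hf ha)
  have four' : ∀ (a b c d : ℕ) (x y z w : k), ((a * b * c * d) % 7 = 6 ∨ (a * b * c * d) % 7 = 2 ∨
      (a * b * c * d) % 7 = 4) → y = (a : k) * x ^ 7 → z = (b : k) * y ^ 7 → w = (c : k) * z ^ 7 →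
      x = (d : k) * w ^ 7 → x = 0 :=
    fun a b c d x y z w ha h1 h2 h3 h4 => fin_zero f hcard (a * b * c * d) 4 x (four a b c d x y z w h1 h2 h3 h4)
      (ne_one k _ f hf ha)
  rcases hexc with h | h | h | h | h | h | h | h | h
  · exact one 6 _ (by norm_num) (R4 hR u u 3 hu1 hu4 (by omega) (by omega) rfl)
  · exact one 4 _ (by norm_num) (R6 hR u u 2 hu1 hu4 (by omega) (by omega) rfl)
  · exact one 6 _ (by norm_num) (R4 hR u u 1 hu1 hu4 (by omega) (by omega) rfl)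
  · exact two' 3 3 _ _ (by norm_num) (R1 hR u (7 * u) 0 hu1 hu4 (by omega) (by omega) rfl)
      (R1 hR (7 * u) u 4 (by omega) (by omega) (by omega) (by omega) rfl)
  · obtain ⟨m, hm⟩ : ∃ m, n = 2 * m := ⟨n / 2, by omega⟩
    exact two' 3 3 _ _ (by norm_num) (R1 hR u m 4 hu1 hu4 (by omega) (by omega) rfl)
      (R1 hR m u 0 (by omega) (by omega) (by omega) (by omega) rfl)
  · exact four' 3 6 3 6 _ _ _ _ (by norm_num) (R1 hR u (7 * u) 0 hu1 hu4 (by omega) (by omega) rfl)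
      (R4 hR (7 * u) (19 * u) 1 (by omega) (by omega) (by omega) (by omega) rfl)
      (R1 hR (19 * u) (13 * u) 4 (by omega) (by omega) (by omega) (by omega) rfl)
      (R4 hR (13 * u) u 3 (by omega) (by omega) (by omega) (by omega) rfl)
  · obtain ⟨m, hm⟩ : ∃ m, n = 5 * m := ⟨n / 5, by omega⟩
    exact four' 6 3 6 3 _ _ _ _ (by norm_num) (R4 hR u (19 * m) 1 hu1 hu4 (by omega) (by omega) rfl)
      (R1 hR (19 * m) (13 * m) 4 (by omega) (by omega) (by omega) (by omega) rfl)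
      (R4 hR (13 * m) m 3 (by omega) (by omega) (by omega) (by omega) rfl)
      (R1 hR m u 0 (by omega) (by omega) (by omega) (by omega) rfl)
  · obtain ⟨m, hm⟩ : ∃ m, n = 5 * m := ⟨n / 5, by omega⟩
    exact four' 6 3 6 3 _ _ _ _ (by norm_num) (R4 hR u m 3 hu1 hu4 (by omega) (by omega) rfl)
      (R1 hR m (7 * m) 0 (by omega) (by omega) (by omega) (by omega) rfl)
      (R4 hR (7 * m) (19 * m) 1 (by omega) (by omega) (by omega) (by omega) rfl)
      (R1 hR (19 * m) u 4 (by omega) (by omega) (by omega) (by omega) rfl)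
  · obtain ⟨m, hm⟩ : ∃ m, n = 5 * m := ⟨n / 5, by omega⟩
    exact four' 3 6 3 6 _ _ _ _ (by norm_num) (R1 hR u (13 * m) 4 hu1 hu4 (by omega) (by omega) rfl)
      (R4 hR (13 * m) m 3 (by omega) (by omega) (by omega) (by omega) rfl)
      (R1 hR m (7 * m) 0 (by omega) (by omega) (by omega) (by omega) rfl)
      (R4 hR (7 * m) u 1 (by omega) (by omega) (by omega) (by omega) rfl)

end Pool.Agent.N163.KN.LAST
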