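import Pool.Agent.N163.KN.Stm

/-!
# KN/NZ: a point with nonzero logarithmic derivative (helper933)
-/

set_option autoImplicit false

namespace Pool.Agent.N163.KN.NZ

open Polynomial

/-- the height -/
noncomputable def ht {k : Type} [Field k] (z : RatFunc k) : ℕ :=
  z.num.natDegree + z.denom.natDegree

theorem ht_pow {k : Type} [Field k] (z : RatFunc k) (hz : z ≠ 0) : 7 * ht z ≤ ht (z ^ 7) := by
  have hz7 : z ^ 7 ≠ 0 := pow_ne_zero 7 hz
  have hcop : IsCoprime (z.num ^ 7) (z.denom ^ 7) := (z.isCoprime_num_denom).pow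
  have hinj := RatFunc.algebraMap_injective k
  have h1 : algebraMap k[X] (RatFunc k) z.num / algebraMap k[X] (RatFunc k) z.denom = z :=
    z.num_div_denom
  have h2 : algebraMap k[X] (RatFunc k) (z ^ 7).num / algebraMap k[X] (RatFunc k) (z ^ 7).denom =
      z ^ 7 := (z ^ 7).num_div_denom
  have hd1 : algebraMap k[X] (RatFunc k) z.denom ≠ 0 :=
    (map_ne_zero_iff _ hinj).2 z.denom_ne_zero
  have hd2 : algebraMap k[X] (RatFunc k) (z ^ 7).denom ≠ 0 :=
    (map_ne_zero_iff _ hinj).2 (z ^ 7).denom_ne_zero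
  have h3 : (z ^ 7).num * z.denom ^ 7 = z.num ^ 7 * (z ^ 7).denom := by
    apply hinj
    rw [map_mul, map_mul, map_pow, map_pow]
    have h4 : algebraMap k[X] (RatFunc k) (z ^ 7).num =
        z ^ 7 * algebraMap k[X] (RatFunc k) (z ^ 7).denom := by
      exact (div_eq_iff hd2).1 h2
    have h5 : algebraMap k[X] (RatFunc k) z.num = z * algebraMap k[X] (RatFunc k) z.denom := by
      exact (div_eq_iff hd1).1 h1
    rw [h4, h5]
    ring
  have hn : z.num ^ 7 ∣ (z ^ 7).num :=
    hcop.dvd_of_dvd_mul_right ⟨(z ^ 7).denom, h3⟩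
  have hd : z.denom ^ 7 ∣ (z ^ 7).denom :=
    hcop.symm.dvd_of_dvd_mul_left ⟨(z ^ 7).num, by rw [← h3]; ring⟩
  have hnum0 : (z ^ 7).num ≠ 0 := RatFunc.num_ne_zero hz7
  have e1 := natDegree_le_of_dvd hn hnum0
  have e2 := natDegree_le_of_dvd hd (z ^ 7).denom_ne_zero
  rw [natDegree_pow] at e1 e2
  unfold ht
  omega

theorem const_of_ht {k : Type} [Field k] (z : RatFunc k) (hz : ht z = 0) :
    ∃ c : k, z = RatFunc.C c := by
  unfold ht at hz
  have h1 : z.num.natDegree = 0 := by omega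
  have h2 : z.denom.natDegree = 0 := by omega
  obtain ⟨α, hα⟩ := natDegree_eq_zero.1 h1
  obtain ⟨β, hβ⟩ := natDegree_eq_zero.1 h2
  refine ⟨α / β, ?_⟩
  have h3 := z.num_div_denom
  rw [← hα, ← hβ, RatFunc.algebraMap_C, RatFunc.algebraMap_C] at h3
  rw [map_div₀]
  exact h3.symm

theorem t_NZ (hK : S_KER) (hC : S_CUBE) : S_NZ := by
  intro k _ _ _ δ hδ n hn h7
  have ha : aa k n ≠ 0 := by
    intro h
    refine hC k n hn h7 1 0 one_ne_zero ?_
    rw [h]
    simp
  have key : ∀ N : ℕ, ∀ x y : RatFunc k, ht (x ^ 3 / aa k n ^ 2) ≤ N → x ≠ 0 →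
      y ^ 2 = x ^ 3 + aa k n ^ 2 →
      ∃ x₁ y₁ : RatFunc k, y₁ ^ 2 = x₁ ^ 3 + aa k n ^ 2 ∧ dd δ (aa k n) x₁ y₁ ≠ 0 := by
    intro N
    induction N using Nat.strong_induction_on with
    | _ N ih =>
      intro x y hN hx hxy
      by_cases hdd : dd δ (aa k n) x y = 0
      · have hy : y ≠ 0 := by
          intro hy
          rw [hy] at hxy
          refine hC k n hn h7 (-1) x (neg_ne_zero.2 one_ne_zero) ?_
          rw [map_neg, map_one]
          linear_combination -hxy
        obtain ⟨x₁, y₁, h1, h2, h3⟩ := hK k δ hδ (aa k n) x y ha hy hxy hdd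
        have hx1 : x₁ ≠ 0 := by
          rintro rfl
          apply hx
          rw [h2]
          simp
        have hz1 : x₁ ^ 3 / aa k n ^ 2 ≠ 0 := div_ne_zero (pow_ne_zero _ hx1) (pow_ne_zero _ ha)
        have hz : x ^ 3 / aa k n ^ 2 = (x₁ ^ 3 / aa k n ^ 2) ^ 7 := by
          rw [h2]
          field_simp
        have hht := ht_pow _ hz1
        rw [← hz] at hht
        rcases Nat.eq_zero_or_pos (ht (x₁ ^ 3 / aa k n ^ 2)) with h0 | h0
        · exfalso
          obtain ⟨c, hc⟩ := const_of_ht _ h0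
          have hc0 : c ≠ 0 := by
            rintro rfl
            rw [map_zero] at hc
            exact hz1 hc
          refine hC k n hn h7 c x₁ hc0 ?_
          rw [← hc, div_mul_cancel₀ _ (pow_ne_zero _ ha)]
        · exact ih (ht (x₁ ^ 3 / aa k n ^ 2)) (by omega) x₁ y₁ le_rfl hx1 h1
      · exact ⟨x, y, hxy, hdd⟩
  intro x y hx hxy
  exact key _ x y le_rfl hx hxy

end Pool.Agent.N163.KN.NZ
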