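import Pool.Agent.N163.KN.Stm

/-!
# Project KN (helper163), leaf OM: `1 + ω + ω² = 0`
-/

set_option autoImplicit false

namespace Pool.Agent.N163.KN.OM

open WeierstrassCurve.Affine

theorem t_OM : S_OM := by
  intro K _ _ _ e φ he hφ P
  have h7 : (7 : K) = 0 := by
    have := CharP.cast_eq_zero K 7
    exact_mod_cast this
  have h2 : (2 : K) ≠ 0 := by
    intro h
    apply one_ne_zero (α := K)
    linear_combination h7 - 3 * h
  have h3 : (3 : K) ≠ 0 := by
    intro h
    apply one_ne_zero (α := K)
    linear_combination h7 - 2 * h
  cases P with
  | zero =>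
    have h0 : (Point.zero : (W e).Point) = 0 := rfl
    rw [h0, map_zero, map_zero, add_zero, add_zero]
  | some x y h =>
    obtain ⟨h1, hP1⟩ := hφ _ x y ⟨h, rfl⟩
    obtain ⟨h4, hP2⟩ := hφ _ (4 * x) y ⟨h1, hP1⟩
    have heq : y ^ 2 = x ^ 3 + e := by
      have h5 := (equation_iff (W := W e) x y).1 h.1
      simp only [W] at h5
      linear_combination h5
    by_cases hx : x = 0
    · subst hx
      have hy : y ≠ 0 := by
        intro hy
        apply he
        rw [hy] at heq
        linear_combination -heq
      have hfix : φ (Point.some 0 y h) = Point.some 0 y h := by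
        rw [hP1]
        simp
      rw [hfix, hfix]
      have hne : y ≠ (W e).negY 0 y := by
        intro hh
        simp only [negY, W] at hh
        have : 2 * y = 0 := by linear_combination hh
        rcases mul_eq_zero.1 this with h5 | h5
        · exact h2 h5
        · exact hy h5
      have hsl : (W e).slope 0 0 y y = 0 := by
        rw [slope_of_Y_ne rfl hne]
        simp [W]
      rw [Point.add_self_of_Y_ne hne]
      refine Point.add_of_Y_eq ?_ ?_
      · rw [hsl]
        simp [addX, W]
      · rw [hsl]
        simp [addX, addY, negAddY, negY, W]
    · have hne : x ≠ 4 * x := by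
        intro hh
        have : 3 * x = 0 := by linear_combination -hh
        rcases mul_eq_zero.1 this with h5 | h5
        · exact h3 h5
        · exact hx h5
      rw [hP2, hP1, Point.add_of_X_ne hne]
      have hsl : (W e).slope x (4 * x) y y = 0 := by
        rw [slope_of_X_ne hne, sub_self, zero_div]
      refine Point.add_of_Y_eq ?_ ?_
      · rw [hsl]
        simp only [addX, W]
        linear_combination (-3 * x) * h7
      · rw [hsl]
        simp only [addX, addY, negAddY, negY, W]
        ring

end Pool.Agent.N163.KN.OM

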