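import Pool.Agent.N163.KN.Stm

set_option autoImplicit false

namespace Pool.Agent.N163.KN.SEMI

open Pool.Agent.N163.KN

theorem int_of_pow {k : Type} [Field k] [CharP k 7] (c : k) (h : c ^ 7 = c) :
    ∃ n : ℤ, c = (n : k) := by
  have h7 : (7 : k) = 0 := by exact_mod_cast CharP.cast_eq_zero k 7
  have h1 : c * (c - 1) * (c - 2) * (c - 3) * (c - 4) * (c - 5) * (c - 6) = 0 := by
    linear_combination h + (-3 * c ^ 6 + 25 * c ^ 5 - 105 * c ^ 4 + 232 * c ^ 3 - 252 * c ^ 2 +
      103 * c) * h7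
  simp only [mul_eq_zero, sub_eq_zero] at h1
  rcases h1 with (((((h1 | h1) | h1) | h1) | h1) | h1) | h1
  · exact ⟨0, by rw [h1]; simp⟩
  · exact ⟨1, by rw [h1]; simp⟩
  · exact ⟨2, by rw [h1]; simp⟩
  · exact ⟨3, by rw [h1]; simp⟩
  · exact ⟨4, by rw [h1]; simp⟩
  · exact ⟨5, by rw [h1]; simp⟩
  · exact ⟨6, by rw [h1]; simp⟩

/-- The number of nonzero coordinates. -/
noncomputable def sz {k : Type} [Field k] {r : ℕ} (v : Fin r → k) : ℕ :=
  {i | v i ≠ 0}.ncard

theorem sz_lt {k : Type} [Field k] {r : ℕ} {v w : Fin r → k} (h : ∀ i, v i = 0 → w i = 0)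
    (i₀ : Fin r) (h1 : v i₀ ≠ 0) (h2 : w i₀ = 0) : sz w < sz v := by
  apply Set.ncard_lt_ncard _ (Set.toFinite _)
  refine ⟨fun i hi hv => hi (h i hv), fun hsub => ?_⟩
  exact hsub h1 h2

theorem exists_rat {k : Type} [Field k] {r : ℕ} (K : Submodule k (Fin r → k))
    (hK : ∀ v ∈ K, (fun i => v i ^ 7) ∈ K) : ∀ (n : ℕ) (v : Fin r → k), sz v ≤ n → v ∈ K → v ≠ 0 →
    ∃ c ∈ K, c ≠ 0 ∧ (∀ i, c i ^ 7 = c i) ∧ ∀ i, v i = 0 → c i = 0 := by
  intro n
  induction n with
  | zero =>
    intro v hn _ hv0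
    exfalso
    apply hv0
    have h1 : {i | v i ≠ 0} = ∅ := by
      rw [← Set.ncard_eq_zero (Set.toFinite _)]
      exact Nat.le_zero.1 hn
    funext i
    by_contra h
    have : i ∈ {i | v i ≠ 0} := h
    rw [h1] at this
    exact this
  | succ n ih =>
    intro v hn hv hv0
    obtain ⟨i₀, hi₀⟩ := Function.ne_iff.1 hv0
    have hi₀' : v i₀ ≠ 0 := hi₀
    set u : Fin r → k := (v i₀)⁻¹ • v with hu
    have huK : u ∈ K := K.smul_mem _ hv
    have hu1 : u i₀ = 1 := by
      rw [hu, Pi.smul_apply, smul_eq_mul]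
      exact inv_mul_cancel₀ hi₀'
    have hu0 : ∀ i, v i = 0 → u i = 0 := by
      intro i hi
      rw [hu, Pi.smul_apply, hi, smul_zero]
    set w : Fin r → k := (fun i => u i ^ 7) - u with hw
    have hwK : w ∈ K := K.sub_mem (hK u huK) huK
    have hw0 : ∀ i, v i = 0 → w i = 0 := by
      intro i hi
      rw [hw, Pi.sub_apply, hu0 i hi]
      ring
    have hw1 : w i₀ = 0 := by
      rw [hw, Pi.sub_apply, hu1]
      ring
    by_cases hww : w = 0
    · refine ⟨u, huK, ?_, ?_, hu0⟩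
      · intro h
        rw [h] at hu1
        exact zero_ne_one hu1
      · intro i
        have h3 := congrFun hww i
        rw [hw, Pi.sub_apply, Pi.zero_apply] at h3
        exact sub_eq_zero.1 h3
    · have hlt : sz w < sz v := sz_lt hw0 i₀ hi₀' hw1
      obtain ⟨c, hc, hc0, hc7, hcs⟩ := ih w (by omega) hwK hww
      exact ⟨c, hc, hc0, hc7, fun i hi => hcs i (hw0 i hi)⟩

theorem descent {k : Type} [Field k] {r : ℕ} (K : Submodule k (Fin r → k))
    (hK : ∀ v ∈ K, (fun i => v i ^ 7) ∈ K) : ∀ (n : ℕ) (v : Fin r → k), sz v ≤ n → v ∈ K →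
    v ∈ Submodule.span k {c : Fin r → k | c ∈ K ∧ ∀ i, c i ^ 7 = c i} := by
  intro n
  induction n with
  | zero =>
    intro v hn hv
    by_cases h : v = 0
    · rw [h]; exact Submodule.zero_mem _
    · obtain ⟨c, hc, hc0, -, hcs⟩ := exists_rat K hK 0 v hn hv h
      exfalso
      have h1 : {i | v i ≠ 0} = ∅ := by
        rw [← Set.ncard_eq_zero (Set.toFinite _)]
        exact Nat.le_zero.1 hn
      apply h
      funext i
      by_contra h'
      have : i ∈ {i | v i ≠ 0} := h'
      rw [h1] at this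
      exact this
  | succ n ih =>
    intro v hn hv
    by_cases h : v = 0
    · rw [h]; exact Submodule.zero_mem _
    obtain ⟨c, hc, hc0, hc7, hcs⟩ := exists_rat K hK _ v hn hv h
    obtain ⟨i₁, hi₁⟩ := Function.ne_iff.1 hc0
    have hi₁' : c i₁ ≠ 0 := hi₁
    have hv1 : v i₁ ≠ 0 := fun h0 => hi₁' (hcs i₁ h0)
    set w : Fin r → k := v - (v i₁ / c i₁) • c with hw
    have hwK : w ∈ K := K.sub_mem hv (K.smul_mem _ hc)
    have hw0 : ∀ i, v i = 0 → w i = 0 := by
      intro i hi
      rw [hw, Pi.sub_apply, Pi.smul_apply, hi, hcs i hi, smul_zero, sub_zero]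
    have hw1 : w i₁ = 0 := by
      rw [hw, Pi.sub_apply, Pi.smul_apply, smul_eq_mul, div_mul_cancel₀ _ hi₁', sub_self]
    have hlt : sz w < sz v := sz_lt hw0 i₁ hv1 hw1
    have h3 := ih w (by omega) hwK
    have h4 : v = w + (v i₁ / c i₁) • c := by rw [hw]; abel
    rw [h4]
    exact Submodule.add_mem _ h3 (Submodule.smul_mem _ _ (Submodule.subset_span ⟨hc, hc7⟩))

theorem t_SEMI : S_SEMI := by
  intro k _ _ _ V _ T A hA r g hg v hv
  have : Fact (Nat.Prime 7) := ⟨by norm_num⟩
  let K : Submodule k (Fin r → k) := LinearMap.ker (Fintype.linearCombination k g)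
  have hmem : ∀ w : Fin r → k, w ∈ K ↔ ∑ i, w i • g i = 0 := by
    intro w
    show Fintype.linearCombination k g w = 0 ↔ _
    rw [Fintype.linearCombination_apply]
  have hdown : ∀ w : Fin r → k, (fun i => w i ^ 7) ∈ K → w ∈ K := by
    intro w hw
    rw [hmem] at hw ⊢
    have h1 := congrArg T hw
    rw [map_sum, map_zero] at h1
    funext s
    have h2 := congrFun h1 s
    rw [Finset.sum_apply, Pi.zero_apply] at h2 ⊢
    have h3 : ∀ i, T (w i ^ 7 • g i) s = A * (w i * g i s) ^ 7 := by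
      intro i
      rw [map_smul, hg, Pi.smul_apply, smul_eq_mul]
      ring
    simp only [h3] at h2
    rw [← Finset.mul_sum, ← sum_pow_char] at h2
    have h4 := (mul_eq_zero.1 h2).resolve_left hA
    have h5 := eq_zero_of_pow_eq_zero h4
    simpa [Pi.smul_apply, smul_eq_mul] using h5
  let _ := Fintype.ofFinite k
  obtain ⟨m, -, hm⟩ := FiniteField.card k 7
  have hfr : ∀ x : k, x ^ 7 ^ (m : ℕ) = x := by
    intro x
    rw [← hm]
    exact FiniteField.pow_card x
  have hup : ∀ w ∈ K, (fun i => w i ^ 7) ∈ K := by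
    intro w hw
    have h1 : ∀ j : ℕ, j < m → (fun i => w i ^ 7 ^ ((m : ℕ) - j)) ∈ K := by
      intro j
      induction j with
      | zero =>
        intro _
        have : (fun i => w i ^ 7 ^ ((m : ℕ) - 0)) = w := by
          funext i
          rw [Nat.sub_zero]
          exact hfr _
        rw [this]
        exact hw
      | succ j ih =>
        intro hj
        apply hdown
        have h2 := ih (by omega)
        have h3 : (fun i => (w i ^ 7 ^ ((m : ℕ) - (j + 1))) ^ 7) =
            (fun i => w i ^ 7 ^ ((m : ℕ) - j)) := by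
          funext i
          rw [← pow_mul, ← pow_succ]
          congr 2
          omega
        rw [h3]
        exact h2
    have hm0 : 0 < (m : ℕ) := m.pos
    have h2 := h1 ((m : ℕ) - 1) (by omega)
    have h3 : (m : ℕ) - ((m : ℕ) - 1) = 1 := by omega
    rw [h3, pow_one] at h2
    exact h2
  have hvK : v ∈ K := (hmem v).2 hv
  have h := descent K hup _ v le_rfl hvK
  refine Submodule.span_mono ?_ h
  rintro c ⟨hc, hc7⟩
  choose n hn using fun i => int_of_pow (c i) (hc7 i)
  refine ⟨n, ?_, funext hn⟩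
  intro s
  have h1 := congrFun ((hmem c).1 hc) s
  rw [Finset.sum_apply, Pi.zero_apply] at h1
  rw [← h1]
  refine Finset.sum_congr rfl fun i _ => ?_
  rw [Pi.smul_apply, smul_eq_mul, ← hn i]

end Pool.Agent.N163.KN.SEMI
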