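import Pool.Agent.N163.KN.Stm
import Pool.Agent.N420.KS.Defs

/-!
# `MP_3da457_ag`: the final statements
-/

set_option autoImplicit false

namespace Pool.Agent.N163.KN

open Polynomial Pool.Agent.N420.KS

/-- **ADM**: infinitely many admissible triples. -/
def S_ADM : Prop := ∀ (F : Type) [Field F] [Finite F] [CharP F 7] (f : ℕ), Nat.card F = 7 ^ f →
  f.Coprime 6 → ∀ b : F, b = 2 ∨ b = 5 → Admissible F b 6

end Pool.Agent.N163.KN
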