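import Pool.Agent.N163.KN.Stm

/-! Assembly, first part. -/

set_option autoImplicit false

namespace Pool.Agent.N163.KN.Top

open Polynomial WeierstrassCurve.Affine

lemma eqn {K : Type} [Field K] {e x y : K} : (W e).Equation x y ↔ y ^ 2 = x ^ 3 + e := by
  rw [equation_iff]
  simp only [W]
  constructor <;> intro h <;> linear_combination h

lemma nons {K : Type} [Field K] (h2 : (2 : K) ≠ 0) {e x y : K} (hy : y ≠ 0)
    (h : y ^ 2 = x ^ 3 + e) : (W e).Nonsingular x y := by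
  rw [nonsingular_iff']
  refine ⟨eqn.2 h, Or.inr ?_⟩
  simp only [W]
  have : 2 * y + 0 * x + 0 = 2 * y := by ring
  rw [this]
  exact mul_ne_zero h2 hy

lemma isPt_eqn {K : Type} [Field K] {e : K} {P : (W e).Point} {x y : K} (h : IsPt P x y) :
    y ^ 2 = x ^ 3 + e := by
  obtain ⟨h1, -⟩ := h
  exact eqn.1 h1.1

lemma isPt_unique {K : Type} [Field K] {e : K} {P Q : (W e).Point} {x y : K} (h : IsPt P x y)
    (h' : IsPt Q x y) : P = Q := by
  obtain ⟨h1, h2⟩ := h
  obtain ⟨h3, h4⟩ := h'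
  rw [h2, h4]

lemma isPt_coord {K : Type} [Field K] {e : K} {P : (W e).Point} {x y x' y' : K} (h : IsPt P x y)
    (h' : IsPt P x' y') : x = x' ∧ y = y' := by
  obtain ⟨h1, h2⟩ := h
  obtain ⟨h3, h4⟩ := h'
  rw [h2] at h4
  exact Point.some.inj h4

lemma isPt_ne {K : Type} [Field K] {e : K} {P : (W e).Point} {x y : K} (h : IsPt P x y) :
    P ≠ 0 := by
  obtain ⟨h1, h2⟩ := h
  rw [h2]
  exact Point.some_ne_zero h1

lemma cases {K : Type} [Field K] {e : K} (P : (W e).Point) : P = 0 ∨ ∃ x y, IsPt P x y := by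
  rcases P with _ | ⟨x, y, h⟩
  · exact Or.inl rfl
  · exact Or.inr ⟨x, y, h, rfl⟩

section Char

variable {k : Type} [Field k] [CharP k 7]

instance charRat : CharP (RatFunc k) 7 :=
  charP_of_injective_algebraMap (algebraMap k (RatFunc k)).injective 7

lemma seven (K : Type) [Field K] [CharP K 7] : (7 : K) = 0 := by
  have := CharP.cast_eq_zero K 7
  exact_mod_cast this

lemma num_ne (K : Type) [Field K] [CharP K 7] (m : ℕ) (h : ¬ 7 ∣ m) : (m : K) ≠ 0 := by
  intro h1
  exact h ((CharP.cast_eq_zero_iff K 7 m).1 h1)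

lemma two_ne (K : Type) [Field K] [CharP K 7] : (2 : K) ≠ 0 := by
  have := num_ne K 2 (by norm_num)
  exact_mod_cast this

lemma three_ne (K : Type) [Field K] [CharP K 7] : (3 : K) ≠ 0 := by
  have := num_ne K 3 (by norm_num)
  exact_mod_cast this

lemma aa_eq (k : Type) [Field k] (n : ℕ) :
    aa k n = algebraMap k[X] (RatFunc k) (X ^ (6 * n) + 1) := by
  unfold aa
  rw [map_add, map_pow, RatFunc.algebraMap_X, map_one]

lemma aa_ne (k : Type) [Field k] (n : ℕ) (hn : 1 ≤ n) : aa k n ≠ 0 := by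
  rw [aa_eq]
  have : (X ^ (6 * n) + 1 : k[X]) ≠ 0 := by
    intro h
    have h1 := congrArg (fun p => p.coeff 0) h
    simp only [coeff_add, coeff_X_pow, coeff_one_zero, coeff_zero] at h1
    rw [if_neg (by omega)] at h1
    simp at h1
  intro h
  exact this ((map_eq_zero_iff _ (IsFractionRing.injective k[X] (RatFunc k))).1 h)

lemma y_ne (hC : S_CUBE) {n : ℕ} (hn : 1 ≤ n) (h7 : ¬ 7 ∣ n) {x y : RatFunc k}
    (h : y ^ 2 = x ^ 3 + aa k n ^ 2) : y ≠ 0 := by
  intro hy
  apply hC k n hn h7 (-1) x (by simp)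
  rw [hy] at h
  rw [map_neg, map_one]
  linear_combination -h

lemma rel_of (hCAR : S_CAR) (hDER : S_DER) (hCOEF : S_COEF) {n : ℕ} (hn : 1 ≤ n)
    (h7 : ¬ 7 ∣ n) {δ : RatFunc k → RatFunc k} (hδ : IsDer δ) {x y : RatFunc k} (hy : y ≠ 0)
    (h : y ^ 2 = x ^ 3 + aa k n ^ 2) {g : k[X]} (hg : g.natDegree + 2 ≤ 4 * n)
    (hd : dd δ (aa k n) x y = algebraMap k[X] (RatFunc k) g) : Rel n g := by
  apply hCOEF k n g hn h7 hg
  have h1 := hCAR (RatFunc k) δ (aa k n) x y hδ.dn ((hDER k).2 inferInstance δ hδ)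
    (aa_ne k n hn) hy h
  have h2 : ∀ (m : ℕ) (p : k[X]), δ^[m] (algebraMap k[X] (RatFunc k) p) =
      algebraMap k[X] (RatFunc k) (derivative^[m] p) := by
    intro m
    induction m with
    | zero => intro p; rfl
    | succ m ih =>
      intro p
      rw [Function.iterate_succ_apply, hδ.poly, ih, Function.iterate_succ_apply]
  apply IsFractionRing.injective k[X] (RatFunc k)
  rw [← h2, map_mul, map_pow, ← aa_eq, ← hd, h1, map_mul, map_pow, map_neg, hd,
    show (algebraMap k[X] (RatFunc k)) 3 = 3 from map_ofNat _ 3]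

end Char

end Pool.Agent.N163.KN.Top
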