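import Pool.Agent.N163.KN.TopB

/-! Assembly, third part. -/

set_option autoImplicit false

namespace Pool.Agent.N163.KN.Top

open Polynomial WeierstrassCurve.Affine

lemma aa_mul_seven (k : Type) [Field k] [CharP k 7] (m : ℕ) : aa k (7 * m) = aa k m ^ 7 := by
  have : Fact (Nat.Prime 7) := ⟨by norm_num⟩
  unfold aa
  rw [add_pow_char, one_pow, ← pow_mul]
  congr 2
  ring

theorem top (hHOM : S_HOM) (hOM : S_OM) (hFR : S_FR) (hADD : S_ADD) (hCAR : S_CAR)
    (hDER : S_DER) (hKER : S_KER) (hINT : S_INT) (hCUBE : S_CUBE) (hCOEF : S_COEF)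
    (hCOMB : S_COMB) (hLAST : S_LAST) (hNZ : S_NZ) (hTAU : S_TAU) (hFG : S_FG)
    (hMAIN : S_MAIN) : S_TOP := by
  intro k _ _ _ f hf hcop n
  induction n using Nat.strong_induction_on with
  | _ n ih =>
  intro hn x y hxy
  by_cases h7 : 7 ∣ n
  · obtain ⟨m, rfl⟩ := h7
    have ha := aa_ne k m (by omega)
    rw [aa_mul_seven] at hxy
    have h1 := ih m (by omega) (by omega) (x / aa k m ^ 4) (y / aa k m ^ 6) (by
      field_simp
      linear_combination hxy)
    rw [div_eq_zero_iff] at h1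
    rcases h1 with h1 | h1
    · exact h1
    · exact absurd h1 (pow_ne_zero 4 ha)
  · by_contra hx
    obtain ⟨δ, hδ⟩ := (hDER k).1
    obtain ⟨x₁, y₁, h1, hd⟩ := hNZ k δ hδ n hn h7 x y hx hxy
    have hy1 := y_ne hCUBE hn h7 h1
    obtain ⟨g, hg1, hg2⟩ := hINT k δ hδ n hn h7 x₁ y₁ hy1 h1
    have hg0 : g ≠ 0 := by
      rintro rfl
      apply hd
      rw [hg2, map_zero]
    have hrel := rel_of hCAR hDER hCOEF hn h7 hδ hy1 h1 hg1 hg2
    -- a coefficient which is not zero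
    obtain ⟨i, hi⟩ : ∃ i, g.coeff i ≠ 0 := by
      by_contra hcon
      push Not at hcon
      exact hg0 (Polynomial.ext fun i => by rw [hcon i, coeff_zero])
    have hi1 : i ≤ g.natDegree := le_natDegree_of_ne_zero hi
    -- the extension
    have hn6 : ((6 * n : ℕ) : k) ≠ 0 := num_ne k (6 * n) (by omega)
    have : NeZero ((6 * n : ℕ) : k) := ⟨hn6⟩
    have : NeZero (6 * n) := ⟨by omega⟩
    let l := CyclotomicField (6 * n) k
    have hfd : Module.Finite k l := IsCyclotomicExtension.finiteDimensional {6 * n} k l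
    have hfin : Finite l := Module.finite_of_finite k
    have hchar : CharP l 7 := charP_of_injective_algebraMap (algebraMap k l).injective 7
    have : NeZero ((6 * n : ℕ) : l) := ⟨num_ne l (6 * n) (by omega)⟩
    obtain ⟨ζ, hζ⟩ : ∃ ζ : l, IsPrimitiveRoot ζ (6 * n) :=
      ⟨_, IsCyclotomicExtension.zeta_spec (6 * n) k l⟩
    obtain ⟨δ', hδ'⟩ := (hDER l).1
    obtain ⟨τ, hτ, hτδ⟩ := hTAU.2 k l (algebraMap k l) δ δ' hδ hδ'
    have hτa : τ (aa k n) = aa l n := by
      rw [aa_eq, hτ, aa_eq]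
      simp
    classical
    obtain ⟨G, Ω, D, hO⟩ := exists_ops hHOM hOM hFR hADD hCAR hDER hKER hINT hCUBE hCOEF hTAU hn h7
      (hζ.ne_zero (by omega)) hζ.pow_eq_one hδ'
    have h2 : τ y₁ ^ 2 = τ x₁ ^ 3 + aa l n ^ 2 := by
      rw [← map_pow, h1, map_add, map_pow, map_pow, hτa]
    have hy2 : τ y₁ ≠ 0 := y_ne hCUBE hn h7 h2
    have hdd : dd δ' (aa l n) (τ x₁) (τ y₁) = τ (dd δ (aa k n) x₁ y₁) := by
      unfold dd
      rw [map_div₀, map_sub, map_mul, map_mul, map_mul, map_mul, map_ofNat, map_ofNat, hτa,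
        ← hτδ, ← hτδ, hτa]
    have hDP : D (.some (τ x₁) (τ y₁) (nons (two_ne _) hy2 h2)) = g.map (algebraMap k l) := by
      apply IsFractionRing.injective l[X] (RatFunc l)
      rw [hO.val _ _ _ ⟨_, rfl⟩, hdd, hg2, hτ]
    have h3 := hMAIN l n ζ hn h7 hζ _ (hFG l n hn h7) G Ω D hO.gpow hO.comm hO.om hO.inj hO.dg
      hO.dom hO.deg hO.ker hO.rel (.some (τ x₁) (τ y₁) (nons (two_ne _) hy2 h2)) (i + 1) (by omega)
      (by
        rw [hDP, coeff_map, Nat.add_sub_cancel]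
        simpa using hi)
    have h4 := hCOMB n (i + 1) hn (by omega) (by omega) h3
    have h5 := hLAST k f hf hcop n g hn h7 hrel (i + 1) (by omega) (by omega) h4
    rw [Nat.add_sub_cancel] at h5
    exact hi h5

end Pool.Agent.N163.KN.Top
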